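import Pool.Agent.Lib.MP_5e5bb6_lc.BGS

/-!
# BGS machines with counting

The abstract state machines of Blass, Gurevich and Shelah: a machine has dynamic function symbols
of arbitrary arities, its program is a rule built from updates `f (t₁, ..., tₖ) := t₀` with
`skip`, `if ... then ... else ...`, parallel composition and `do forall v ∈ r, ... enddo`.
-/

open Classical

namespace MP5e5.X

open HF

/-- Terms of BGS machines with counting (over one ternary relation symbol).  They are built as
the terms `Tm`, with the additional term `dyn i k a`, the value of the dynamic function symbol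
`(i, k)` of arity `k` at the arguments `a 0, ..., a (k - 1)`.  Variables are de Bruijn indices;
`comp s r φ` is the comprehension term `{s(v) : v ∈ r, φ(v)}`. -/
inductive MTm : Type
  | var : ℕ → MTm
  | empty : MTm
  | atoms : MTm
  | pair : MTm → MTm → MTm
  | union : MTm → MTm
  | unique : MTm → MTm
  | card : MTm → MTm
  | eq : MTm → MTm → MTm
  | mem : MTm → MTm → MTm
  | rel : MTm → MTm → MTm → MTm
  | neg : MTm → MTm
  | conj : MTm → MTm → MTm
  | comp : MTm → MTm → MTm → MTm
  | dyn : (i k : ℕ) → (Fin k → MTm) → MTm

/-- Rules of BGS machines: `update i k a t` is `f (a 0, ..., a (k - 1)) := t` for the dynamic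
function symbol `f = (i, k)`, and `all r R` is `do forall v ∈ r, R(v) enddo`, which binds the
variable `0` in `R`. -/
inductive Rule : Type
  | skip : Rule
  | update : (i k : ℕ) → (Fin k → MTm) → MTm → Rule
  | ite : MTm → Rule → Rule → Rule
  | par : Rule → Rule → Rule
  | all : MTm → Rule → Rule

/-- A location: a dynamic function symbol (number and arity) and a tuple of arguments. -/
abbrev Loc (A : Type) : Type := (_ : ℕ) × (k : ℕ) × (Fin k → HF A)

/-- A state of a machine: the values of the dynamic functions at all locations. -/
abbrev MState (A : Type) : Type := Loc A → HF A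

section Sem

variable {A : Type} [Fintype A]

/-- The value of a term in the structure `(A, R)` at the state `S` under the environment `τ`.
A term counts as true if its value is not the empty set. -/
noncomputable def meval (R : A → A → A → Prop) (S : MState A) : MTm → (ℕ → HF A) → HF A
  | .var i, τ => τ i
  | .empty, _ => ff
  | .atoms, _ => mk (Finset.univ.image atom)
  | .pair a b, τ => mk {meval R S a τ, meval R S b τ}
  | .union a, τ => mk ((meval R S a τ).elems.biUnion fun y => y.elems)
  | .unique a, τ => if h : ∃ y, (meval R S a τ).elems = {y} then h.choose else ff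
  | .card a, τ => ord (meval R S a τ).elems.card
  | .eq a b, τ => bv (meval R S a τ = meval R S b τ)
  | .mem a b, τ => bv (meval R S a τ ∈ meval R S b τ)
  | .rel a b c, τ => bv (∃ x y z : A, meval R S a τ = atom x ∧ meval R S b τ = atom y ∧
      meval R S c τ = atom z ∧ R x y z)
  | .neg a, τ => bv (meval R S a τ = ff)
  | .conj a b, τ => bv (meval R S a τ ≠ ff ∧ meval R S b τ ≠ ff)
  | .comp s r φ, τ =>
      mk (((meval R S r τ).elems.filter fun y => meval R S φ (cons y τ) ≠ ff).image
        fun y => meval R S s (cons y τ))
  | .dyn i k a, τ => S ⟨i, k, fun j => meval R S (a j) τ⟩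

/-- The updates (location, new value) which a rule produces at the state `S`. -/
def updates (R : A → A → A → Prop) (S : MState A) : Rule → (ℕ → HF A) → Set (Loc A × HF A)
  | .skip, _ => ∅
  | .update i k a t, τ => {(⟨i, k, fun j => meval R S (a j) τ⟩, meval R S t τ)}
  | .ite φ r₁ r₂, τ => {u | (meval R S φ τ ≠ ff ∧ u ∈ updates R S r₁ τ) ∨
      (meval R S φ τ = ff ∧ u ∈ updates R S r₂ τ)}
  | .par r₁ r₂, τ => updates R S r₁ τ ∪ updates R S r₂ τ
  | .all r ru, τ => {u | ∃ y ∈ meval R S r τ, u ∈ updates R S ru (cons y τ)}

/-- A set of updates is consistent if it has at most one value for every location. -/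
def Consistent (U : Set (Loc A × HF A)) : Prop :=
  ∀ l v v', (l, v) ∈ U → (l, v') ∈ U → v = v'

/-- The state after the updates `U`; nothing happens if they are not consistent. -/
noncomputable def fire (U : Set (Loc A × HF A)) (S : MState A) : MState A := fun l =>
  if h : Consistent U ∧ ∃ v, (l, v) ∈ U then h.2.choose else S l

/-- The run of the machine with program `M` on the structure `(A, R)`: at time `0` all dynamic
functions have the value `∅` everywhere. -/
noncomputable def mrun (M : Rule) (R : A → A → A → Prop) : ℕ → MState A
  | 0 => fun _ => ff
  | j + 1 => fire (updates R (mrun M R j) M fun _ => ff) (mrun M R j)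

/-- The value of the dynamic constant `Halt`. -/
def haltVal (S : MState A) : HF A := S ⟨0, 0, Fin.elim0⟩

/-- The value of the dynamic constant `Output`. -/
def outVal (S : MState A) : HF A := S ⟨1, 0, Fin.elim0⟩

/-- Critical objects of a state: the atoms, the Boolean values, the values of the dynamic
functions, and the components of the arguments at which a dynamic function has a value
different from the default value `∅`. -/
def Critical (S : MState A) (x : HF A) : Prop :=
  (∃ a, x = atom a) ∨ x = ff ∨ x = tt ∨ ∃ l, S l ≠ ff ∧ (x = S l ∨ ∃ j, x = l.2.2 j)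

/-- Active objects of a state: the critical objects and all members of their transitive
closures. -/
def Active (S : MState A) (x : HF A) : Prop :=
  Critical S x ∨ ∃ y, Critical S y ∧ TC y x

/-- The machine with program `M` accepts `(A, R)` within the resources `t`, `q`: for some
`i ≤ t n`, where `n` is the number of atoms, `i` is the first time at which `Halt` is true, the
value of `Output` at this time is true, and at most `q n` objects are active at the times
`0, ..., i`. -/
def MAccepts (M : Rule) (t : ℕ → ℕ∞) (q : ℕ → ℕ) (R : A → A → A → Prop) : Prop :=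
  ∃ i : ℕ, (i : ℕ∞) ≤ t (Fintype.card A) ∧ (∀ j < i, haltVal (mrun M R j) = ff) ∧
    haltVal (mrun M R i) ≠ ff ∧ outVal (mrun M R i) ≠ ff ∧
    {x | ∃ j ≤ i, Active (mrun M R j) x}.encard ≤ q (Fintype.card A)

end Sem

/-- The machine with program `M` decides `CSP({0,1}; 1IN3)` within the resources `t`, `q`: it
accepts a finite structure if and only if it is a yes-instance. -/
def MDecides (M : Rule) (t : ℕ → ℕ∞) (q : ℕ → ℕ) : Prop :=
  ∀ (A : Type) [Fintype A] (R : A → A → A → Prop), MAccepts M t q R ↔ Sat R

end MP5e5.X
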