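import Pool.Agent.Lib.MP_5e5bb6_lc.X.Asm

/-!
# Coding states of BGS machines as objects; compiling terms and rules
-/

open Classical

namespace MP5e5.X

open HF

section Codes

variable {A : Type}

/-- Two sets with the same elements are equal. -/
theorem as_ext {x y : HF A} (hx : ∀ a, x ≠ atom a) (hy : ∀ a, y ≠ atom a)
    (h : ∀ z, z ∈ x ↔ z ∈ y) : x = y := by
  rcases eq_atom_or_mk x with ⟨a, rfl⟩ | ⟨s, rfl⟩
  · exact absurd rfl (hx a)
  rcases eq_atom_or_mk y with ⟨a, rfl⟩ | ⟨t, rfl⟩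
  · exact absurd rfl (hy a)
  congr 1
  ext z
  simpa using h z

theorem as_ne_ff {x y : HF A} (h : y ∈ x) : x ≠ ff := by
  rintro rfl
  simp [ff] at h

theorem as_ne_ff_iff {s : Finset (HF A)} : mk s ≠ ff ↔ ∃ y, y ∈ s := by
  rw [ff, Ne, mk_inj]
  exact Finset.nonempty_iff_ne_empty.symm

theorem bv_ne_ff {P : Prop} : (bv P : HF A) ≠ ff ↔ P := by
  unfold bv
  split_ifs with h
  · simp [tt, ff, h]
  · simp [h]

theorem bv_eq_ff {P : Prop} : (bv P : HF A) = ff ↔ ¬ P := by
  rw [← not_iff_not, not_not]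
  exact bv_ne_ff

/-- The Kuratowski pair. -/
noncomputable def kp (x y : HF A) : HF A := mk {mk {x, x}, mk {x, y}}

theorem kp_inj {x y x' y' : HF A} (h : kp x y = kp x' y') : x = x' ∧ y = y' := by
  rw [kp, kp, mk_inj] at h
  have h1 : mk {x, x} ∈ ({mk {x', x'}, mk {x', y'}} : Finset (HF A)) := by
    rw [← h]; simp
  have h2 : mk {x, y} ∈ ({mk {x', x'}, mk {x', y'}} : Finset (HF A)) := by
    rw [← h]; simp
  have h3 : mk {x', y'} ∈ ({mk {x, x}, mk {x, y}} : Finset (HF A)) := by
    rw [h]; simp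
  have hx : x = x' := by
    rcases Finset.mem_insert.mp h1 with h4 | h4
    · rw [mk_inj] at h4
      have : x ∈ ({x', x'} : Finset (HF A)) := by rw [← h4]; simp
      simpa using this
    · rw [Finset.mem_singleton, mk_inj] at h4
      have : x' ∈ ({x, x} : Finset (HF A)) := by rw [h4]; simp
      have h5 : x' = x := by simpa using this
      exact h5.symm
  subst hx
  refine ⟨rfl, ?_⟩
  have e2 : ∀ {a b : HF A}, mk {x, a} = mk {x, b} → a = b := by
    intro a b hab
    rw [mk_inj] at hab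
    have ha : a ∈ ({x, b} : Finset (HF A)) := by rw [← hab]; simp
    have hb : b ∈ ({x, a} : Finset (HF A)) := by rw [hab]; simp
    rcases Finset.mem_insert.mp ha with h5 | h5
    · rcases Finset.mem_insert.mp hb with h6 | h6
      · rw [h5, h6]
      · exact (Finset.mem_singleton.mp h6).symm
    · exact Finset.mem_singleton.mp h5
  rcases Finset.mem_insert.mp h2 with h4 | h4
  · have h5 := e2 h4
    rcases Finset.mem_insert.mp h3 with h6 | h6
    · rw [h5, e2 h6]
    · exact (e2 (Finset.mem_singleton.mp h6)).symm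
  · exact e2 (Finset.mem_singleton.mp h4)

theorem not_mem_self (x : HF A) : ¬ x ∈ x := fun h => by
  have : ∀ y : HF A, ¬ y ∈ y := by
    intro y
    induction y using mem_wf.induction with
    | h y ih => exact fun hy => ih y hy hy
  exact this x h

theorem ord_ne_atom (n : ℕ) (a : A) : (ord n : HF A) ≠ atom a := by
  cases n with
  | zero => simp [ord]
  | succ n => simp [ord]

theorem ord_card (n : ℕ) : (ord n : HF A).elems.card = n := by
  induction n with
  | zero => simp [ord]
  | succ n ih =>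
    rw [ord, elems_mk, Finset.card_insert_of_notMem (fun h => not_mem_self _ h), ih]

theorem ord_inj {m n : ℕ} (h : (ord m : HF A) = ord n) : m = n := by
  rw [← ord_card (A := A) m, h, ord_card]

/-- The code of a location. -/
noncomputable def locc (l : Loc A) : HF A :=
  mk (insert (kp (ord 0) (ord (Nat.pair l.1 l.2.1)))
    (Finset.univ.image fun j : Fin l.2.1 => kp (ord (j + 1)) (l.2.2 j)))

theorem mem_locc {l : Loc A} {y : HF A} : y ∈ locc l ↔
    y = kp (ord 0) (ord (Nat.pair l.1 l.2.1)) ∨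
      ∃ j : Fin l.2.1, y = kp (ord ((j : ℕ) + 1)) (l.2.2 j) := by
  rw [locc, mem_mk, Finset.mem_insert, Finset.mem_image]
  constructor
  · rintro (h | ⟨j, -, rfl⟩)
    · exact Or.inl h
    · exact Or.inr ⟨j, rfl⟩
  · rintro (h | ⟨j, rfl⟩)
    · exact Or.inl h
    · exact Or.inr ⟨j, Finset.mem_univ j, rfl⟩

theorem locc_inj {l l' : Loc A} (h : locc l = locc l') : l = l' := by
  obtain ⟨i, k, a⟩ := l
  obtain ⟨i', k', a'⟩ := l'
  have h1 : kp (ord 0) (ord (Nat.pair i k)) ∈ locc (⟨i', k', a'⟩ : Loc A) := by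
    rw [← h]
    exact mem_locc.mpr (Or.inl rfl)
  have h2 : Nat.pair i k = Nat.pair i' k' := by
    rcases mem_locc.mp h1 with h3 | ⟨j, h3⟩
    · exact ord_inj (kp_inj h3).2
    · exact absurd (ord_inj (kp_inj h3).1) (by omega)
  obtain ⟨rfl, rfl⟩ := Nat.pair_eq_pair.mp h2
  congr 2
  funext j
  have h4 : kp (ord (j + 1)) (a j) ∈ locc (⟨i, k, a'⟩ : Loc A) := by
    rw [← h]
    exact mem_locc.mpr (Or.inr ⟨j, rfl⟩)
  rcases mem_locc.mp h4 with h3 | ⟨j', h3⟩
  · exact absurd (ord_inj (kp_inj h3).1) (by omega)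
  · obtain ⟨h5, h6⟩ := kp_inj h3
    have h7 : (j : ℕ) + 1 = j' + 1 := ord_inj h5
    have : j = j' := Fin.ext (by omega)
    rw [h6, this]

/-- The object `X` codes the state `S`. -/
def Enc (X : HF A) (S : MState A) : Prop :=
  (∀ a, X ≠ atom a) ∧ ∀ y, y ∈ X ↔ ∃ l, S l ≠ ff ∧ y = kp (S l) (locc l)

theorem Enc.mem_iff {X : HF A} {S : MState A} (h : Enc X S) {v : HF A} {l : Loc A} :
    kp v (locc l) ∈ X ↔ S l = v ∧ v ≠ ff := by
  rw [h.2]
  constructor
  · rintro ⟨l', h1, h2⟩
    obtain ⟨h3, h4⟩ := kp_inj h2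
    have := locc_inj h4
    subst this
    exact ⟨h3.symm, h3 ▸ h1⟩
  · rintro ⟨h1, h2⟩
    exact ⟨l, h1 ▸ h2, by rw [h1]⟩

end Codes

section Terms

variable {A : Type} [Fintype A] (R : A → A → A → Prop)

theorem mem_eval_pair {a b : Tm} {σ : ℕ → HF A} {y : HF A} :
    y ∈ eval R (.pair a b) σ ↔ y = eval R a σ ∨ y = eval R b σ := by
  rw [eval, mem_mk, Finset.mem_insert, Finset.mem_singleton]

theorem mem_eval_union {a : Tm} {σ : ℕ → HF A} {y : HF A} :
    y ∈ eval R (.union a) σ ↔ ∃ z ∈ eval R a σ, y ∈ z := by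
  rw [eval, mem_mk, Finset.mem_biUnion]
  rfl

theorem mem_eval_comp {s r φ : Tm} {σ : ℕ → HF A} {z : HF A} :
    z ∈ eval R (.comp s r φ) σ ↔
      ∃ y ∈ eval R r σ, eval R φ (cons y σ) ≠ ff ∧ z = eval R s (cons y σ) := by
  rw [eval, mem_mk, Finset.mem_image]
  constructor
  · rintro ⟨y, hy, rfl⟩
    obtain ⟨h1, h2⟩ := Finset.mem_filter.mp hy
    exact ⟨y, h1, h2, rfl⟩
  · rintro ⟨y, hy, h2, rfl⟩
    exact ⟨y, Finset.mem_filter.mpr ⟨hy, h2⟩, rfl⟩

/-- The pair term. -/
def kpT (a b : Tm) : Tm := .pair (.pair a a) (.pair a b)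

theorem eval_kpT (a b : Tm) (σ : ℕ → HF A) :
    eval R (kpT a b) σ = kp (eval R a σ) (eval R b σ) := rfl

/-- Existential quantification over the elements of `r`. -/
def exT (r φ : Tm) : Tm := .comp .empty r φ

theorem exT_ne {r φ : Tm} {σ : ℕ → HF A} :
    eval R (exT r φ) σ ≠ ff ↔ ∃ y ∈ eval R r σ, eval R φ (cons y σ) ≠ ff := by
  constructor
  · intro h
    have h1 : eval R (exT r φ) σ = mk (eval R (exT r φ) σ).elems := by
      rw [exT, eval, elems_mk]
    rw [h1, as_ne_ff_iff] at h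
    obtain ⟨y, hy⟩ := h
    obtain ⟨z, hz, hz', -⟩ := (mem_eval_comp R).mp hy
    exact ⟨z, hz, hz'⟩
  · rintro ⟨y, hy, hy'⟩
    exact as_ne_ff ((mem_eval_comp R).mpr ⟨y, hy, hy', rfl⟩)

/-- The numeral `n`. -/
def ordT : ℕ → Tm
  | 0 => .empty
  | n + 1 => .union (.pair (.pair (ordT n) (ordT n)) (ordT n))

theorem eval_ordT (n : ℕ) (σ : ℕ → HF A) : eval R (ordT n) σ = ord n := by
  induction n with
  | zero => rfl
  | succ n ih =>
    apply as_ext
    · intro a; simp [ordT, eval]
    · exact ord_ne_atom _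
    · intro z
      rw [ordT, mem_eval_union, ord, mem_mk, Finset.mem_insert]
      constructor
      · rintro ⟨y, hy, hz⟩
        rcases (mem_eval_pair R).mp hy with rfl | rfl
        · left
          rcases (mem_eval_pair R).mp hz with h | h <;> rw [h, ih]
        · right
          rw [ih] at hz
          exact hz
      · rintro (rfl | hz)
        · exact ⟨_, (mem_eval_pair R).mpr (Or.inl rfl),
            (mem_eval_pair R).mpr (Or.inl ih.symm)⟩
        · exact ⟨_, (mem_eval_pair R).mpr (Or.inr rfl), by rw [ih]; exact hz⟩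

/-- The set of the values of a list of terms. -/
def setT : List Tm → Tm
  | [] => .empty
  | t :: ts => .union (.pair (.pair t t) (setT ts))

theorem setT_ne_atom (ts : List Tm) (σ : ℕ → HF A) (a : A) : eval R (setT ts) σ ≠ atom a := by
  cases ts with
  | nil => simp [setT, eval, ff]
  | cons t ts => simp [setT, eval]

theorem mem_setT {ts : List Tm} {σ : ℕ → HF A} {y : HF A} :
    y ∈ eval R (setT ts) σ ↔ ∃ t ∈ ts, y = eval R t σ := by
  induction ts with
  | nil => simp [setT, eval, ff]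
  | cons t ts ih =>
    rw [setT, mem_eval_union]
    constructor
    · rintro ⟨z, hz, hy⟩
      rcases (mem_eval_pair R).mp hz with rfl | rfl
      · rcases (mem_eval_pair R).mp hy with h | h <;> exact ⟨t, by simp, h⟩
      · obtain ⟨t', ht', h⟩ := ih.mp hy
        exact ⟨t', by simp [ht'], h⟩
    · rintro ⟨t', ht', h⟩
      rcases List.mem_cons.mp ht' with rfl | ht'
      · exact ⟨_, (mem_eval_pair R).mpr (Or.inl rfl), (mem_eval_pair R).mpr (Or.inl h)⟩
      · exact ⟨_, (mem_eval_pair R).mpr (Or.inr rfl), ih.mpr ⟨t', ht', h⟩⟩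

/-- The term for the code of a location. -/
def loccT (i k : ℕ) (a : Fin k → Tm) : Tm :=
  setT (kpT (ordT 0) (ordT (Nat.pair i k)) :: List.ofFn fun j : Fin k => kpT (ordT (j + 1)) (a j))

theorem eval_loccT (i k : ℕ) (a : Fin k → Tm) (σ : ℕ → HF A) :
    eval R (loccT i k a) σ = locc ⟨i, k, fun j => eval R (a j) σ⟩ := by
  apply as_ext
  · exact setT_ne_atom R _ _
  · intro b; simp [locc]
  · intro z
    rw [loccT, mem_setT, mem_locc]
    constructor
    · rintro ⟨t, ht, rfl⟩
      rcases List.mem_cons.mp ht with rfl | ht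
      · left
        rw [eval_kpT, eval_ordT, eval_ordT]
      · right
        obtain ⟨j, rfl⟩ := (List.mem_ofFn' _ _).mp ht
        exact ⟨j, by rw [eval_kpT, eval_ordT]⟩
    · rintro (rfl | ⟨j, rfl⟩)
      · exact ⟨_, List.mem_cons_self, by rw [eval_kpT, eval_ordT, eval_ordT]⟩
      · refine ⟨kpT (ordT (j + 1)) (a j), List.mem_cons_of_mem _ ?_, by rw [eval_kpT, eval_ordT]⟩
        exact (List.mem_ofFn' _ _).mpr ⟨j, rfl⟩

/-- The constant `true`. -/
def ttT : Tm := .neg .empty

theorem eval_ttT (σ : ℕ → HF A) : eval R ttT σ ≠ ff := by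
  rw [ttT, eval]
  exact bv_ne_ff.mpr rfl

/-- `let x = a in b`. -/
def letT (a b : Tm) : Tm := .unique (.comp b (.pair a a) ttT)

theorem eval_letT (a b : Tm) (σ : ℕ → HF A) :
    eval R (letT a b) σ = eval R b (cons (eval R a σ) σ) := by
  have h : (eval R (.comp b (.pair a a) ttT) σ).elems = {eval R b (cons (eval R a σ) σ)} := by
    ext z
    rw [Finset.mem_singleton]
    refine (mem_eval_comp R).trans ?_
    constructor
    · rintro ⟨y, hy, -, rfl⟩
      rcases (mem_eval_pair R).mp hy with rfl | rfl <;> rfl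
    · rintro rfl
      exact ⟨_, (mem_eval_pair R).mpr (Or.inl rfl), eval_ttT R _, rfl⟩
  have h' : ∃ y, (eval R (.comp b (.pair a a) ttT) σ).elems = {y} := ⟨_, h⟩
  rw [letT, eval, dif_pos h']
  exact Finset.singleton_inj.mp (h'.choose_spec.symm.trans h)

/-- The variable map under a binder. -/
def up (ρ : ℕ → ℕ) : ℕ → ℕ
  | 0 => 0
  | i + 1 => ρ i + 1

/-- Compilation of terms: `ρ` maps the variables of the machine to variables, and the variable `e`
is the state. -/
def comT : MTm → (ℕ → ℕ) → ℕ → Tm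
  | .var i, ρ, _ => .var (ρ i)
  | .empty, _, _ => .empty
  | .atoms, _, _ => .atoms
  | .pair a b, ρ, e => .pair (comT a ρ e) (comT b ρ e)
  | .union a, ρ, e => .union (comT a ρ e)
  | .unique a, ρ, e => .unique (comT a ρ e)
  | .card a, ρ, e => .card (comT a ρ e)
  | .eq a b, ρ, e => .eq (comT a ρ e) (comT b ρ e)
  | .mem a b, ρ, e => .mem (comT a ρ e) (comT b ρ e)
  | .rel a b c, ρ, e => .rel (comT a ρ e) (comT b ρ e) (comT c ρ e)
  | .neg a, ρ, e => .neg (comT a ρ e)
  | .conj a b, ρ, e => .conj (comT a ρ e) (comT b ρ e)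
  | .comp s r φ, ρ, e => .comp (comT s (up ρ) (e + 1)) (comT r ρ e) (comT φ (up ρ) (e + 1))
  | .dyn i k a, ρ, e => .unique (.comp (.var 0) (.union (.union (.var e)))
      (.mem (kpT (.var 0) (loccT i k fun j => comT (a j) (fun i => ρ i + 1) (e + 1)))
        (.var (e + 1))))

theorem mem_uu {X : HF A} {e : ℕ} {σ : ℕ → HF A} (he : σ e = X) {y : HF A} :
    y ∈ eval R (.union (.union (.var e))) σ ↔ ∃ c ∈ X, ∃ z ∈ c, y ∈ z := by
  rw [mem_eval_union]
  constructor
  · rintro ⟨z, hz, hy⟩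
    obtain ⟨c, hc, hz⟩ := (mem_eval_union R).mp hz
    rw [eval, he] at hc
    exact ⟨c, hc, z, hz, hy⟩
  · rintro ⟨c, hc, z, hz, hy⟩
    exact ⟨z, (mem_eval_union R).mpr ⟨c, by rw [eval, he]; exact hc, hz⟩, hy⟩

theorem uu_left {X v l : HF A} (h : kp v l ∈ X) : ∃ c ∈ X, ∃ z ∈ c, v ∈ z :=
  ⟨_, h, mk {v, v}, by simp [kp], by simp⟩

theorem uu_right {X v l : HF A} (h : kp v l ∈ X) : ∃ c ∈ X, ∃ z ∈ c, l ∈ z :=
  ⟨_, h, mk {v, l}, by simp [kp], by simp⟩

theorem comT_eval {X : HF A} {S : MState A} (hX : Enc X S) (t : MTm) :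
    ∀ (ρ : ℕ → ℕ) (e : ℕ) (σ τ : ℕ → HF A), (∀ i, σ (ρ i) = τ i) → σ e = X →
      eval R (comT t ρ e) σ = meval R S t τ := by
  induction t with
  | var i => intro ρ e σ τ h _; exact h i
  | empty => intro ρ e σ τ _ _; rfl
  | atoms => intro ρ e σ τ _ _; rfl
  | pair a b iha ihb =>
    intro ρ e σ τ h he
    rw [comT, eval, meval, iha ρ e σ τ h he, ihb ρ e σ τ h he]
  | union a ih =>
    intro ρ e σ τ h he
    rw [comT, eval, meval, ih ρ e σ τ h he]
  | unique a ih =>
    intro ρ e σ τ h he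
    simp only [comT, eval, meval, ih ρ e σ τ h he]
  | card a ih =>
    intro ρ e σ τ h he
    rw [comT, eval, meval, ih ρ e σ τ h he]
  | eq a b iha ihb =>
    intro ρ e σ τ h he
    rw [comT, eval, meval, iha ρ e σ τ h he, ihb ρ e σ τ h he]
  | mem a b iha ihb =>
    intro ρ e σ τ h he
    rw [comT, eval, meval, iha ρ e σ τ h he, ihb ρ e σ τ h he]
  | rel a b c iha ihb ihc =>
    intro ρ e σ τ h he
    rw [comT, eval, meval, iha ρ e σ τ h he, ihb ρ e σ τ h he, ihc ρ e σ τ h he]
  | neg a ih =>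
    intro ρ e σ τ h he
    rw [comT, eval, meval, ih ρ e σ τ h he]
  | conj a b iha ihb =>
    intro ρ e σ τ h he
    rw [comT, eval, meval, iha ρ e σ τ h he, ihb ρ e σ τ h he]
  | comp s r φ ihs ihr ihφ =>
    intro ρ e σ τ h he
    have hup : ∀ y i, cons y σ (up ρ i) = cons y τ i := by
      intro y i
      cases i with
      | zero => rfl
      | succ i => exact h i
    have he' : ∀ y, cons y σ (e + 1) = X := fun y => he
    have e1 : ∀ y, eval R (comT s (up ρ) (e + 1)) (cons y σ) = meval R S s (cons y τ) :=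
      fun y => ihs _ _ _ _ (hup y) (he' y)
    have e2 : ∀ y, eval R (comT φ (up ρ) (e + 1)) (cons y σ) = meval R S φ (cons y τ) :=
      fun y => ihφ _ _ _ _ (hup y) (he' y)
    simp only [comT, eval, meval, e1, e2, ihr ρ e σ τ h he]
  | dyn i k a ih =>
    intro ρ e σ τ h he
    set l : Loc A := ⟨i, k, fun j => meval R S (a j) τ⟩ with hl
    have e1 : ∀ y, eval R (loccT i k fun j => comT (a j) (fun i => ρ i + 1) (e + 1)) (cons y σ) =
        locc l := by
      intro y
      rw [eval_loccT]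
      congr 1
      rw [hl]
      congr 2
      funext j
      exact ih j _ _ _ _ h he
    have key : ∀ v, v ∈ eval R (.comp (.var 0) (.union (.union (.var e)))
        (.mem (kpT (.var 0) (loccT i k fun j => comT (a j) (fun i => ρ i + 1) (e + 1)))
        (.var (e + 1)))) σ ↔ S l = v ∧ v ≠ ff := by
      intro v
      rw [← hX.mem_iff, mem_eval_comp]
      have hmem : ∀ y, eval R (.mem (kpT (.var 0)
          (loccT i k fun j => comT (a j) (fun i => ρ i + 1) (e + 1))) (.var (e + 1))) (cons y σ) ≠ ff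
          ↔ kp y (locc l) ∈ X := by
        intro y
        rw [eval, bv_ne_ff, eval_kpT, e1]
        show kp y (locc l) ∈ σ e ↔ _
        rw [he]
      constructor
      · rintro ⟨y, hy, hy', h3⟩
        have h3 : v = y := h3
        subst h3
        exact (hmem v).mp hy'
      · intro hv
        exact ⟨v, (mem_uu R he).mpr (uu_left hv), (hmem v).mpr hv, rfl⟩
    rw [comT, eval, meval]
    by_cases hS : S l = ff
    · rw [dif_neg, ← hl, hS]
      rintro ⟨y, hy⟩
      have : y ∈ eval R (.comp (.var 0) (.union (.union (.var e)))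
        (.mem (kpT (.var 0) (loccT i k fun j => comT (a j) (fun i => ρ i + 1) (e + 1)))
        (.var (e + 1)))) σ := by
        rw [mem_def, hy]; simp
      obtain ⟨h1, h2⟩ := (key y).mp this
      exact h2 (h1.symm.trans hS)
    · have h1 : (eval R (.comp (.var 0) (.union (.union (.var e)))
        (.mem (kpT (.var 0) (loccT i k fun j => comT (a j) (fun i => ρ i + 1) (e + 1)))
        (.var (e + 1)))) σ).elems = {S l} := by
        ext v
        rw [Finset.mem_singleton]
        refine (key v).trans ?_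
        constructor
        · rintro ⟨h2, -⟩
          exact h2.symm
        · rintro rfl
          exact ⟨rfl, hS⟩
      have h2 : ∃ y, (eval R (.comp (.var 0) (.union (.union (.var e)))
        (.mem (kpT (.var 0) (loccT i k fun j => comT (a j) (fun i => ρ i + 1) (e + 1)))
        (.var (e + 1)))) σ).elems = {y} := ⟨_, h1⟩
      rw [dif_pos h2]
      exact Finset.singleton_inj.mp (h2.choose_spec.symm.trans h1)

end Terms

end MP5e5.X
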