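import Pool.Agent.Lib.MP_5e5bb6_lc.X.AsmR

/-!
# Active objects and the size of the code of a state
-/

open Classical

namespace MP5e5.X

open HF

section Crit

variable {A : Type} [Fintype A] (R : A → A → A → Prop)

/-- The members of the members of ... (five times) of the variable `i`. -/
def u5 (i : ℕ) : Tm := .union (.union (.union (.union (.union (.var i)))))

/-- The values of the dynamic functions. -/
def valsT : Tm := .comp (.var 0) (uu 0) (exT (uu 1) (.mem (kpT (.var 1) (.var 0)) (.var 2)))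

/-- The components of the arguments. -/
def argsT : Tm := .comp (.var 0) (u5 0) (exT (u5 1) (.conj (.var 0) (exT (uu 2) (exT (uu 3)
  (.conj (.mem (kpT (.var 0) (.var 1)) (.var 4)) (.mem (kpT (.var 2) (.var 3)) (.var 1)))))))

/-- The union of two terms. -/
def unT (a b : Tm) : Tm := .union (.pair a b)

/-- The critical objects. -/
def critT : Tm := unT valsT (unT argsT (unT .atoms (.pair .empty ttT)))

theorem mem_unT {a b : Tm} {σ : ℕ → HF A} {y : HF A} :
    y ∈ eval R (unT a b) σ ↔ y ∈ eval R a σ ∨ y ∈ eval R b σ := by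
  rw [unT, mem_eval_union]
  constructor
  · rintro ⟨z, hz, hy⟩
    rcases (mem_eval_pair R).mp hz with rfl | rfl
    · exact Or.inl hy
    · exact Or.inr hy
  · rintro (h | h)
    · exact ⟨_, (mem_eval_pair R).mpr (Or.inl rfl), h⟩
    · exact ⟨_, (mem_eval_pair R).mpr (Or.inr rfl), h⟩

theorem eval_ttT_eq (σ : ℕ → HF A) : eval R ttT σ = tt := by
  rw [ttT, eval, bv]
  exact if_pos rfl

theorem mem_u5 {i : ℕ} {σ : ℕ → HF A} {c₁ c₂ c₃ c₄ c₅ y : HF A} (h₁ : c₁ ∈ σ i) (h₂ : c₂ ∈ c₁)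
    (h₃ : c₃ ∈ c₂) (h₄ : c₄ ∈ c₃) (h₅ : c₅ ∈ c₄) (hy : y ∈ c₅) : y ∈ eval R (u5 i) σ := by
  refine (mem_eval_union R).mpr ⟨c₅, ?_, hy⟩
  refine (mem_eval_union R).mpr ⟨c₄, ?_, h₅⟩
  refine (mem_eval_union R).mpr ⟨c₃, ?_, h₄⟩
  refine (mem_eval_union R).mpr ⟨c₂, ?_, h₃⟩
  exact (mem_eval_union R).mpr ⟨c₁, h₁, h₂⟩

theorem mem_valsT {X : HF A} {S : MState A} (hX : Enc X S) {y : HF A} :
    y ∈ eval R valsT (fun _ => X) ↔ ∃ l, S l ≠ ff ∧ y = S l := by
  rw [valsT, mem_eval_comp]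
  constructor
  · rintro ⟨v, -, hv, h1⟩
    have h1 : y = v := h1
    subst h1
    obtain ⟨l', -, h2⟩ := (exT_ne R).mp hv
    have h3 : kp y l' ∈ X := (ne_mem R).mp h2
    obtain ⟨l, h4, h5⟩ := (hX.2 _).mp h3
    exact ⟨l, h4, (kp_inj h5).1⟩
  · rintro ⟨l, h1, rfl⟩
    have h2 : kp (S l) (locc l) ∈ X := hX.mem_iff.mpr ⟨rfl, h1⟩
    refine ⟨S l, (mem_uu' R).mpr (uu_left h2), ?_, rfl⟩
    exact (exT_ne R).mpr ⟨locc l, (mem_uu' R).mpr (uu_right h2), (ne_mem R).mpr h2⟩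

theorem mem_argsT {X : HF A} {S : MState A} (hX : Enc X S) {y : HF A} :
    y ∈ eval R argsT (fun _ => X) ↔ ∃ l, S l ≠ ff ∧ ∃ j, y = l.2.2 j := by
  rw [argsT, mem_eval_comp]
  constructor
  · rintro ⟨x, -, hx, h1⟩
    have h1 : y = x := h1
    subst h1
    obtain ⟨p, -, hp⟩ := (exT_ne R).mp hx
    obtain ⟨hp1, hp2⟩ := (ne_conj R).mp hp
    obtain ⟨l', -, hl⟩ := (exT_ne R).mp hp2
    obtain ⟨v, -, hv⟩ := (exT_ne R).mp hl
    obtain ⟨h2, h3⟩ := (ne_conj R).mp hv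
    have hp1 : p ≠ ff := hp1
    have h2 : kp v l' ∈ X := (ne_mem R).mp h2
    have h3 : kp p y ∈ l' := (ne_mem R).mp h3
    obtain ⟨l, h4, h5⟩ := (hX.2 _).mp h2
    obtain ⟨-, h6⟩ := kp_inj h5
    subst h6
    rcases mem_locc.mp h3 with h7 | ⟨j, h7⟩
    · exact absurd (kp_inj h7).1 hp1
    · exact ⟨l, h4, j, (kp_inj h7).2⟩
  · rintro ⟨l, h1, j, rfl⟩
    have h2 : kp (S l) (locc l) ∈ X := hX.mem_iff.mpr ⟨rfl, h1⟩
    have h3 : kp (ord ((j : ℕ) + 1)) (l.2.2 j) ∈ locc l := mem_locc.mpr (Or.inr ⟨j, rfl⟩)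
    have h4 : mk {S l, locc l} ∈ kp (S l) (locc l) := by simp [kp]
    have h5 : locc l ∈ mk {S l, locc l} := by simp
    have h6 : mk {ord ((j : ℕ) + 1), l.2.2 j} ∈ kp (ord ((j : ℕ) + 1)) (l.2.2 j) := by simp [kp]
    have h7 : l.2.2 j ∈ mk {ord ((j : ℕ) + 1), l.2.2 j} := by simp
    have h8 : ord ((j : ℕ) + 1) ∈ mk {ord ((j : ℕ) + 1), l.2.2 j} := by simp
    have h9 : (ord ((j : ℕ) + 1) : HF A) ≠ ff := fun h => by
      have : (ord ((j : ℕ) + 1) : HF A) = ord 0 := h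
      exact absurd (ord_inj this) (by omega)
    refine ⟨l.2.2 j, mem_u5 R h2 h4 h5 h3 h6 h7, ?_, rfl⟩
    refine (exT_ne R).mpr ⟨ord ((j : ℕ) + 1), mem_u5 R h2 h4 h5 h3 h6 h8, ?_⟩
    refine (ne_conj R).mpr ⟨h9, ?_⟩
    refine (exT_ne R).mpr ⟨locc l, (mem_uu' R).mpr (uu_right h2), ?_⟩
    refine (exT_ne R).mpr ⟨S l, (mem_uu' R).mpr (uu_left h2), ?_⟩
    exact (ne_conj R).mpr ⟨(ne_mem R).mpr h2, (ne_mem R).mpr h3⟩

theorem mem_critT {X : HF A} {S : MState A} (hX : Enc X S) {y : HF A} :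
    y ∈ eval R critT (fun _ => X) ↔ Critical S y := by
  rw [critT, mem_unT, mem_unT, mem_unT, mem_valsT R hX, mem_argsT R hX, mem_eval_pair,
    eval_ttT_eq, Critical]
  have h1 : y ∈ eval R .atoms (fun _ => X) ↔ ∃ a, y = atom a := by
    rw [eval, mem_mk, Finset.mem_image]
    constructor
    · rintro ⟨a, -, rfl⟩
      exact ⟨a, rfl⟩
    · rintro ⟨a, rfl⟩
      exact ⟨a, Finset.mem_univ a, rfl⟩
  rw [h1]
  have h2 : (y = eval R .empty (fun _ => X)) ↔ y = ff := Iff.rfl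
  rw [h2]
  constructor
  · rintro (⟨l, h3, h4⟩ | ⟨l, h3, j, h4⟩ | h | h | h)
    · exact Or.inr (Or.inr (Or.inr ⟨l, h3, Or.inl h4⟩))
    · exact Or.inr (Or.inr (Or.inr ⟨l, h3, Or.inr ⟨j, h4⟩⟩))
    · exact Or.inl h
    · exact Or.inr (Or.inl h)
    · exact Or.inr (Or.inr (Or.inl h))
  · rintro (h | h | h | ⟨l, h3, h4 | ⟨j, h4⟩⟩)
    · exact Or.inr (Or.inr (Or.inl h))
    · exact Or.inr (Or.inr (Or.inr (Or.inl h)))
    · exact Or.inr (Or.inr (Or.inr (Or.inr h)))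
    · exact Or.inl ⟨l, h3, h4⟩
    · exact Or.inr (Or.inl ⟨l, h3, j, h4⟩)

end Crit

section Size

variable {A : Type}

theorem TC_iff {x y : HF A} : TC x y ↔ ∃ z ∈ x, y = z ∨ TC z y := by
  constructor
  · intro h
    induction h with
    | base h => exact ⟨_, h, Or.inl rfl⟩
    | step h1 h2 ih =>
      obtain ⟨w, hw, h3 | h3⟩ := ih
      · subst h3
        exact ⟨_, hw, Or.inr (TC.base h2)⟩
      · exact ⟨_, hw, Or.inr (TC.step h3 h2)⟩
  · rintro ⟨z, hz, rfl | h⟩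
    · exact TC.base hz
    · induction h with
      | base h => exact TC.step (TC.base hz) h
      | step _ h2 ih => exact TC.step ih h2

/-- The active objects of a state form the transitive closure of the set of the critical
objects. -/
theorem active_iff {S : MState A} {c : HF A} (hc : ∀ y, y ∈ c ↔ Critical S y) {x : HF A} :
    Active S x ↔ TC c x := by
  rw [TC_iff]
  constructor
  · rintro (h | ⟨y, h1, h2⟩)
    · exact ⟨x, (hc x).mpr h, Or.inl rfl⟩
    · exact ⟨y, (hc y).mpr h1, Or.inr h2⟩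
  · rintro ⟨z, hz, rfl | h⟩
    · exact Or.inl ((hc _).mp hz)
    · exact Or.inr ⟨z, (hc z).mp hz, h⟩

/-- The symbols of a rule. -/
noncomputable def syms : Rule → Finset (ℕ × ℕ)
  | .skip => ∅
  | .update i k _ _ => {(i, k)}
  | .ite _ r₁ r₂ => syms r₁ ∪ syms r₂
  | .par r₁ r₂ => syms r₁ ∪ syms r₂
  | .all _ ru => syms ru

variable [Fintype A] (R : A → A → A → Prop)

theorem updates_syms {S : MState A} (ru : Rule) : ∀ (τ : ℕ → HF A) (u : Loc A × HF A),
    u ∈ updates R S ru τ → (u.1.1, u.1.2.1) ∈ syms ru := by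
  induction ru with
  | skip => intro τ u h; exact absurd h (Set.notMem_empty u)
  | update i k a t =>
    intro τ u h
    simp only [updates, Set.mem_singleton_iff] at h
    subst h
    simp [syms]
  | ite φ r₁ r₂ ih₁ ih₂ =>
    rintro τ u (⟨-, h⟩ | ⟨-, h⟩)
    · exact Finset.mem_union_left _ (ih₁ τ u h)
    · exact Finset.mem_union_right _ (ih₂ τ u h)
  | par r₁ r₂ ih₁ ih₂ =>
    rintro τ u (h | h)
    · exact Finset.mem_union_left _ (ih₁ τ u h)
    · exact Finset.mem_union_right _ (ih₂ τ u h)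
  | all r ru ih =>
    rintro τ u ⟨y, -, h⟩
    exact ih _ u h

theorem mrun_syms (M : Rule) (j : ℕ) (l : Loc A) (h : mrun M R j l ≠ ff) :
    (l.1, l.2.1) ∈ syms M := by
  induction j with
  | zero => exact absurd rfl h
  | succ j ih =>
    rw [mrun, fire] at h
    split_ifs at h with h1
    · obtain ⟨v, hv⟩ := h1.2
      exact updates_syms R M _ _ hv
    · exact ih h

/-- The sets `{x, y}` with `x, y ∈ D`. -/
noncomputable def P1 (D : Finset (HF A)) : Finset (HF A) := (D ×ˢ D).image fun p => mk {p.1, p.2}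

omit [Fintype A] in
theorem card_P1 (D : Finset (HF A)) : (P1 D).card ≤ D.card ^ 2 := by
  refine Finset.card_image_le.trans ?_
  rw [Finset.card_product, sq]

omit [Fintype A] in
theorem mem_P1 {D : Finset (HF A)} {x y : HF A} (hx : x ∈ D) (hy : y ∈ D) : mk {x, y} ∈ P1 D :=
  Finset.mem_image.mpr ⟨(x, y), Finset.mem_product.mpr ⟨hx, hy⟩, rfl⟩

omit [Fintype A] in
theorem kp_mem {D : Finset (HF A)} {x y : HF A} (hx : x ∈ D) (hy : y ∈ D) : kp x y ∈ P1 (P1 D) :=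
  mem_P1 (mem_P1 hx hx) (mem_P1 hx hy)

omit [Fintype A] in
theorem mem_of_P1 {D : Finset (HF A)} {x z : HF A} (hx : x ∈ P1 D) (hz : z ∈ x) : z ∈ D := by
  obtain ⟨p, hp, rfl⟩ := Finset.mem_image.mp hx
  obtain ⟨h1, h2⟩ := Finset.mem_product.mp hp
  rcases Finset.mem_insert.mp (mem_mk.mp hz) with rfl | h
  · exact h1
  · rw [Finset.mem_singleton.mp h]
    exact h2

omit [Fintype A] in
theorem mem_ord {m : ℕ} {z : HF A} (h : z ∈ (ord m : HF A)) : ∃ k < m, z = ord k := by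
  induction m with
  | zero => simp [ord] at h
  | succ m ih =>
    rw [ord, mem_mk, Finset.mem_insert] at h
    rcases h with rfl | h
    · exact ⟨m, Nat.lt_succ_self m, rfl⟩
    · obtain ⟨k, hk, rfl⟩ := ih h
      exact ⟨k, hk.trans (Nat.lt_succ_self m), rfl⟩

/-- The locations with symbols in `V` and arguments in `Q`. -/
noncomputable def locs (V : Finset (ℕ × ℕ)) (Q : Finset (HF A)) : Finset (Loc A) :=
  V.biUnion fun s => (Fintype.piFinset fun _ : Fin s.2 => Q).image fun a => ⟨s.1, s.2, a⟩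

omit [Fintype A] in
theorem card_locs (V : Finset (ℕ × ℕ)) (Q : Finset (HF A)) (c : ℕ) (hc : ∀ s ∈ V, s.2 ≤ c) :
    (locs V Q).card ≤ V.card * (Q.card + 1) ^ c := by
  refine Finset.card_biUnion_le_card_mul _ _ _ fun s hs => ?_
  refine Finset.card_image_le.trans ?_
  rw [Fintype.card_piFinset]
  simp only [Finset.prod_const, Finset.card_univ, Fintype.card_fin]
  calc Q.card ^ s.2 ≤ (Q.card + 1) ^ s.2 := Nat.pow_le_pow_left (Nat.le_succ _) _
    _ ≤ (Q.card + 1) ^ c := Nat.pow_le_pow_right (Nat.succ_pos _) (hc s hs)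

omit [Fintype A] in
theorem mem_locs {V : Finset (ℕ × ℕ)} {Q : Finset (HF A)} {l : Loc A} (h : (l.1, l.2.1) ∈ V)
    (hl : ∀ j, l.2.2 j ∈ Q) : l ∈ locs V Q := by
  refine Finset.mem_biUnion.mpr ⟨(l.1, l.2.1), h, Finset.mem_image.mpr ⟨l.2.2, ?_, rfl⟩⟩
  exact Fintype.mem_piFinset.mpr hl

/-- The bound for the size of the code of a state. -/
def bnd (v c q : ℕ) : ℕ := 3 * (q + (c + 2) + v * (q + 1) ^ c) ^ 4

omit [Fintype A] in
theorem tcCard_le {X : HF A} {S : MState A} (hX : Enc X S) {V : Finset (ℕ × ℕ)} {c : ℕ}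
    (hV : ∀ l, S l ≠ ff → (l.1, l.2.1) ∈ V) (hc : ∀ s ∈ V, s.2 ≤ c ∧ Nat.pair s.1 s.2 ≤ c)
    {Q : Finset (HF A)} (hQ : ∀ x, Active S x → x ∈ Q) (hQ' : ∀ x ∈ Q, ∀ y ∈ x, y ∈ Q) {q : ℕ}
    (hq : Q.card ≤ q) : tcCard X ≤ bnd V.card c q := by
  set E : Finset (HF A) := Q ∪ (Finset.range (c + 2)).image ord ∪ (locs V Q).image locc with hE
  have hEQ : ∀ x ∈ Q, x ∈ E := fun x hx => Finset.mem_union_left _ (Finset.mem_union_left _ hx)
  have hEo : ∀ m, m < c + 2 → (ord m : HF A) ∈ E := fun m hm =>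
    Finset.mem_union_left _ (Finset.mem_union_right _
      (Finset.mem_image.mpr ⟨m, Finset.mem_range.mpr hm, rfl⟩))
  have hEl : ∀ l ∈ locs V Q, locc l ∈ E := fun l hl =>
    Finset.mem_union_right _ (Finset.mem_image.mpr ⟨l, hl, rfl⟩)
  have hElem : ∀ l ∈ locs V Q, ∀ z ∈ locc l, z ∈ P1 (P1 E) := by
    intro l hl z hz
    obtain ⟨s, hs, hl'⟩ := Finset.mem_biUnion.mp hl
    obtain ⟨a, ha, rfl⟩ := Finset.mem_image.mp hl'
    have ha := Fintype.mem_piFinset.mp ha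
    obtain ⟨hc1, hc2⟩ := hc s hs
    rcases mem_locc.mp hz with rfl | ⟨j, rfl⟩
    · exact kp_mem (hEo 0 (by omega)) (hEo _ (by show Nat.pair s.1 s.2 < c + 2; omega))
    · have hj : (j : ℕ) < s.2 := j.isLt
      exact kp_mem (hEo _ (by omega)) (hEQ _ (ha j))
  set T : Finset (HF A) := E ∪ P1 E ∪ P1 (P1 E) with hT
  have hTC : ∀ y, TC X y → y ∈ T := by
    intro y hy
    induction hy with
    | base h =>
      obtain ⟨l, h1, rfl⟩ := (hX.2 _).mp h
      refine Finset.mem_union_right _ (kp_mem ?_ ?_)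
      · exact hEQ _ (hQ _ (Or.inl (Or.inr (Or.inr (Or.inr ⟨l, h1, Or.inl rfl⟩)))))
      · refine hEl l (mem_locs (hV l h1) fun j => ?_)
        exact hQ _ (Or.inl (Or.inr (Or.inr (Or.inr ⟨l, h1, Or.inr ⟨j, rfl⟩⟩))))
    | @step y z _ h2 ih =>
      rcases Finset.mem_union.mp ih with ih | ih
      · rcases Finset.mem_union.mp ih with ih | ih
        · rcases Finset.mem_union.mp ih with ih | ih
          · rcases Finset.mem_union.mp ih with ih | ih
            · exact Finset.mem_union_left _ (Finset.mem_union_left _ (hEQ _ (hQ' _ ih _ h2)))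
            · obtain ⟨m, hm, rfl⟩ := Finset.mem_image.mp ih
              obtain ⟨k, hk, rfl⟩ := mem_ord h2
              have hm := Finset.mem_range.mp hm
              exact Finset.mem_union_left _ (Finset.mem_union_left _ (hEo k (by omega)))
          · obtain ⟨l, hl, rfl⟩ := Finset.mem_image.mp ih
            exact Finset.mem_union_right _ (hElem l hl _ h2)
        · exact Finset.mem_union_left _ (Finset.mem_union_left _ (mem_of_P1 ih h2))
      · exact Finset.mem_union_left _ (Finset.mem_union_right _ (mem_of_P1 ih h2))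
  have h1 : tcCard X ≤ T.card := by
    rw [tcCard, ← Set.ncard_coe_finset T]
    exact Set.ncard_le_ncard (fun y hy => hTC y hy) (Finset.finite_toSet T)
  have hEcard : E.card ≤ q + (c + 2) + V.card * (q + 1) ^ c := by
    have e1 : ((Finset.range (c + 2)).image (ord : ℕ → HF A)).card ≤ c + 2 :=
      Finset.card_image_le.trans (by rw [Finset.card_range])
    have e2 : ((locs V Q).image locc).card ≤ V.card * (q + 1) ^ c := by
      refine Finset.card_image_le.trans ((card_locs V Q c fun s hs => (hc s hs).1).trans ?_)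
      exact Nat.mul_le_mul_left _ (Nat.pow_le_pow_left (by omega) _)
    calc E.card ≤ (Q ∪ (Finset.range (c + 2)).image ord).card + ((locs V Q).image locc).card :=
          Finset.card_union_le _ _
      _ ≤ (Q.card + ((Finset.range (c + 2)).image (ord : ℕ → HF A)).card) +
          ((locs V Q).image locc).card := Nat.add_le_add_right (Finset.card_union_le _ _) _
      _ ≤ q + (c + 2) + V.card * (q + 1) ^ c := by omega
  set n := q + (c + 2) + V.card * (q + 1) ^ c with hn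
  have hn1 : 1 ≤ n := by omega
  have h2 : (P1 E).card ≤ n ^ 2 := (card_P1 E).trans (Nat.pow_le_pow_left hEcard 2)
  have h3 : (P1 (P1 E)).card ≤ n ^ 4 := by
    refine (card_P1 _).trans ((Nat.pow_le_pow_left h2 2).trans ?_)
    rw [← pow_mul]
  have h4 : T.card ≤ n + n ^ 2 + n ^ 4 := by
    calc T.card ≤ (E ∪ P1 E).card + (P1 (P1 E)).card := Finset.card_union_le _ _
      _ ≤ (E.card + (P1 E).card) + (P1 (P1 E)).card :=
          Nat.add_le_add_right (Finset.card_union_le _ _) _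
      _ ≤ n + n ^ 2 + n ^ 4 := by omega
  have h5 : n ≤ n ^ 4 := Nat.le_self_pow (by norm_num) n
  have h6 : n ^ 2 ≤ n ^ 4 := Nat.pow_le_pow_right hn1 (by norm_num)
  calc tcCard X ≤ T.card := h1
    _ ≤ n + n ^ 2 + n ^ 4 := h4
    _ ≤ 3 * n ^ 4 := by omega
    _ = bnd V.card c q := rfl

end Size

section Growth

theorem log_bnd (v c : ℕ) : ∃ D : ℕ, ∀ q, Nat.log 2 (bnd v c q) ≤ D * (1 + Nat.log 2 q) := by
  set K := 1 + (c + 2) + v with hK
  refine ⟨2 + 4 * K + 4 * (c + 1), fun q => ?_⟩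
  set L := Nat.log 2 q with hL
  have h1 : q + 1 ≤ 2 ^ (L + 1) := Nat.lt_pow_succ_log_self (by norm_num) q
  have h2 : q + (c + 2) + v * (q + 1) ^ c ≤ K * (q + 1) ^ (c + 1) := by
    have e0 : 1 ≤ (q + 1) ^ c := Nat.one_le_pow _ _ (Nat.succ_pos q)
    have e1 : q + 1 ≤ (q + 1) ^ (c + 1) := Nat.le_self_pow (by omega) _
    have e2 : (q + 1) ^ c ≤ (q + 1) ^ (c + 1) := Nat.pow_le_pow_right (Nat.succ_pos q) (by omega)
    have e3 : 1 ≤ (q + 1) ^ (c + 1) := Nat.one_le_pow _ _ (Nat.succ_pos q)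
    have e4 : (c + 2) * 1 ≤ (c + 2) * (q + 1) ^ (c + 1) := Nat.mul_le_mul_left _ e3
    have e5 : v * (q + 1) ^ c ≤ v * (q + 1) ^ (c + 1) := Nat.mul_le_mul_left _ e2
    calc q + (c + 2) + v * (q + 1) ^ c
        ≤ (q + 1) ^ (c + 1) + (c + 2) * (q + 1) ^ (c + 1) + v * (q + 1) ^ (c + 1) := by omega
      _ = K * (q + 1) ^ (c + 1) := by rw [hK]; ring
  have h3 : K ≤ 2 ^ K := Nat.lt_two_pow_self.le
  have h4 : bnd v c q ≤ 2 ^ (2 + 4 * K + 4 * ((c + 1) * (L + 1))) := by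
    calc bnd v c q = 3 * (q + (c + 2) + v * (q + 1) ^ c) ^ 4 := rfl
      _ ≤ 2 ^ 2 * (2 ^ K * (2 ^ (L + 1)) ^ (c + 1)) ^ 4 := by
        refine Nat.mul_le_mul (by norm_num) (Nat.pow_le_pow_left (h2.trans ?_) 4)
        exact Nat.mul_le_mul h3 (Nat.pow_le_pow_left h1 _)
      _ = 2 ^ (2 + 4 * K + 4 * ((c + 1) * (L + 1))) := by
        rw [mul_pow, ← pow_mul, ← pow_mul, ← pow_mul, ← pow_add, ← pow_add]
        congr 1
        ring
  have h5 : Nat.log 2 (bnd v c q) ≤ 2 + 4 * K + 4 * ((c + 1) * (L + 1)) := by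
    have := Nat.log_mono_right (b := 2) h4
    rwa [Nat.log_pow (by norm_num)] at this
  refine h5.trans ?_
  have e : (2 + 4 * K + 4 * (c + 1)) * (1 + L) = (2 + 4 * K) * (1 + L) + 4 * ((c + 1) * (L + 1)) := by
    ring
  rw [e]
  have e' : 2 + 4 * K ≤ (2 + 4 * K) * (1 + L) := Nat.le_mul_of_pos_right _ (by omega)
  omega

/-- The size bound of the simulating program satisfies the growth condition if the bound for the
number of active objects does. -/
theorem growth_bnd (v c : ℕ) (q : ℕ → ℕ)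
    (h : ∀ C : ℕ, ∀ᶠ n in Filter.atTop, (C * (1 + Nat.log 2 (q n))) ^ 9 ≤ n) (C : ℕ) :
    ∀ᶠ n in Filter.atTop, (C * (1 + Nat.log 2 (bnd v c (q n)))) ^ 9 ≤ n := by
  obtain ⟨D, hD⟩ := log_bnd v c
  filter_upwards [h (C * (1 + D))] with n hn
  refine (Nat.pow_le_pow_left ?_ 9).trans hn
  rw [mul_assoc]
  refine Nat.mul_le_mul_left C ?_
  have := hD (q n)
  calc 1 + Nat.log 2 (bnd v c (q n)) ≤ 1 + D * (1 + Nat.log 2 (q n)) := by omega
    _ ≤ (1 + Nat.log 2 (q n)) + D * (1 + Nat.log 2 (q n)) := by omega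
    _ = (1 + D) * (1 + Nat.log 2 (q n)) := by ring

end Growth

end MP5e5.X
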