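import Pool.Agent.Lib.MP_5e5bb6_lc.X.MainX
import Pool.Agent.Lib.MP_5e5bb6_lc.X.AsmS

/-!
# BGS machines with counting do not decide CSP({0,1}; 1IN3)
-/

open Classical

namespace MP5e5.X

open HF

section Tot

variable {A : Type} [Fintype A] (R : A → A → A → Prop)

/-- The set of the critical objects of the first `i + 1` states of a machine. -/
noncomputable def tot (M : Rule) (i : ℕ) : HF A :=
  mk ((Finset.range (i + 1)).biUnion fun j => (eval R critT fun _ => run (progOf M) R j).elems)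

theorem mem_tot {M : Rule} {i : ℕ} {y : HF A} :
    y ∈ tot R M i ↔ ∃ j ≤ i, y ∈ eval R critT fun _ => run (progOf M) R j := by
  rw [tot, mem_mk, Finset.mem_biUnion]
  constructor
  · rintro ⟨j, hj, h⟩
    exact ⟨j, Nat.lt_succ_iff.mp (Finset.mem_range.mp hj), h⟩
  · rintro ⟨j, hj, h⟩
    exact ⟨j, Finset.mem_range.mpr (Nat.lt_succ_iff.mpr hj), h⟩

theorem active_iff_TC {M : Rule} {j : ℕ} {x : HF A} :
    Active (mrun M R j) x ↔ TC (eval R critT fun _ => run (progOf M) R j) x :=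
  active_iff fun _ => mem_critT R (Enc_run R M j)

theorem active_tot (M : Rule) (i : ℕ) :
    {x | ∃ j ≤ i, Active (mrun M R j) x} = {x | TC (tot R M i) x} := by
  ext x
  simp only [Set.mem_setOf_eq, active_iff_TC]
  constructor
  · rintro ⟨j, hj, h⟩
    obtain ⟨z, hz, h'⟩ := TC_iff.mp h
    exact TC_iff.mpr ⟨z, (mem_tot R).mpr ⟨j, hj, hz⟩, h'⟩
  · intro h
    obtain ⟨z, hz, h'⟩ := TC_iff.mp h
    obtain ⟨j, hj, hz⟩ := (mem_tot R).mp hz
    exact ⟨j, hj, TC_iff.mpr ⟨z, hz, h'⟩⟩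

theorem encard_active (M : Rule) (i : ℕ) :
    {x | ∃ j ≤ i, Active (mrun M R j) x}.encard = tcCard (tot R M i) := by
  rw [active_tot, tcCard, (TC_finite _).cast_ncard_eq]

/-- The codes of the states are small if there are few active objects. -/
theorem tcCard_run_le (M : Rule) {i j : ℕ} (hj : j ≤ i) {c : ℕ}
    (hc : ∀ s ∈ syms M, s.2 ≤ c ∧ Nat.pair s.1 s.2 ≤ c) {q : ℕ} (hq : tcCard (tot R M i) ≤ q) :
    tcCard (run (progOf M) R j) ≤ bnd (syms M).card c q := by
  refine tcCard_le (Enc_run R M j) (fun l => mrun_syms R M j l) hc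
    (Q := (TC_finite (eval R critT fun _ => run (progOf M) R j)).toFinset) ?_ ?_ ?_
  · intro x hx
    rw [Set.Finite.mem_toFinset]
    exact (active_iff_TC R).mp hx
  · intro x hx y hy
    rw [Set.Finite.mem_toFinset] at hx ⊢
    exact TC.step hx hy
  · rw [← Set.ncard_eq_toFinset_card {y | TC (eval R critT fun _ => run (progOf M) R j) y}
      (TC_finite _)]
    refine (Set.ncard_le_ncard ?_ (TC_finite _)).trans hq
    intro x hx
    obtain ⟨z, hz, h'⟩ := TC_iff.mp hx
    exact TC_iff.mpr ⟨z, (mem_tot R).mpr ⟨j, hj, hz⟩, h'⟩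

end Tot

section Tr

variable {p : ℕ} [Fact p.Prime] {E A : Type} [Fintype E] [DecidableEq E] [Fintype A]
  (G : GS p E A)

theorem hact_elems (g : E → ZMod p) (x : HF A) :
    (G.hact g x).elems = x.elems.image (G.hact g) := by
  rcases eq_atom_or_mk x with ⟨a, rfl⟩ | ⟨s, rfl⟩
  · simp
  · rw [GS.hact_mk, elems_mk, elems_mk]

theorem sp_tot (M : Rule) (i : ℕ) : G.sp (tot G.R0 M i) = ∅ := by
  apply G.sp_of_inv
  intro h hM
  rw [tot, GS.hact_mk]
  congr 1
  rw [Finset.biUnion_image]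
  refine Finset.biUnion_congr rfl fun j _ => ?_
  rw [← hact_elems, ← G.eval_hact critT hM]
  congr 2
  funext _
  exact M2_run_inv G (progOf M) hM j

/-- A machine whose states have hereditarily small supports behaves in the same way on `R0` and on
`R1`. -/
theorem GS.maccepts (M : Rule) (t : ℕ → ℕ∞) (q : ℕ → ℕ) {m c : ℕ}
    (hc : ∀ s ∈ syms M, s.2 ≤ c ∧ Nat.pair s.1 s.2 ≤ c)
    (hHS : ∀ j, tcCard (run (progOf M) G.R0 j) ≤ bnd (syms M).card c (q (Fintype.card A)) →
      G.HS m (run (progOf M) G.R0 j))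
    (h1 : 20 * (big (progOf M).step m + 1) < G.W) (h2 : 20 * (big (progOf M).halt m + 1) < G.W)
    (h3 : 20 * (big (progOf M).out m + 1) < G.W) (h4 : 20 * (big critT m + 1) < G.W)
    (h : MAccepts M t q G.R0) : MAccepts M t q G.R1 := by
  set P := progOf M with hP
  obtain ⟨i, hi0, hi1, hi2, hi3, hi4⟩ := h
  rw [encard_active, Nat.cast_le] at hi4
  obtain ⟨g, hg⟩ := G.ne
  have hHS' : ∀ j ≤ i, G.HS m (run P G.R0 j) := fun j hj =>
    hHS j (tcCard_run_le G.R0 M hj hc hi4)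
  have hev : ∀ t, 20 * (big t m + 1) < G.W → ∀ j ≤ i,
      eval G.R1 t (fun _ => G.F (run P G.R0 j) g) = G.F (eval G.R0 t fun _ => run P G.R0 j) g := by
    intro t ht j hj
    have := G.tr t m ht ∅ (by simp) (fun _ => run P G.R0 j) (fun _ => hHS' j hj)
      (fun _ => by rw [M2_sp_run]) g (by rw [M2_sp_eval]; simpa using hg)
    exact this
  have hrun : ∀ j ≤ i, run P G.R1 j = G.F (run P G.R0 j) g := by
    intro j
    induction j with
    | zero =>
      intro _
      have h0 := hev .empty (by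
        have : big Tm.empty m ≤ big P.step m := by
          show m ≤ _
          exact le_big _ _
        omega) 0 (Nat.zero_le _)
      exact h0
    | succ j ih =>
      intro hj
      have hj' : j ≤ i := by omega
      rw [run, ih hj', hev _ h1 j hj']
      rfl
  have hff : ∀ t, 20 * (big t m + 1) < G.W → ∀ j ≤ i,
      (eval G.R1 t (fun _ => run P G.R1 j) = ff ↔ eval G.R0 t (fun _ => run P G.R0 j) = ff) := by
    intro t ht j hj
    rw [hrun j hj]
    exact G.tr_truth (G.tr t) ht (T := ∅) (by simp) (fun _ => hHS' j hj)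
      (fun _ => by rw [M2_sp_run]) hg
  refine ⟨i, hi0, ?_, ?_, ?_, ?_⟩
  · intro j hj
    rw [← eval_halt, hff _ h2 j hj.le, eval_halt]
    exact hi1 j hj
  · rw [Ne, ← eval_halt, hff _ h2 i le_rfl, eval_halt]
    exact hi2
  · rw [Ne, ← eval_out, hff _ h3 i le_rfl, eval_out]
    exact hi3
  · rw [encard_active, Nat.cast_le]
    refine le_trans ?_ hi4
    have hcr : ∀ j ≤ i, eval G.R1 critT (fun _ => run P G.R1 j) =
        G.F (eval G.R0 critT fun _ => run P G.R0 j) g := by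
      intro j hj
      rw [hrun j hj]
      exact hev _ h4 j hj
    have htot : tot G.R1 M i = G.F (tot G.R0 M i) g := by
      apply as_ext
      · intro a; simp [tot]
      · intro a
        exact G.F_isSet (fun b => by simp [tot]) a
      · intro z
        rw [mem_tot, G.mem_F, sp_tot]
        constructor
        · rintro ⟨j, hj, hz⟩
          rw [← hP, hcr j hj, G.mem_F, M2_sp_eval] at hz
          obtain ⟨y, hy, g', hg', h5, rfl⟩ := hz
          exact ⟨y, (mem_tot _).mpr ⟨j, hj, hy⟩, g', hg', h5, rfl⟩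
        · rintro ⟨y, hy, g', hg', h5, rfl⟩
          obtain ⟨j, hj, hy⟩ := (mem_tot _).mp hy
          refine ⟨j, hj, ?_⟩
          rw [← hP, hcr j hj, G.mem_F, M2_sp_eval]
          exact ⟨y, hy, g', hg', h5, rfl⟩
    rw [htot]
    refine G.F_tc (k := big critT m) (by omega) ?_ (by rw [sp_tot]; exact hg)
    rw [tot]
    refine GS.HS.mk _ ?_ ?_
    · have := sp_tot G M i
      rw [tot] at this
      rw [this]
      simp
    · intro y hy
      obtain ⟨j, hj, hy⟩ := Finset.mem_biUnion.mp hy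
      have hj := Nat.lt_succ_iff.mp (Finset.mem_range.mp hj)
      refine G.HS_of_mem (G.eval_HS critT (T := ∅) (m := m) (by simp) (fun _ => hHS' j hj)
        (fun _ => by rw [M2_sp_run])) hy

end Tr

/-- No BGS machine with counting decides `CSP({0,1}; 1IN3)` with subexponentially many active
objects. -/
theorem mainM (M : Rule) (t : ℕ → ℕ∞) (q : ℕ → ℕ)
    (h : ∀ C : ℕ, ∀ᶠ n in Filter.atTop, (C * (1 + Nat.log 2 (q n))) ^ 9 ≤ n) :
    ¬ MDecides M t q := by
  intro hdec
  obtain ⟨c, hc⟩ : ∃ c : ℕ, ∀ s ∈ syms M, s.2 ≤ c ∧ Nat.pair s.1 s.2 ≤ c := by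
    refine ⟨(syms M).sup fun s => max s.2 (Nat.pair s.1 s.2), fun s hs => ?_⟩
    have := Finset.le_sup (f := fun s : ℕ × ℕ => max s.2 (Nat.pair s.1 s.2)) hs
    exact ⟨(le_max_left _ _).trans this, (le_max_right _ _).trans this⟩
  set P := progOf M with hP
  set N : ℕ → ℕ := fun n => bnd (syms M).card c (q n) with hN0
  have hgr := growth_bnd (syms M).card c q h
  obtain ⟨C1, hC1⟩ := big_linear P.step
  obtain ⟨C2, hC2⟩ := big_linear P.halt
  obtain ⟨C3, hC3⟩ := big_linear P.out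
  obtain ⟨C4, hC4⟩ := big_linear critT
  have hcard : ∀ r, (hr : 1 < r) → haveI : NeZero r := ⟨by omega⟩
      Nat.card (lat r).At = Fintype.card (lat r).At := by
    intro r hr
    have : NeZero r := ⟨by omega⟩
    exact Nat.card_eq_fintype_card
  obtain ⟨r, k, hr, hN, hC⟩ := exists_r N (fun r => Nat.card (lat r).At)
    (fun r hr => by
      have : NeZero r := ⟨by omega⟩
      show r ≤ Nat.card (lat r).At
      rw [hcard r hr]
      exact card_At_ge)
    (fun r hr => by
      have : NeZero r := ⟨by omega⟩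
      show Nat.card (lat r).At ≤ _
      rw [hcard r hr]
      exact card_At_le) (20 * (24 * (C1 + C2 + C3 + C4) + 1) + 2) hgr
  have : NeZero r := ⟨by omega⟩
  have hN' : N (Fintype.card (lat r).At) < 2 ^ (k + 1) := by
    rw [← hcard r hr]
    exact hN
  have hb : ∀ c b : ℕ, c ≤ C1 + C2 + C3 + C4 → b ≤ c * (6 + 24 * k ^ 3 + 1) →
      20 * (b + 1) < r := by
    intro c b hc hb
    refine lt_of_le_of_lt ?_ hC
    have h1 : c * (6 + 24 * k ^ 3 + 1) ≤ (C1 + C2 + C3 + C4) * (24 * (k ^ 3 + 1)) :=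
      Nat.mul_le_mul hc (by omega)
    have h2 : (20 * (24 * (C1 + C2 + C3 + C4) + 1) + 2) * (k ^ 3 + 1) =
        20 * ((C1 + C2 + C3 + C4) * (24 * (k ^ 3 + 1)) + (k ^ 3 + 1)) + 2 * (k ^ 3 + 1) := by ring
    rw [h2]
    have h3 : 0 ≤ k ^ 3 := Nat.zero_le _
    omega
  have hk : 2 * k < r := by
    refine lt_of_le_of_lt ?_ hC
    have h1 : k ≤ k ^ 3 := Nat.le_self_pow (by norm_num) k
    calc 2 * k ≤ 2 * (k ^ 3 + 1) := by omega
      _ ≤ (20 * (24 * (C1 + C2 + C3 + C4) + 1) + 2) * (k ^ 3 + 1) :=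
        Nat.mul_le_mul_right _ (by omega)
  have hW : 2 * k < (latGeo r hr).W := hk
  have hacc : MAccepts M t q (latGeo r hr).gs.R1 := by
    refine GS.maccepts (latGeo r hr).gs M t q (m := 6 + 24 * k ^ 3) hc ?_
      (hb C1 _ (by omega) (hC1 _)) (hb C2 _ (by omega) (hC2 _)) (hb C3 _ (by omega) (hC3 _))
      (hb C4 _ (by omega) (hC4 _)) ?_
    · intro j hj
      exact HS_of_small (latGeo r hr) (fun π hπ => smul_run hπ P j) (lt_of_le_of_lt hj hN') hW
    · exact (hdec (lat r).At ((lat r).Rel 0)).mpr (sat_zero (lat r))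
  have hsat : Sat ((lat r).Rel (latGeo r hr).tau) :=
    (hdec (lat r).At ((lat r).Rel (latGeo r hr).tau)).mp hacc
  obtain ⟨g, hg⟩ := sol_of_sat (lat r) hsat
  have h0 := lat_closed g
  have h1 : ∑ w, (lat r).d2 g w = ∑ w : Sit r, (if w = 0 then (1 : ZMod 2) else 0) :=
    Finset.sum_congr rfl fun w _ => hg w
  rw [h1, Finset.sum_ite_eq' Finset.univ (0 : Sit r)] at h0
  simp at h0

/-- Exponentials grow faster than the ninth power. -/
theorem pow_growth (C : ℕ) : ∃ L₀ : ℕ, ∀ L, L₀ ≤ L → (C * (1 + L)) ^ 9 + 1 ≤ 2 ^ L := by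
  have h := tendsto_pow_const_div_const_pow_of_one_lt 9 (one_lt_two : (1 : ℝ) < 2)
  have h2 : (0 : ℝ) < 1 / (2 * ((C : ℝ) ^ 9 + 1)) := by positivity
  obtain ⟨L₀, hL⟩ := Filter.eventually_atTop.mp (h.eventually (gt_mem_nhds h2))
  refine ⟨L₀, fun L hL0 => ?_⟩
  have h3 := hL (L + 1) (by omega)
  rw [div_lt_div_iff₀ (by positivity) (by positivity), one_mul, pow_succ (2 : ℝ) L] at h3
  have h4 : ((C : ℝ) ^ 9 + 1) * (1 + (L : ℝ)) ^ 9 < 2 ^ L := by
    push_cast at h3
    rw [add_comm (L : ℝ) 1] at h3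
    nlinarith
  have h5 : ((C * (1 + L)) ^ 9 + 1 : ℕ) ≤ (C ^ 9 + 1) * (1 + L) ^ 9 := by
    have : 1 ≤ (1 + L) ^ 9 := Nat.one_le_pow _ _ (by omega)
    rw [mul_pow]
    linarith
  have h6 : (((C ^ 9 + 1) * (1 + L) ^ 9 : ℕ) : ℝ) < ((2 ^ L : ℕ) : ℝ) := by
    push_cast
    exact h4
  exact h5.trans (by exact_mod_cast h6.le)

/-- Polynomials satisfy the growth condition. -/
theorem poly_growth (q : Polynomial ℕ) (C : ℕ) :
    ∀ᶠ n in Filter.atTop, (C * (1 + Nat.log 2 (q.eval n))) ^ 9 ≤ n := by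
  set d := q.natDegree with hd
  set K := ∑ i ∈ Finset.range (d + 1), q.coeff i with hK
  have h1 : ∀ n, q.eval n ≤ K * (n + 1) ^ d := by
    intro n
    rw [Polynomial.eval_eq_sum_range, hK, Finset.sum_mul]
    refine Finset.sum_le_sum fun i hi => Nat.mul_le_mul_left _ ?_
    have hi : i ≤ d := Nat.lt_succ_iff.mp (Finset.mem_range.mp hi)
    exact (Nat.pow_le_pow_left (Nat.le_succ n) i).trans (Nat.pow_le_pow_right (Nat.succ_pos n) hi)
  obtain ⟨L₀, hL₀⟩ := pow_growth (C * (1 + K + d))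
  refine Filter.eventually_atTop.mpr ⟨2 ^ L₀, fun n hn => ?_⟩
  set L := Nat.log 2 (n + 1) with hL
  have h2 : n + 1 < 2 ^ (L + 1) := Nat.lt_pow_succ_log_self (by norm_num) _
  have h3 : 2 ^ L ≤ n + 1 := Nat.pow_log_le_self 2 (Nat.succ_ne_zero n)
  have h4 : L₀ ≤ L := by
    have : 2 ^ L₀ < 2 ^ (L + 1) := by omega
    have := (Nat.pow_lt_pow_iff_right (by norm_num)).mp this
    omega
  have h5 : q.eval n ≤ 2 ^ (K + d * (L + 1)) := by
    calc q.eval n ≤ K * (n + 1) ^ d := h1 n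
      _ ≤ 2 ^ K * (2 ^ (L + 1)) ^ d :=
        Nat.mul_le_mul Nat.lt_two_pow_self.le (Nat.pow_le_pow_left h2.le d)
      _ = 2 ^ (K + d * (L + 1)) := by rw [← pow_mul, ← pow_add, mul_comm d]
  have h6 : Nat.log 2 (q.eval n) ≤ K + d * (L + 1) := by
    have := Nat.log_mono_right (b := 2) h5
    rwa [Nat.log_pow (by norm_num)] at this
  have h7 := hL₀ L h4
  have h8 : C * (1 + Nat.log 2 (q.eval n)) ≤ C * (1 + K + d) * (1 + L) := by
    rw [mul_assoc]
    refine Nat.mul_le_mul_left C ?_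
    have e : (1 + K + d) * (1 + L) = 1 + K + (1 + K) * L + d * (L + 1) := by ring
    rw [e]
    have := Nat.zero_le ((1 + K) * L)
    omega
  have h9 := Nat.pow_le_pow_left h8 9
  omega

/-- No polynomially bounded BGS machine with counting decides `CSP({0,1}; 1IN3)`. -/
theorem mainM_poly (M : Rule) (t : ℕ → ℕ∞) (q : Polynomial ℕ) : ¬ MDecides M t q.eval :=
  mainM M t q.eval (poly_growth q)

end MP5e5.X
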