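import Pool.Agent.Lib.MP_5e5bb6_lc.X.AsmC

/-!
# Compiling rules of BGS machines; the run of a machine as the run of a program
-/

open Classical

namespace MP5e5.X

open HF

section Rules

variable {A : Type} [Fintype A] (R : A → A → A → Prop)

theorem ne_mem {a b : Tm} {σ : ℕ → HF A} :
    eval R (.mem a b) σ ≠ ff ↔ eval R a σ ∈ eval R b σ := by rw [eval, bv_ne_ff]

theorem ne_conj {a b : Tm} {σ : ℕ → HF A} :
    eval R (.conj a b) σ ≠ ff ↔ eval R a σ ≠ ff ∧ eval R b σ ≠ ff := by rw [eval, bv_ne_ff]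

theorem ne_neg {a : Tm} {σ : ℕ → HF A} :
    eval R (.neg a) σ ≠ ff ↔ eval R a σ = ff := by rw [eval, bv_ne_ff]

theorem eq_eq {a b : Tm} {σ : ℕ → HF A} :
    eval R (.eq a b) σ = ff ↔ ¬ eval R a σ = eval R b σ := by rw [eval, bv_eq_ff]

/-- Compilation of rules: the set of the codes of the updates. -/
def comR : Rule → (ℕ → ℕ) → ℕ → Tm
  | .skip, _, _ => .empty
  | .update i k a t, ρ, e =>
      .pair (kpT (comT t ρ e) (loccT i k fun j => comT (a j) ρ e))
        (kpT (comT t ρ e) (loccT i k fun j => comT (a j) ρ e))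
  | .ite φ r₁ r₂, ρ, e => .union (.pair
      (.comp (.var 0) (comR r₁ ρ e) (comT φ (fun i => ρ i + 1) (e + 1)))
      (.comp (.var 0) (comR r₂ ρ e) (.neg (comT φ (fun i => ρ i + 1) (e + 1)))))
  | .par r₁ r₂, ρ, e => .union (.pair (comR r₁ ρ e) (comR r₂ ρ e))
  | .all r ru, ρ, e => .union (.comp (comR ru (up ρ) (e + 1)) (comT r ρ e) ttT)

theorem mem_eval_if {a b φ : Tm} {σ : ℕ → HF A} {y : HF A} {P : Prop} {c : HF A → Prop}
    {d : HF A → Prop} (ha : ∀ y, y ∈ eval R a σ ↔ c y) (hb : ∀ y, y ∈ eval R b σ ↔ d y)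
    (hφ : ∀ y, eval R φ (cons y σ) ≠ ff ↔ P) :
    y ∈ eval R (.union (.pair (.comp (.var 0) a φ) (.comp (.var 0) b (.neg φ)))) σ ↔
      (P ∧ c y) ∨ (¬ P ∧ d y) := by
  rw [mem_eval_union]
  constructor
  · rintro ⟨z, hz, hy⟩
    rcases (mem_eval_pair R).mp hz with rfl | rfl
    · obtain ⟨x, hx, hx', h3⟩ := (mem_eval_comp R).mp hy
      have h3 : y = x := h3
      subst h3
      exact Or.inl ⟨(hφ y).mp hx', (ha y).mp hx⟩
    · obtain ⟨x, hx, hx', h3⟩ := (mem_eval_comp R).mp hy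
      have h3 : y = x := h3
      subst h3
      rw [eval, bv_ne_ff] at hx'
      exact Or.inr ⟨fun h => (hφ y).mpr h hx', (hb y).mp hx⟩
  · rintro (⟨hP, hy⟩ | ⟨hP, hy⟩)
    · exact ⟨_, (mem_eval_pair R).mpr (Or.inl rfl),
        (mem_eval_comp R).mpr ⟨y, (ha y).mpr hy, (hφ y).mpr hP, rfl⟩⟩
    · refine ⟨_, (mem_eval_pair R).mpr (Or.inr rfl),
        (mem_eval_comp R).mpr ⟨y, (hb y).mpr hy, ?_, rfl⟩⟩
      rw [eval, bv_ne_ff]
      by_contra h
      exact hP ((hφ y).mp h)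

theorem comR_eval {X : HF A} {S : MState A} (hX : Enc X S) (ru : Rule) :
    ∀ (ρ : ℕ → ℕ) (e : ℕ) (σ τ : ℕ → HF A), (∀ i, σ (ρ i) = τ i) → σ e = X → ∀ y,
      (y ∈ eval R (comR ru ρ e) σ ↔ ∃ u ∈ updates R S ru τ, y = kp u.2 (locc u.1)) := by
  induction ru with
  | skip =>
    intro ρ e σ τ _ _ y
    simp [comR, eval, ff, updates]
  | update i k a t =>
    intro ρ e σ τ h he y
    have e1 : eval R (comT t ρ e) σ = meval R S t τ := comT_eval R hX t _ _ _ _ h he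
    have e2 : eval R (loccT i k fun j => comT (a j) ρ e) σ =
        locc ⟨i, k, fun j => meval R S (a j) τ⟩ := by
      rw [eval_loccT]
      congr 3
      funext j
      exact comT_eval R hX (a j) _ _ _ _ h he
    rw [comR, mem_eval_pair, or_self, eval_kpT, e1, e2]
    simp [updates]
  | ite φ r₁ r₂ ih₁ ih₂ =>
    intro ρ e σ τ h he y
    have hφ : ∀ y, eval R (comT φ (fun i => ρ i + 1) (e + 1)) (cons y σ) ≠ ff ↔
        meval R S φ τ ≠ ff := by
      intro y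
      rw [comT_eval R hX φ (fun i => ρ i + 1) (e + 1) (cons y σ) τ h he]
    rw [comR, mem_eval_if R (ih₁ ρ e σ τ h he) (ih₂ ρ e σ τ h he) hφ]
    simp only [updates, Set.mem_setOf_eq]
    constructor
    · rintro (⟨h1, u, hu, rfl⟩ | ⟨h1, u, hu, rfl⟩)
      · exact ⟨u, Or.inl ⟨h1, hu⟩, rfl⟩
      · exact ⟨u, Or.inr ⟨not_not.mp h1, hu⟩, rfl⟩
    · rintro ⟨u, (⟨h1, hu⟩ | ⟨h1, hu⟩), rfl⟩
      · exact Or.inl ⟨h1, u, hu, rfl⟩
      · exact Or.inr ⟨not_not.mpr h1, u, hu, rfl⟩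
  | par r₁ r₂ ih₁ ih₂ =>
    intro ρ e σ τ h he y
    rw [comR, mem_eval_union]
    constructor
    · rintro ⟨z, hz, hy⟩
      rcases (mem_eval_pair R).mp hz with rfl | rfl
      · obtain ⟨u, hu, rfl⟩ := (ih₁ ρ e σ τ h he y).mp hy
        exact ⟨u, Or.inl hu, rfl⟩
      · obtain ⟨u, hu, rfl⟩ := (ih₂ ρ e σ τ h he y).mp hy
        exact ⟨u, Or.inr hu, rfl⟩
    · rintro ⟨u, hu | hu, rfl⟩
      · exact ⟨_, (mem_eval_pair R).mpr (Or.inl rfl), (ih₁ ρ e σ τ h he _).mpr ⟨u, hu, rfl⟩⟩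
      · exact ⟨_, (mem_eval_pair R).mpr (Or.inr rfl), (ih₂ ρ e σ τ h he _).mpr ⟨u, hu, rfl⟩⟩
  | all r ru ih =>
    intro ρ e σ τ h he y
    have hup : ∀ y i, cons y σ (up ρ i) = cons y τ i := by
      intro y i
      cases i with
      | zero => rfl
      | succ i => exact h i
    have er : eval R (comT r ρ e) σ = meval R S r τ := comT_eval R hX r _ _ _ _ h he
    rw [comR, mem_eval_union]
    constructor
    · rintro ⟨z, hz, hy⟩
      obtain ⟨x, hx, -, rfl⟩ := (mem_eval_comp R).mp hz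
      obtain ⟨u, hu, rfl⟩ := (ih (up ρ) (e + 1) (cons x σ) (cons x τ) (hup x) he y).mp hy
      exact ⟨u, ⟨x, by rw [← er]; exact hx, hu⟩, rfl⟩
    · rintro ⟨u, ⟨x, hx, hu⟩, rfl⟩
      refine ⟨_, (mem_eval_comp R).mpr ⟨x, by rw [er]; exact hx, eval_ttT R _, rfl⟩, ?_⟩
      exact (ih (up ρ) (e + 1) (cons x σ) (cons x τ) (hup x) he _).mpr ⟨u, hu, rfl⟩

/-- The union of the union of the variable `i`. -/
def uu (i : ℕ) : Tm := .union (.union (.var i))

/-- Consistency of the updates in the variable `0`. -/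
def consT : Tm := .neg (exT (uu 0) (exT (uu 1) (exT (uu 2)
  (.conj (.mem (kpT (.var 1) (.var 2)) (.var 3)) (.conj (.mem (kpT (.var 0) (.var 2)) (.var 3))
    (.neg (.eq (.var 1) (.var 0))))))))

theorem mem_uu' {i : ℕ} {σ : ℕ → HF A} {y : HF A} :
    y ∈ eval R (uu i) σ ↔ ∃ c ∈ σ i, ∃ z ∈ c, y ∈ z := mem_uu R rfl

theorem eval_consT {U : HF A} {up : Set (Loc A × HF A)}
    (hU : ∀ y, y ∈ U ↔ ∃ u ∈ up, y = kp u.2 (locc u.1)) (σ : ℕ → HF A) :
    eval R consT (cons U σ) ≠ ff ↔ Consistent up := by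
  have hU' : ∀ l v, kp v (locc l) ∈ U ↔ (l, v) ∈ up := by
    intro l v
    rw [hU]
    constructor
    · rintro ⟨u, hu, h⟩
      obtain ⟨h1, h2⟩ := kp_inj h
      rw [h1, locc_inj h2]
      exact hu
    · intro h
      exact ⟨_, h, rfl⟩
  rw [consT, eval, bv_ne_ff]
  constructor
  · intro h l v v' hv hv'
    by_contra hne
    have hv1 := (hU' l v).mpr hv
    have hv1' := (hU' l v').mpr hv'
    have : eval R (exT (uu 0) (exT (uu 1) (exT (uu 2)
      (.conj (.mem (kpT (.var 1) (.var 2)) (.var 3)) (.conj (.mem (kpT (.var 0) (.var 2)) (.var 3))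
      (.neg (.eq (.var 1) (.var 0)))))))) (cons U σ) ≠ ff := by
      rw [exT_ne]
      refine ⟨locc l, (mem_uu' R).mpr (uu_right hv1), ?_⟩
      rw [exT_ne]
      refine ⟨v, (mem_uu' R).mpr (uu_left hv1), ?_⟩
      rw [exT_ne]
      refine ⟨v', (mem_uu' R).mpr (uu_left hv1'), ?_⟩
      exact (ne_conj R).mpr ⟨(ne_mem R).mpr hv1, (ne_conj R).mpr ⟨(ne_mem R).mpr hv1',
        (ne_neg R).mpr ((eq_eq R).mpr hne)⟩⟩
    exact this h
  · intro h
    by_contra hne
    obtain ⟨l', hl', hne⟩ := (exT_ne R).mp hne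
    obtain ⟨v, hv, hne⟩ := (exT_ne R).mp hne
    obtain ⟨v', hv', hne⟩ := (exT_ne R).mp hne
    obtain ⟨h1, h2⟩ := (ne_conj R).mp hne
    obtain ⟨h2, h3⟩ := (ne_conj R).mp h2
    have h1 : kp v l' ∈ U := (ne_mem R).mp h1
    have h2 : kp v' l' ∈ U := (ne_mem R).mp h2
    have h6 : ¬ v = v' := (eq_eq R).mp ((ne_neg R).mp h3)
    obtain ⟨u, hu, h4⟩ := (hU _).mp h1
    obtain ⟨-, h5⟩ := kp_inj h4
    subst h5
    exact h6 (h u.1 v v' ((hU' _ _).mp h1) ((hU' _ _).mp h2))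

/-- The old values which are not overwritten. -/
def keepT : Tm := .union (.comp (.comp (kpT (.var 1) (.var 0)) (uu 4)
  (.conj (.mem (kpT (.var 1) (.var 0)) (.var 5))
    (.neg (exT (uu 3) (.mem (kpT (.var 0) (.var 1)) (.var 4)))))) (uu 3) ttT)

/-- The new values. -/
def addT : Tm := .union (.comp (.comp (kpT (.var 1) (.var 0)) (uu 2)
  (.mem (kpT (.var 1) (.var 0)) (.var 3))) (uu 1) (.var 0))

theorem mem_keepT {c U f X : HF A} {σ : ℕ → HF A} (hσ : ∀ i, σ i = X) {y : HF A} :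
    y ∈ eval R keepT (cons c (cons U (cons f σ))) ↔
      ∃ v l, kp v l ∈ X ∧ (¬ ∃ v', kp v' l ∈ U) ∧ y = kp v l := by
  rw [keepT, mem_eval_union]
  constructor
  · rintro ⟨z, hz, hy⟩
    obtain ⟨v, hv, -, rfl⟩ := (mem_eval_comp R).mp hz
    obtain ⟨l, hl, h1, h2⟩ := (mem_eval_comp R).mp hy
    obtain ⟨h3, h4⟩ := (ne_conj R).mp h1
    have h3 : kp v l ∈ σ 0 := (ne_mem R).mp h3
    have h4 := (ne_neg R).mp h4
    rw [hσ] at h3
    refine ⟨v, l, h3, ?_, h2⟩
    rintro ⟨v', hv'⟩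
    have : eval R (exT (uu 3) (.mem (kpT (.var 0) (.var 1)) (.var 4)))
        (cons l (cons v (cons c (cons U (cons f σ))))) ≠ ff := by
      rw [exT_ne]
      exact ⟨v', (mem_uu' R).mpr (uu_left hv'), (ne_mem R).mpr hv'⟩
    exact this h4
  · rintro ⟨v, l, h1, h2, rfl⟩
    have h1' : kp v l ∈ σ 0 := by rw [hσ]; exact h1
    refine ⟨_, (mem_eval_comp R).mpr ⟨v, (mem_uu' R).mpr (uu_left h1'), eval_ttT R _, rfl⟩, ?_⟩
    refine (mem_eval_comp R).mpr ⟨l, (mem_uu' R).mpr (uu_right h1'), ?_, rfl⟩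
    refine (ne_conj R).mpr ⟨(ne_mem R).mpr h1', (ne_neg R).mpr ?_⟩
    by_contra h3
    obtain ⟨v', -, h4⟩ := (exT_ne R).mp h3
    exact h2 ⟨v', (ne_mem R).mp h4⟩

theorem mem_addT {c U f : HF A} {σ : ℕ → HF A} {y : HF A} :
    y ∈ eval R addT (cons c (cons U (cons f σ))) ↔
      ∃ v l, kp v l ∈ U ∧ v ≠ ff ∧ y = kp v l := by
  rw [addT, mem_eval_union]
  constructor
  · rintro ⟨z, hz, hy⟩
    obtain ⟨v, hv, hv', rfl⟩ := (mem_eval_comp R).mp hz
    obtain ⟨l, hl, h1, h2⟩ := (mem_eval_comp R).mp hy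
    rw [eval, bv_ne_ff] at h1
    exact ⟨v, l, h1, hv', h2⟩
  · rintro ⟨v, l, h1, h2, rfl⟩
    refine ⟨_, (mem_eval_comp R).mpr ⟨v, (mem_uu' R).mpr (uu_left h1), h2, rfl⟩, ?_⟩
    refine (mem_eval_comp R).mpr ⟨l, (mem_uu' R).mpr (uu_right h1), ?_, rfl⟩
    rw [eval, bv_ne_ff]
    exact h1

/-- The step term of a machine. -/
def stepT (M : Rule) : Tm := letT .empty (letT (comR M (fun _ => 0) 1) (letT consT
  (.union (.pair (.comp (.var 0) (.union (.pair keepT addT)) (.var 1))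
    (.comp (.var 0) (.var 3) (.neg (.var 1)))))))

theorem Enc_step {X : HF A} {S : MState A} (hX : Enc X S) (M : Rule) :
    Enc (eval R (stepT M) fun _ => X) (fire (updates R S M fun _ => ff) S) := by
  set σ0 : ℕ → HF A := fun _ => X with hσ0
  set upd : Set (Loc A × HF A) := updates R S M fun _ => ff with hupd
  rw [stepT, eval_letT, eval_letT, eval_letT]
  set U : HF A := eval R (comR M (fun _ => 0) 1) (cons (eval R .empty σ0) σ0) with hUdef
  have hU : ∀ y, y ∈ U ↔ ∃ u ∈ upd, y = kp u.2 (locc u.1) :=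
    comR_eval R hX M (fun _ => 0) 1 (cons (eval R .empty σ0) σ0) (fun _ => ff)
      (fun _ => rfl) rfl
  have hU' : ∀ l v, kp v (locc l) ∈ U ↔ (l, v) ∈ upd := by
    intro l v
    rw [hU]
    constructor
    · rintro ⟨u, hu, h⟩
      obtain ⟨h1, h2⟩ := kp_inj h
      rw [h1, locc_inj h2]
      exact hu
    · intro h
      exact ⟨_, h, rfl⟩
  have hc := eval_consT R hU (cons (eval R .empty σ0) σ0)
  set c : HF A := eval R consT (cons U (cons (eval R .empty σ0) σ0)) with hcdef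
  set σ2 : ℕ → HF A := cons c (cons U (cons (eval R .empty σ0) σ0)) with hσ2
  refine ⟨fun a => by simp [eval], fun y => ?_⟩
  rw [mem_eval_if R (P := Consistent upd)
    (c := fun y => (∃ v l, kp v l ∈ X ∧ (¬ ∃ v', kp v' l ∈ U) ∧ y = kp v l) ∨
      (∃ v l, kp v l ∈ U ∧ v ≠ ff ∧ y = kp v l)) (d := fun y => y ∈ X)]
  · by_cases hcons : Consistent upd
    · have hf1 : ∀ {l v}, (l, v) ∈ upd → fire upd S l = v := by
        intro l v h
        have h' : Consistent upd ∧ ∃ v, (l, v) ∈ upd := ⟨hcons, v, h⟩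
        rw [fire, dif_pos h']
        exact hcons l _ _ h'.2.choose_spec h
      have hf2 : ∀ {l}, (¬ ∃ v, (l, v) ∈ upd) → fire upd S l = S l := by
        intro l h
        rw [fire, dif_neg fun h' => h h'.2]
      constructor
      · rintro (⟨-, ⟨v, l', h1, h2, rfl⟩ | ⟨v, l', h1, h2, rfl⟩⟩ | ⟨h, -⟩)
        · obtain ⟨l, h3, h4⟩ := (hX.2 _).mp h1
          obtain ⟨rfl, rfl⟩ := kp_inj h4
          have h5 : ¬ ∃ v, (l, v) ∈ upd := by
            rintro ⟨v', hv'⟩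
            exact h2 ⟨v', (hU' l v').mpr hv'⟩
          exact ⟨l, by rw [hf2 h5]; exact h3, by rw [hf2 h5]⟩
        · obtain ⟨u, hu, h4⟩ := (hU _).mp h1
          obtain ⟨rfl, rfl⟩ := kp_inj h4
          have h5 := hf1 (l := u.1) (v := u.2) hu
          exact ⟨u.1, by rw [h5]; exact h2, by rw [h5]⟩
        · exact absurd hcons h
      · rintro ⟨l, h1, rfl⟩
        refine Or.inl ⟨hcons, ?_⟩
        by_cases h2 : ∃ v, (l, v) ∈ upd
        · obtain ⟨v, hv⟩ := h2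
          rw [hf1 hv] at h1 ⊢
          exact Or.inr ⟨v, locc l, (hU' l v).mpr hv, h1, rfl⟩
        · rw [hf2 h2] at h1 ⊢
          refine Or.inl ⟨S l, locc l, hX.mem_iff.mpr ⟨rfl, h1⟩, ?_, rfl⟩
          rintro ⟨v', hv'⟩
          exact h2 ⟨v', (hU' l v').mp hv'⟩
    · have hf : ∀ l, fire upd S l = S l := by
        intro l
        rw [fire, dif_neg fun h' => hcons h'.1]
      constructor
      · rintro (⟨h, -⟩ | ⟨-, h⟩)
        · exact absurd h hcons
        · obtain ⟨l, h1, h2⟩ := (hX.2 y).mp h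
          exact ⟨l, by rw [hf]; exact h1, by rw [hf]; exact h2⟩
      · rintro ⟨l, h1, h2⟩
        rw [hf] at h1 h2
        exact Or.inr ⟨hcons, (hX.2 y).mpr ⟨l, h1, h2⟩⟩
  · intro y
    rw [mem_eval_union]
    constructor
    · rintro ⟨z, hz, hy⟩
      rcases (mem_eval_pair R).mp hz with rfl | rfl
      · exact Or.inl ((mem_keepT R (X := X) (fun _ => rfl)).mp hy)
      · exact Or.inr ((mem_addT R).mp hy)
    · rintro (h | h)
      · exact ⟨_, (mem_eval_pair R).mpr (Or.inl rfl), (mem_keepT R (X := X) (fun _ => rfl)).mpr h⟩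
      · exact ⟨_, (mem_eval_pair R).mpr (Or.inr rfl), (mem_addT R).mpr h⟩
  · intro y
    exact Iff.rfl
  · intro y
    exact hc

/-- The program which simulates a machine. -/
def progOf (M : Rule) : Program where
  step := stepT M
  halt := comT (.dyn 0 0 Fin.elim0) (fun _ => 0) 0
  out := comT (.dyn 1 0 Fin.elim0) (fun _ => 0) 0

theorem Enc_run (M : Rule) (j : ℕ) : Enc (run (progOf M) R j) (mrun M R j) := by
  induction j with
  | zero =>
    refine ⟨fun a => by simp [run, ff], fun y => ?_⟩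
    simp [run, ff, mrun]
  | succ j ih => exact Enc_step R ih M

theorem eval_halt (M : Rule) (j : ℕ) :
    eval R (progOf M).halt (fun _ => run (progOf M) R j) = haltVal (mrun M R j) := by
  rw [progOf, comT_eval R (Enc_run R M j) (.dyn 0 0 Fin.elim0) (fun _ => 0) 0 _
    (fun _ => run (progOf M) R j) (fun _ => rfl) rfl, meval, haltVal]
  congr 3
  funext j
  exact j.elim0

theorem eval_out (M : Rule) (j : ℕ) :
    eval R (progOf M).out (fun _ => run (progOf M) R j) = outVal (mrun M R j) := by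
  rw [progOf, comT_eval R (Enc_run R M j) (.dyn 1 0 Fin.elim0) (fun _ => 0) 0 _
    (fun _ => run (progOf M) R j) (fun _ => rfl) rfl, meval, outVal]
  congr 3
  funext j
  exact j.elim0

end Rules

end MP5e5.X
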