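import Pool.Agent.Lib.MP_5e5bb6_lc.X.Tr2

/-!
# Automorphisms of a structure act on objects, terms and runs
-/

open Classical

namespace MP5e5.X

open HF

variable {A : Type}

/-- Permutations of the atoms act on the objects. -/
noncomputable instance : MulAction (Equiv.Perm A) (HF A) where
  smul π x := HF.map π x
  one_smul x := by
    show HF.map (1 : Equiv.Perm A) x = x
    induction x using HF.ind with
    | h1 a => simp
    | h2 s ih =>
      rw [map_mk]
      congr 1
      ext z
      simp only [Finset.mem_image]
      constructor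
      · rintro ⟨y, hy, rfl⟩
        rwa [ih y hy]
      · intro hz
        exact ⟨z, hz, ih z hz⟩
  mul_smul π π' x := by
    show HF.map (π * π' : Equiv.Perm A) x = HF.map π (HF.map π' x)
    induction x using HF.ind with
    | h1 a => simp
    | h2 s ih =>
      rw [map_mk, map_mk, map_mk]
      congr 1
      ext z
      simp only [Finset.mem_image]
      constructor
      · rintro ⟨y, hy, rfl⟩
        exact ⟨_, ⟨y, hy, rfl⟩, (ih y hy).symm⟩
      · rintro ⟨_, ⟨y, hy, rfl⟩, rfl⟩
        exact ⟨y, hy, ih y hy⟩

theorem smul_def (π : Equiv.Perm A) (x : HF A) : π • x = HF.map π x := rfl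

theorem smul_atom (π : Equiv.Perm A) (a : A) : π • (atom a : HF A) = atom (π a) := by
  rw [smul_def, map_atom]

theorem smul_mk (π : Equiv.Perm A) (s : Finset (HF A)) :
    π • mk s = mk (s.image fun y => π • y) := by
  rw [smul_def, map_mk]
  rfl

theorem smul_elems (π : Equiv.Perm A) (x : HF A) :
    (π • x).elems = x.elems.image fun y => π • y := by
  rcases eq_atom_or_mk x with ⟨a, rfl⟩ | ⟨s, rfl⟩
  · rw [smul_atom]
    simp
  · rw [smul_mk, elems_mk, elems_mk]

theorem smul_mem {π : Equiv.Perm A} {x y : HF A} (h : y ∈ x) : π • y ∈ π • x := by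
  rw [mem_def, smul_elems]
  exact Finset.mem_image_of_mem _ (mem_def.mp h)

theorem smul_mem_iff {π : Equiv.Perm A} {x y : HF A} : π • y ∈ π • x ↔ y ∈ x := by
  constructor
  · intro h
    have h1 := smul_mem (π := π⁻¹) h
    rwa [inv_smul_smul, inv_smul_smul] at h1
  · exact smul_mem

theorem smul_TC {π : Equiv.Perm A} {x y : HF A} (h : TC x y) : TC (π • x) (π • y) := by
  induction h with
  | base h => exact TC.base (smul_mem h)
  | step _ h2 ih => exact TC.step ih (smul_mem h2)

theorem smul_inj (π : Equiv.Perm A) : Function.Injective fun x : HF A => π • x :=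
  MulAction.injective π

theorem smul_ff (π : Equiv.Perm A) : π • (ff : HF A) = ff := by
  rw [ff, smul_mk]
  simp

theorem smul_tt (π : Equiv.Perm A) : π • (tt : HF A) = tt := by
  rw [tt, smul_mk, Finset.image_singleton, smul_ff]

theorem smul_bv (π : Equiv.Perm A) (P : Prop) : π • (bv P : HF A) = bv P := by
  unfold bv
  split_ifs
  · exact smul_tt π
  · exact smul_ff π

theorem smul_ord (π : Equiv.Perm A) : ∀ n, π • (ord n : HF A) = ord n
  | 0 => by
      rw [ord, smul_mk]
      simp
  | n + 1 => by
      rw [ord, smul_mk, Finset.image_insert, smul_ord π n, ← smul_elems, smul_ord π n]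

theorem smul_eq_ff {π : Equiv.Perm A} {x : HF A} : π • x = ff ↔ x = ff := by
  conv_lhs => rw [← smul_ff π]
  exact (smul_inj π).eq_iff

theorem smul_cons (π : Equiv.Perm A) (y : HF A) (σ : ℕ → HF A) :
    (fun i => π • cons y σ i) = cons (π • y) (fun i => π • σ i) := by
  funext i
  cases i <;> rfl

/-- An automorphism of `(A, R)`. -/
def IsAut (R : A → A → A → Prop) (π : Equiv.Perm A) : Prop :=
  ∀ a b c, R (π a) (π b) (π c) ↔ R a b c

theorem eval_smul [Fintype A] {R : A → A → A → Prop} {π : Equiv.Perm A} (h : IsAut R π) (t : Tm) :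
    ∀ σ : ℕ → HF A, eval R t (fun i => π • σ i) = π • eval R t σ := by
  induction t with
  | var i => intro σ; rfl
  | empty => intro σ; exact (smul_ff π).symm
  | atoms =>
      intro σ
      simp only [eval]
      rw [smul_mk]
      congr 1
      ext z
      simp only [Finset.mem_image, Finset.mem_univ, true_and]
      constructor
      · rintro ⟨a, rfl⟩
        refine ⟨atom (π⁻¹ a), ⟨_, rfl⟩, ?_⟩
        rw [smul_atom]
        simp
      · rintro ⟨_, ⟨a, rfl⟩, rfl⟩
        exact ⟨π a, (smul_atom π a).symm⟩
  | pair a b iha ihb =>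
      intro σ
      simp only [eval]
      rw [iha, ihb, smul_mk, Finset.image_insert, Finset.image_singleton]
  | union a ih =>
      intro σ
      simp only [eval]
      rw [ih, smul_mk, smul_elems]
      congr 1
      ext z
      simp only [Finset.mem_biUnion, Finset.mem_image]
      constructor
      · rintro ⟨_, ⟨y, hy, rfl⟩, hz⟩
        rw [smul_elems, Finset.mem_image] at hz
        obtain ⟨w, hw, rfl⟩ := hz
        exact ⟨w, ⟨y, hy, hw⟩, rfl⟩
      · rintro ⟨w, ⟨y, hy, hw⟩, rfl⟩
        refine ⟨_, ⟨y, hy, rfl⟩, ?_⟩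
        rw [smul_elems]
        exact Finset.mem_image_of_mem _ hw
  | unique a ih =>
      intro σ
      simp only [eval]
      rw [ih]
      by_cases hx : ∃ y, (eval R a σ).elems = {y}
      · have hx' : ∃ y, (π • (eval R a σ)).elems = {y} := by
          obtain ⟨y, hy⟩ := hx
          exact ⟨π • y, by rw [smul_elems, hy, Finset.image_singleton]⟩
        rw [dif_pos hx, dif_pos hx']
        have h1 := hx.choose_spec
        have h2 := hx'.choose_spec
        have h3 : (π • (eval R a σ)).elems = {π • hx.choose} := by
          rw [smul_elems]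
          conv_lhs => rw [h1]
          rw [Finset.image_singleton]
        exact Finset.singleton_injective (h2.symm.trans h3)
      · have hx' : ¬ ∃ y, (π • (eval R a σ)).elems = {y} := by
          rintro ⟨y, hy⟩
          apply hx
          refine ⟨π⁻¹ • y, ?_⟩
          have h1 : (π⁻¹ • π • (eval R a σ)).elems = {π⁻¹ • y} := by
            rw [smul_elems, hy, Finset.image_singleton]
          rwa [inv_smul_smul] at h1
        rw [dif_neg hx, dif_neg hx', smul_ff]
  | card a ih =>
      intro σ
      simp only [eval]
      rw [ih, smul_ord, smul_elems, Finset.card_image_of_injective _ (smul_inj π)]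
  | eq a b iha ihb =>
      intro σ
      simp only [eval]
      rw [iha, ihb, smul_bv, (smul_inj π).eq_iff]
  | mem a b iha ihb =>
      intro σ
      simp only [eval]
      rw [iha, ihb, smul_bv, smul_mem_iff]
  | rel a b c iha ihb ihc =>
      intro σ
      simp only [eval]
      rw [iha, ihb, ihc, smul_bv]
      congr 1
      apply propext
      have key : ∀ (x : HF A) (u : A), π • x = atom u → x = atom (π⁻¹ u) := by
        intro x u hx
        rw [← inv_smul_smul π x, hx, smul_atom]
      constructor
      · rintro ⟨x, y, z, hx, hy, hz, hR⟩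
        refine ⟨_, _, _, key _ _ hx, key _ _ hy, key _ _ hz, ?_⟩
        rw [← h]
        simpa using hR
      · rintro ⟨x, y, z, hx, hy, hz, hR⟩
        refine ⟨π x, π y, π z, ?_, ?_, ?_, ?_⟩
        · rw [hx, smul_atom]
        · rw [hy, smul_atom]
        · rw [hz, smul_atom]
        · rw [h]
          exact hR
  | neg a ih =>
      intro σ
      simp only [eval]
      rw [ih, smul_bv, smul_eq_ff]
  | conj a b iha ihb =>
      intro σ
      simp only [eval]
      rw [iha, ihb, smul_bv]
      congr 1
      apply propext
      rw [ne_eq, ne_eq, ne_eq, ne_eq, smul_eq_ff, smul_eq_ff]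
  | comp s r φ ihs ihr ihφ =>
      intro σ
      simp only [eval]
      rw [ihr, smul_mk, smul_elems]
      congr 1
      ext z
      simp only [Finset.mem_image, Finset.mem_filter]
      constructor
      · rintro ⟨_, ⟨⟨y, hy, rfl⟩, hφ⟩, rfl⟩
        refine ⟨eval R s (cons y σ), ⟨y, ⟨hy, ?_⟩, rfl⟩, ?_⟩
        · rw [← smul_cons, ihφ] at hφ
          exact fun h0 => hφ (smul_eq_ff.mpr h0)
        · rw [← ihs, smul_cons]
      · rintro ⟨_, ⟨y, ⟨hy, hφ⟩, rfl⟩, rfl⟩
        refine ⟨π • y, ⟨⟨y, hy, rfl⟩, ?_⟩, ?_⟩
        · rw [← smul_cons, ihφ]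
          exact fun h0 => hφ (smul_eq_ff.mp h0)
        · rw [← smul_cons, ihs]

/-- Evaluation commutes with automorphisms. -/
theorem smul_eval [Fintype A] {R : A → A → A → Prop} {π : Equiv.Perm A} (h : IsAut R π) (t : Tm)
    (σ : ℕ → HF A) : π • eval R t σ = eval R t fun i => π • σ i :=
  (eval_smul h t σ).symm

/-- States are fixed by automorphisms. -/
theorem smul_run [Fintype A] {R : A → A → A → Prop} {π : Equiv.Perm A} (h : IsAut R π)
    (P : Program) (j : ℕ) : π • run P R j = run P R j := by
  induction j with
  | zero => exact smul_ff π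
  | succ j ih =>
    rw [run, smul_eval h]
    congr 1
    funext _
    exact ih

end MP5e5.X
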