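import Mathlib

/-!
# Commuting families of permutations and small orbits
-/

open Classical

namespace MP5e5.X

/-- The subgroup generated by the sets `K v`, `v ∈ T`. -/
def ccl {V Γ : Type} [Group Γ] (K : V → Set Γ) (T : Set V) : Subgroup Γ :=
  Subgroup.closure {g | ∃ v ∈ T, g ∈ K v}

theorem ccl_mono {V Γ : Type} [Group Γ] (K : V → Set Γ) {S T : Set V} (h : S ⊆ T) :
    ccl K S ≤ ccl K T := by
  apply Subgroup.closure_mono
  rintro g ⟨v, hv, hg⟩
  exact ⟨v, h hv, hg⟩

theorem mem_ccl {V Γ : Type} [Group Γ] (K : V → Set Γ) {T : Set V} {v : V} (hv : v ∈ T) {g : Γ}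
    (hg : g ∈ K v) : g ∈ ccl K T :=
  Subgroup.subset_closure ⟨v, hv, hg⟩

theorem comm_one {V Γ : Type} [Group Γ] (K : V → Set Γ)
    (hK : ∀ u v, u ≠ v → ∀ g ∈ K u, ∀ h ∈ K v, g * h = h * g) {T : Set V} {v : V} (hv : v ∉ T)
    {g : Γ} (hg : g ∈ K v) : ∀ γ ∈ ccl K T, g * γ = γ * g := by
  have h : ccl K T ≤ Subgroup.centralizer {g} := by
    apply (Subgroup.closure_le _).2
    rintro x ⟨u, hu, hx⟩
    rw [SetLike.mem_coe, Subgroup.mem_centralizer_iff]
    intro z hz
    rw [Set.mem_singleton_iff] at hz
    subst hz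
    exact hK v u (fun e => hv (e ▸ hu)) z hg x hx
  intro γ hγ
  have := h hγ
  rw [Subgroup.mem_centralizer_iff] at this
  exact this g (Set.mem_singleton g)

theorem comm_two {V Γ : Type} [Group Γ] (K : V → Set Γ)
    (hK : ∀ u v, u ≠ v → ∀ g ∈ K u, ∀ h ∈ K v, g * h = h * g) {S T : Set V}
    (hST : ∀ v ∈ S, v ∉ T) : ∀ a ∈ ccl K S, ∀ b ∈ ccl K T, a * b = b * a := by
  intro a ha b hb
  have h : ccl K S ≤ Subgroup.centralizer {b} := by
    apply (Subgroup.closure_le _).2
    rintro x ⟨u, hu, hx⟩
    rw [SetLike.mem_coe, Subgroup.mem_centralizer_iff]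
    intro z hz
    rw [Set.mem_singleton_iff] at hz
    subst hz
    exact (comm_one K hK (hST u hu) hx z hb).symm
  have := h ha
  rw [Subgroup.mem_centralizer_iff] at this
  exact (this b (Set.mem_singleton b)).symm

theorem one_side {V Γ Y : Type} [LinearOrder V] [Group Γ] [MulAction Γ Y] (K : V → Set Γ)
    (hK : ∀ u v, u ≠ v → ∀ g ∈ K u, ∀ h ∈ K v, g * h = h * g) (y : Y) (O : Finset Y)
    (hO : ∀ γ ∈ ccl K Set.univ, γ • y ∈ O) (S : Finset V) :
    2 ^ (S.filter (fun v => ∃ g ∈ K v, ∀ a ∈ ccl K {u | u ∈ S ∧ v < u}, g • y ≠ a • y)).card ≤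
      (O.filter (fun z => ∃ a ∈ ccl K (S : Set V), z = a • y)).card := by
  induction S using Finset.induction_on_min with
  | empty =>
    simp only [Finset.filter_empty, Finset.card_empty, pow_zero]
    apply Nat.succ_le_of_lt
    apply Finset.card_pos.2
    refine ⟨y, Finset.mem_filter.2 ⟨?_, 1, one_mem _, (one_smul _ _).symm⟩⟩
    have := hO 1 (one_mem _)
    rwa [one_smul] at this
  | insert a s ha ih =>
    have has : a ∉ s := fun h => lt_irrefl _ (ha a h)
    -- the bad set of `insert a s`
    have hset : ∀ v ∈ s, {u | u ∈ insert a s ∧ v < u} = {u | u ∈ s ∧ v < u} := by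
      intro v hv
      ext u
      simp only [Set.mem_ofPred_eq, Finset.mem_insert]
      constructor
      · rintro ⟨h | h, h2⟩
        · subst h
          exact absurd (lt_trans h2 (ha v hv)) (lt_irrefl _)
        · exact ⟨h, h2⟩
      · rintro ⟨h, h2⟩
        exact ⟨Or.inr h, h2⟩
    have hseta : {u | u ∈ insert a s ∧ a < u} = (s : Set V) := by
      ext u
      simp only [Set.mem_ofPred_eq, Finset.mem_insert, Finset.mem_coe]
      constructor
      · rintro ⟨h | h, h2⟩
        · subst h
          exact absurd h2 (lt_irrefl _)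
        · exact h
      · intro h
        exact ⟨Or.inr h, ha u h⟩
    have hfil : (s.filter (fun v => ∃ g ∈ K v, ∀ b ∈ ccl K {u | u ∈ insert a s ∧ v < u},
        g • y ≠ b • y)) =
        (s.filter (fun v => ∃ g ∈ K v, ∀ b ∈ ccl K {u | u ∈ s ∧ v < u}, g • y ≠ b • y)) := by
      apply Finset.filter_congr
      intro v hv
      rw [hset v hv]
    have hsub : (O.filter (fun z => ∃ b ∈ ccl K (s : Set V), z = b • y)) ⊆
        (O.filter (fun z => ∃ b ∈ ccl K ((insert a s : Finset V) : Set V), z = b • y)) := by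
      intro z hz
      rw [Finset.mem_filter] at hz ⊢
      obtain ⟨h1, b, hb, h2⟩ := hz
      refine ⟨h1, b, ccl_mono K ?_ hb, h2⟩
      intro u hu
      simp only [Finset.mem_coe, Finset.mem_insert] at hu ⊢
      exact Or.inr hu
    rw [Finset.filter_insert]
    split_ifs with hbad
    · rw [hfil, Finset.card_insert_of_notMem (fun h => has (Finset.mem_filter.1 h).1), pow_succ]
      obtain ⟨g, hg, hgb⟩ := hbad
      rw [hseta] at hgb
      have hcomm := comm_one K hK (T := (s : Set V)) (v := a) (by simpa using has) hg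
      have hga : g ∈ ccl K ((insert a s : Finset V) : Set V) :=
        mem_ccl K (v := a) (by simp) hg
      -- the translate
      have himg : ((O.filter (fun z => ∃ b ∈ ccl K (s : Set V), z = b • y)).image
          (fun z => g • z)) ⊆
          (O.filter (fun z => ∃ b ∈ ccl K ((insert a s : Finset V) : Set V), z = b • y)) := by
        intro z hz
        rw [Finset.mem_image] at hz
        obtain ⟨w, hw, rfl⟩ := hz
        rw [Finset.mem_filter] at hw
        obtain ⟨-, b, hb, rfl⟩ := hw
        have hmem : g * b ∈ ccl K ((insert a s : Finset V) : Set V) := by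
          refine mul_mem hga (ccl_mono K ?_ hb)
          intro u hu
          simp only [Finset.mem_coe, Finset.mem_insert] at hu ⊢
          exact Or.inr hu
        rw [Finset.mem_filter]
        refine ⟨?_, g * b, hmem, (mul_smul _ _ _).symm⟩
        rw [← mul_smul]
        exact hO _ (ccl_mono K (Set.subset_univ _) hmem)
      have hdisj : Disjoint (O.filter (fun z => ∃ b ∈ ccl K (s : Set V), z = b • y))
          ((O.filter (fun z => ∃ b ∈ ccl K (s : Set V), z = b • y)).image (fun z => g • z)) := by
        rw [Finset.disjoint_left]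
        intro z hz hz'
        rw [Finset.mem_image] at hz'
        obtain ⟨w, hw, hwz⟩ := hz'
        rw [Finset.mem_filter] at hw hz
        obtain ⟨-, b, hb, rfl⟩ := hw
        obtain ⟨-, c, hc, rfl⟩ := hz
        -- g b y = c y, so g y = b⁻¹ c y
        apply hgb (b⁻¹ * c) (mul_mem (inv_mem hb) hc)
        have e1 : g • (b • y) = b • (g • y) := by
          rw [← mul_smul, hcomm b hb, mul_smul]
        rw [mul_smul]
        rw [← hwz, e1, inv_smul_smul]
      have hcard : ((O.filter (fun z => ∃ b ∈ ccl K (s : Set V), z = b • y)).image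
          (fun z => g • z)).card = (O.filter (fun z => ∃ b ∈ ccl K (s : Set V), z = b • y)).card :=
        Finset.card_image_of_injective _ (MulAction.injective g)
      calc 2 ^ (s.filter (fun v => ∃ g ∈ K v, ∀ b ∈ ccl K {u | u ∈ s ∧ v < u},
            g • y ≠ b • y)).card * 2
          ≤ (O.filter (fun z => ∃ b ∈ ccl K (s : Set V), z = b • y)).card * 2 :=
            Nat.mul_le_mul_right _ ih
        _ = ((O.filter (fun z => ∃ b ∈ ccl K (s : Set V), z = b • y)) ∪
            ((O.filter (fun z => ∃ b ∈ ccl K (s : Set V), z = b • y)).image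
              (fun z => g • z))).card := by
            rw [Finset.card_union_of_disjoint hdisj, hcard]
            ring
        _ ≤ _ := Finset.card_le_card (Finset.union_subset hsub himg)
    · rw [hfil]
      exact le_trans ih (Finset.card_le_card hsub)

/-- COMMUTATOR LEMMA.  Sets `K v` of elements of a group acting on `Y` such that the elements of
different sets commute; a point `y` whose orbit under the group generated by all `K v` is
contained in a finite set with fewer than `2 ^ (k + 1)` elements.  Then for all but at most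
`2 * k` indices `v` the elements of `K v` commute at `y`. -/
theorem comm_count {V Γ Y : Type} [Fintype V] [Group Γ] [MulAction Γ Y] (K : V → Set Γ)
    (hK : ∀ u v, u ≠ v → ∀ g ∈ K u, ∀ h ∈ K v, g * h = h * g) (y : Y) (O : Finset Y)
    (hO : ∀ γ ∈ Subgroup.closure (⋃ v, K v), γ • y ∈ O) (k : ℕ) (hk : O.card < 2 ^ (k + 1)) :
    ∃ B : Finset V, B.card ≤ 2 * k ∧ ∀ v, v ∉ B → ∀ g ∈ K v, ∀ h ∈ K v,
      (g * h) • y = (h * g) • y := by
  let _ : LinearOrder V := LinearOrder.lift' (Fintype.equivFin V) (Fintype.equivFin V).injective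
  have hO' : ∀ γ ∈ ccl K Set.univ, γ • y ∈ O := by
    intro γ hγ
    apply hO
    have : ccl K Set.univ ≤ Subgroup.closure (⋃ v, K v) := by
      apply Subgroup.closure_mono
      rintro g ⟨v, -, hg⟩
      exact Set.mem_iUnion.2 ⟨v, hg⟩
    exact this hγ
  have h1 := one_side K hK y O hO' Finset.univ
  have h2 := one_side (V := Vᵒᵈ) (fun v => K (OrderDual.ofDual v))
    (fun u v huv => hK _ _ (fun e => huv e)) y O (by
      intro γ hγ
      apply hO'
      have : ccl (fun v : Vᵒᵈ => K (OrderDual.ofDual v)) Set.univ ≤ ccl K Set.univ := by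
        apply Subgroup.closure_mono
        rintro g ⟨v, -, hg⟩
        exact ⟨OrderDual.ofDual v, trivial, hg⟩
      exact this hγ) Finset.univ
  set B1 : Finset V := Finset.univ.filter
    (fun v => ∃ g ∈ K v, ∀ a ∈ ccl K {u | u ∈ (Finset.univ : Finset V) ∧ v < u}, g • y ≠ a • y)
    with hB1
  set B2 : Finset Vᵒᵈ := Finset.univ.filter
    (fun v : Vᵒᵈ => ∃ g ∈ K (OrderDual.ofDual v), ∀ a ∈ ccl (fun v : Vᵒᵈ => K (OrderDual.ofDual v))
      {u | u ∈ (Finset.univ : Finset Vᵒᵈ) ∧ v < u}, g • y ≠ a • y)
    with hB2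
  have c1 : B1.card ≤ k := by
    have : 2 ^ B1.card < 2 ^ (k + 1) :=
      lt_of_le_of_lt (le_trans h1 (Finset.card_le_card (Finset.filter_subset _ _))) hk
    exact Nat.lt_succ_iff.1 ((Nat.pow_lt_pow_iff_right (by norm_num)).1 this)
  have c2 : B2.card ≤ k := by
    have : 2 ^ B2.card < 2 ^ (k + 1) :=
      lt_of_le_of_lt (le_trans h2 (Finset.card_le_card (Finset.filter_subset _ _))) hk
    exact Nat.lt_succ_iff.1 ((Nat.pow_lt_pow_iff_right (by norm_num)).1 this)
  refine ⟨B1 ∪ B2.image OrderDual.ofDual, ?_, ?_⟩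
  · refine le_trans (Finset.card_union_le _ _) ?_
    have := Finset.card_image_le (s := B2) (f := OrderDual.ofDual)
    omega
  · intro v hv g hg h hh
    rw [Finset.mem_union, not_or] at hv
    obtain ⟨hv1, hv2⟩ := hv
    have e1 : ∃ a ∈ ccl K {u : V | v < u}, g • y = a • y := by
      by_contra hcon
      push Not at hcon
      apply hv1
      rw [hB1, Finset.mem_filter]
      refine ⟨Finset.mem_univ _, g, hg, ?_⟩
      intro a ha
      apply hcon a
      refine ccl_mono K ?_ ha
      rintro u ⟨-, hu⟩
      exact hu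
    have e2 : ∃ b ∈ ccl K {u : V | u < v}, h • y = b • y := by
      by_contra hcon
      push Not at hcon
      apply hv2
      rw [Finset.mem_image]
      refine ⟨OrderDual.toDual v, ?_, rfl⟩
      rw [hB2, Finset.mem_filter]
      refine ⟨Finset.mem_univ _, h, hh, ?_⟩
      intro a ha
      apply hcon a
      have : ccl (fun v : Vᵒᵈ => K (OrderDual.ofDual v))
          {u | u ∈ (Finset.univ : Finset Vᵒᵈ) ∧ OrderDual.toDual v < u} ≤
          ccl K {u : V | u < v} := by
        apply Subgroup.closure_mono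
        rintro x ⟨u, ⟨-, hu⟩, hx⟩
        exact ⟨OrderDual.ofDual u, hu, hx⟩
      exact this ha
    obtain ⟨a, ha, hga⟩ := e1
    obtain ⟨b, hb, hhb⟩ := e2
    have q1 : g * b = b * g :=
      comm_one K hK (T := {u : V | u < v}) (v := v) (by simp) hg b hb
    have q2 : h * a = a * h :=
      comm_one K hK (T := {u : V | v < u}) (v := v) (by simp) hh a ha
    have q3 : a * b = b * a := by
      apply comm_two K hK (S := {u : V | v < u}) (T := {u : V | u < v}) ?_ a ha b hb
      intro u hu hu'
      exact lt_irrefl _ (lt_trans (show v < u from hu) (show u < v from hu'))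
    calc (g * h) • y = g • (b • y) := by rw [mul_smul, hhb]
      _ = b • (a • y) := by rw [← mul_smul, q1, mul_smul, hga]
      _ = a • (h • y) := by rw [← mul_smul, ← q3, mul_smul, hhb]
      _ = h • (g • y) := by rw [← mul_smul, ← q2, mul_smul, hga]
      _ = (h * g) • y := by rw [mul_smul]

end MP5e5.X
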