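import Pool.Agent.Lib.MP_5e5bb6_lc.X.Aut

/-!
# Complexes, twisted linear systems with labels, and their 1-in-3 instances

A complex has sites, links (with a set of end sites), faces (with four boundary links) and cells
(with six boundary faces).  For a right-hand side `b` on the cells we consider the linear system
over `ZMod 2` with a variable `t (f, s)` for every face `f` and every labelling `s` of the corners
of `f`, and the equation `∑ k, t (fc w k, s) = b w` for every cell `w` and every labelling `s` of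
the corners of `w`.  `Rel b` is a 1-in-3 instance which encodes this system.
-/

open Classical

namespace MP5e5.X

open HF

/-- A complex with sites `S`, links `L`, faces `F` and cells `C`. -/
structure Cx (S L F C : Type) where
  /-- the ends of a link -/
  ends : L → Finset S
  /-- the boundary links of a face -/
  lk : F → Fin 4 → L
  /-- the boundary faces of a cell -/
  fc : C → Fin 6 → F

namespace Cx

variable {S L F C : Type} [Fintype S] [DecidableEq S] [Fintype L] [DecidableEq L] [Fintype F]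
  [DecidableEq F] [Fintype C] [DecidableEq C] (K : Cx S L F C)

/-- The coboundary of a function on the links. -/
def d1 (a : L → ZMod 2) (f : F) : ZMod 2 := ∑ m, a (K.lk f m)

/-- The coboundary of a function on the faces. -/
def d2 (g : F → ZMod 2) (w : C) : ZMod 2 := ∑ k, g (K.fc w k)

/-- The corners of a face. -/
def cf (f : F) : Finset S := Finset.univ.biUnion fun m => K.ends (K.lk f m)

/-- The corners of a cell. -/
def cc (w : C) : Finset S := Finset.univ.biUnion fun k => K.cf (K.fc w k)

/-- The restriction of a labelling to the set `D` of sites. -/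
def res (D : Finset S) (s : S → ZMod 2) : S → ZMod 2 := fun v => if v ∈ D then s v else 0

/-- The literals: a face, a labelling of its corners and a value. -/
abbrev Lit : Type := {a : F × (S → ZMod 2) × ZMod 2 // ∀ v, v ∉ K.cf a.1 → a.2.1 v = 0}

/-- The auxiliary atoms: a cell, a labelling of its corners, a value for every face of the cell
and an index. -/
abbrev Ax : Type :=
  {a : C × (S → ZMod 2) × (Fin 6 → ZMod 2) × (Fin 5 × Fin 3) // ∀ v, v ∉ K.cc a.1 → a.2.1 v = 0}

/-- The atoms. -/
abbrev At : Type := Bool ⊕ (K.Lit ⊕ K.Ax)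

/-- The atom which must be `0` (`b = false`) or `1` (`b = true`). -/
def cst (b : Bool) : K.At := Sum.inl b

/-- The literal `t (f, s) = x`. -/
def lit (f : F) (s : S → ZMod 2) (x : ZMod 2) : K.At :=
  Sum.inr (Sum.inl ⟨(f, res (K.cf f) s, x), fun v hv => by simp [res, hv]⟩)

/-- The auxiliary atoms of the clause `(w, s, x)`. -/
def aux (w : C) (s : S → ZMod 2) (x : Fin 6 → ZMod 2) (j : Fin 5 × Fin 3) : K.At :=
  Sum.inr (Sum.inr ⟨(w, res (K.cc w) s, x, j), fun v hv => by simp [res, hv]⟩)

/-- The input number `j` of the chain of the clause `(w, s, x)`. -/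
def inp (w : C) (s : S → ZMod 2) (x : Fin 6 → ZMod 2) : Fin 4 → K.At
  | 0 => K.lit (K.fc w 0) s (x 0)
  | 1 => K.aux w s x (0, 2)
  | 2 => K.aux w s x (1, 2)
  | 3 => K.aux w s x (2, 2)

/-- The 1-in-3 instance of the linear system with right-hand side `b`. -/
def Rel (b : C → ZMod 2) (a₁ a₂ a₃ : K.At) : Prop :=
  (a₁ = K.cst false ∧ a₂ = K.cst false ∧ a₃ = K.cst true) ∨
  (∃ f s x, a₁ = K.lit f s x ∧ a₂ = K.lit f s (x + 1) ∧ a₃ = K.cst false) ∨
  (∃ w s x, ∑ k, x k ≠ b w ∧
    ((∃ j : Fin 4, a₁ = K.inp w s x j ∧ a₂ = K.aux w s x (j.castSucc, 0) ∧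
        a₃ = K.aux w s x (j.castSucc, 1)) ∨
     (∃ j : Fin 4, a₁ = K.lit (K.fc w j.succ.castSucc) s (x j.succ.castSucc + 1) ∧
        a₂ = K.aux w s x (j.castSucc, 1) ∧ a₃ = K.aux w s x (j.castSucc, 2)) ∨
     (a₁ = K.lit (K.fc w 5) s (x 5) ∧ a₂ = K.aux w s x (3, 2) ∧ a₃ = K.aux w s x (4, 0))))

/-- The action of a function on the faces on the atoms. -/
def act (g : F → ZMod 2) : K.At → K.At
  | Sum.inl b => Sum.inl b
  | Sum.inr (Sum.inl a) => Sum.inr (Sum.inl ⟨(a.1.1, a.1.2.1, a.1.2.2 + g a.1.1), a.2⟩)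
  | Sum.inr (Sum.inr a) =>
      Sum.inr (Sum.inr ⟨(a.1.1, a.1.2.1, fun k => a.1.2.2.1 k + g (K.fc a.1.1 k), a.1.2.2.2), a.2⟩)

/-- The faces on which an atom depends. -/
def ns : K.At → Finset F
  | Sum.inl _ => ∅
  | Sum.inr (Sum.inl a) => {a.1.1}
  | Sum.inr (Sum.inr a) => Finset.univ.image (K.fc a.1.1)

/-- The function on the faces which belongs to the link `l`. -/
def z (l : L) : F → ZMod 2 := K.d1 (Pi.single l 1)

/-- Flip the label of the site `v`. -/
def flipF (v : S) : K.At → K.At
  | Sum.inl b => Sum.inl b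
  | Sum.inr (Sum.inl a) => Sum.inr (Sum.inl ⟨(a.1.1,
      fun u => a.1.2.1 u + if u = v ∧ v ∈ K.cf a.1.1 then 1 else 0, a.1.2.2), by
        intro u hu
        have h := a.2 u hu
        by_cases huv : u = v
        · subst huv
          simp_all
        · simp_all⟩)
  | Sum.inr (Sum.inr a) => Sum.inr (Sum.inr ⟨(a.1.1,
      fun u => a.1.2.1 u + if u = v ∧ v ∈ K.cc a.1.1 then 1 else 0, a.1.2.2), by
        intro u hu
        have h := a.2 u hu
        by_cases huv : u = v
        · subst huv
          simp_all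
        · simp_all⟩)

/-- Add the label of the site `v` times `z l` to the values. -/
def kapF (v : S) (l : L) : K.At → K.At
  | Sum.inl b => Sum.inl b
  | Sum.inr (Sum.inl a) =>
      Sum.inr (Sum.inl ⟨(a.1.1, a.1.2.1, a.1.2.2 + a.1.2.1 v * K.z l a.1.1), a.2⟩)
  | Sum.inr (Sum.inr a) => Sum.inr (Sum.inr ⟨(a.1.1, a.1.2.1,
      fun k => a.1.2.2.1 k + a.1.2.1 v * K.z l (K.fc a.1.1 k), a.1.2.2.2), a.2⟩)

end Cx

end MP5e5.X
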