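import Pool.Agent.Lib.MP_5e5bb6_lc.BGS

/-!
# Deciding CSP({0,1}; 1IN3) within given resources
-/

open Classical

namespace MP5e5.X

open HF

/-- The program `P` accepts `(A, R)` within the resources `t`, `N`: for some `i ≤ t n`, where `n`
is the number of atoms, the state at time `i` is the first state which satisfies the halting
condition, it satisfies the output condition, and up to this time all states have a transitive
closure with at most `N n` elements.  (`t n = ⊤` means that there is no bound on the number of
steps.) -/
def Accepts (P : Program) (t : ℕ → ℕ∞) (N : ℕ → ℕ) {A : Type} [Fintype A]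
    (R : A → A → A → Prop) : Prop :=
  ∃ i : ℕ, (i : ℕ∞) ≤ t (Fintype.card A) ∧
    (∀ j < i, eval R P.halt (fun _ => run P R j) = ff) ∧
    eval R P.halt (fun _ => run P R i) ≠ ff ∧ eval R P.out (fun _ => run P R i) ≠ ff ∧
    ∀ j ≤ i, tcCard (run P R j) ≤ N (Fintype.card A)

/-- The program `P` decides `CSP({0,1}; 1IN3)` within the resources `t`, `N`: it accepts a finite
structure if and only if it is a yes-instance. -/
def Decides (P : Program) (t : ℕ → ℕ∞) (N : ℕ → ℕ) : Prop :=
  ∀ (A : Type) [Fintype A] (R : A → A → A → Prop), Accepts P t N R ↔ Sat R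

end MP5e5.X
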