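import Pool.Agent.Lib.MP_5e5bb6_lc.X.Ev

/-! # Transport commutes with evaluation: equality, membership, the relation, truth values -/

open Classical

namespace MP5e5.X

open HF

theorem pure_ff {A : Type} : Pure (ff : HF A) := by
  refine ⟨fun a h => mk_ne_atom a ∅ h, fun a h => ?_⟩
  have key : ∀ z : HF A, TC (ff : HF A) z → False := by
    intro z hz
    induction hz with
    | base h => simp [ff] at h
    | step _ _ ih => exact ih
  exact key _ h

theorem pure_tt {A : Type} : Pure (tt : HF A) := by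
  refine ⟨fun a h => mk_ne_atom a {ff} h, fun a h => ?_⟩
  have key : ∀ z : HF A, TC (tt : HF A) z → z = ff := by
    intro z hz
    induction hz with
    | base h => simpa [tt] using h
    | step _ h2 ih =>
      rw [ih] at h2
      simp [ff] at h2
  exact pure_ff.1 a (key _ h).symm

theorem pure_bv {A : Type} (P : Prop) : Pure (bv P : HF A) := by
  unfold bv
  split
  · exact pure_tt
  · exact pure_ff

namespace GS

variable {p : ℕ} [Fact p.Prime] {E A : Type} [Fintype E] [DecidableEq E] [Fintype A]
  (G : GS p E A)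

theorem ext_union {T S : Finset E} {g : E → ZMod p} (hg : G.Gd T g) (h : T.card + S.card < G.W) :
    ∃ g', G.Gd (T ∪ S) g' ∧ ∀ e ∈ T, g' e = g e :=
  G.ext hg Finset.subset_union_left (lt_of_le_of_lt (Finset.card_union_le T S) h)

theorem F_bv {T : Finset E} {g : E → ZMod p} (hg : G.Gd T g) (P : Prop) :
    G.F (bv P) g = bv P :=
  G.F_pure (pure_bv P) (G.anti (Finset.empty_subset T) hg)

theorem F_eq_ff {k : ℕ} (hk : 4 * k < G.W) {x : HF A} (hx : G.HS k x) {g : E → ZMod p}
    (hg : G.Gd (G.sp x) g) : G.F x g = ff ↔ x = ff := by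
  constructor
  · intro h
    rcases eq_atom_or_mk x with ⟨a, rfl⟩ | ⟨s, rfl⟩
    · rw [F_atom] at h
      exact absurd h (atom_ne_mk _ _)
    · have h1 := G.F_card hk hx hg
      rw [h] at h1
      have h2 : s.card = 0 := by
        rw [elems_mk] at h1
        rw [← h1]
        simp [ff]
      rw [Finset.card_eq_zero] at h2
      rw [h2]
      rfl
  · intro h
    subst h
    exact G.F_pure pure_ff (G.anti (Finset.empty_subset _) hg)

/-- Truth values are transported: the version of `TrOK` with `g` good for `T` only. -/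
theorem tr_truth {t : Tm} (ht : G.TrOK t) {m : ℕ} (hm : 20 * (big t m + 1) < G.W)
    {T : Finset E} (hT : T.card ≤ m) {σ : ℕ → HF A} (hσ : ∀ i, G.HS m (σ i))
    (hs : ∀ i, G.sp (σ i) ⊆ T) {g : E → ZMod p} (hg : G.Gd T g) :
    eval G.R1 t (fun i => G.F (σ i) g) = ff ↔ eval G.R0 t σ = ff := by
  have hx := G.eval_HS t hT hσ hs
  have hc := G.sp_card hx
  have hb := le_big t m
  obtain ⟨g', hg', he⟩ := G.ext_union (S := G.sp (eval G.R0 t σ)) hg (by omega)
  rw [← G.F_env hs he, ht m hm T hT σ hσ hs g' hg']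
  exact G.F_eq_ff (k := big t m) (by omega) hx (G.anti Finset.subset_union_right hg')

theorem tr_eq {a b : Tm} (ha : G.TrOK a) (hb : G.TrOK b) : G.TrOK (.eq a b) := by
  intro m hm T hT σ hσ hs g hg
  simp only [big] at hm
  have hx := G.eval_HS a hT hσ hs
  have hy := G.eval_HS b hT hσ hs
  have hxc := G.sp_card hx
  have hyc := G.sp_card hy
  have hba := le_big a m
  have hbb := le_big b m
  have hgT : G.Gd T g := G.anti Finset.subset_union_left hg
  have hc := Finset.card_union_le (G.sp (eval G.R0 a σ)) (G.sp (eval G.R0 b σ))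
  obtain ⟨g', hg', he⟩ := G.ext_union (S := G.sp (eval G.R0 a σ) ∪ G.sp (eval G.R0 b σ)) hgT
    (by omega)
  have ea := ha m (by omega) T hT σ hσ hs g' (G.anti (by
    intro e h
    simp only [Finset.mem_union] at h ⊢
    tauto) hg')
  have eb := hb m (by omega) T hT σ hσ hs g' (G.anti (by
    intro e h
    simp only [Finset.mem_union] at h ⊢
    tauto) hg')
  rw [← G.F_env hs he]
  simp only [eval]
  rw [ea, eb, G.F_bv hg]
  congr 1
  refine propext ⟨fun h => ?_, fun h => by rw [h]⟩
  exact G.F_inj (k := big a m + big b m) (by omega) (G.HS_mono (by omega) hx)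
    (G.HS_mono (by omega) hy) (G.anti Finset.subset_union_right hg') h

theorem tr_mem {a b : Tm} (ha : G.TrOK a) (hb : G.TrOK b) : G.TrOK (.mem a b) := by
  intro m hm T hT σ hσ hs g hg
  simp only [big] at hm
  have hx := G.eval_HS a hT hσ hs
  have hy := G.eval_HS b hT hσ hs
  have hxc := G.sp_card hx
  have hyc := G.sp_card hy
  have hba := le_big a m
  have hbb := le_big b m
  have hgT : G.Gd T g := G.anti Finset.subset_union_left hg
  have hc := Finset.card_union_le (G.sp (eval G.R0 b σ)) (G.sp (eval G.R0 a σ))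
  obtain ⟨g', hg', he⟩ := G.ext_union (S := G.sp (eval G.R0 b σ) ∪ G.sp (eval G.R0 a σ)) hgT
    (by omega)
  have ea := ha m (by omega) T hT σ hσ hs g' (G.anti (by
    intro e h
    simp only [Finset.mem_union] at h ⊢
    tauto) hg')
  have eb := hb m (by omega) T hT σ hσ hs g' (G.anti (by
    intro e h
    simp only [Finset.mem_union] at h ⊢
    tauto) hg')
  rw [← G.F_env hs he]
  simp only [eval]
  rw [ea, eb, G.F_bv hg]
  congr 1
  refine propext ?_
  exact G.F_mem (k := big a m + big b m) (by omega) (G.HS_mono (by omega) hy)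
    (G.HS_mono (by omega) hx) (G.anti Finset.subset_union_right hg')

theorem F_eq_atom {x : HF A} {g : E → ZMod p} {a : A} (h : G.F x g = atom a) :
    ∃ b, x = atom b ∧ G.act g b = a := by
  by_contra hn
  rcases eq_atom_or_mk x with ⟨b, rfl⟩ | ⟨s, rfl⟩
  · rw [F_atom, atom_inj] at h
    exact hn ⟨b, rfl, h⟩
  · rw [F_mk] at h
    exact mk_ne_atom _ _ h

theorem tr_rel {a b c : Tm} (ha : G.TrOK a) (hb : G.TrOK b) (hc : G.TrOK c) :
    G.TrOK (.rel a b c) := by
  intro m hm T hT σ hσ hs g hg
  simp only [big] at hm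
  have hx := G.eval_HS a hT hσ hs
  have hy := G.eval_HS b hT hσ hs
  have hz := G.eval_HS c hT hσ hs
  have hxc := G.sp_card hx
  have hyc := G.sp_card hy
  have hzc := G.sp_card hz
  have hba := le_big a m
  have hbb := le_big b m
  have hbc := le_big c m
  have hgT : G.Gd T g := G.anti Finset.subset_union_left hg
  have hc1 := Finset.card_union_le (G.sp (eval G.R0 a σ)) (G.sp (eval G.R0 b σ))
  have hc2 := Finset.card_union_le (G.sp (eval G.R0 a σ) ∪ G.sp (eval G.R0 b σ))
    (G.sp (eval G.R0 c σ))
  obtain ⟨g', hg', he⟩ := G.ext_union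
    (S := G.sp (eval G.R0 a σ) ∪ G.sp (eval G.R0 b σ) ∪ G.sp (eval G.R0 c σ)) hgT (by omega)
  have ea := ha m (by omega) T hT σ hσ hs g' (G.anti (by
    intro e h
    simp only [Finset.mem_union] at h ⊢
    tauto) hg')
  have eb := hb m (by omega) T hT σ hσ hs g' (G.anti (by
    intro e h
    simp only [Finset.mem_union] at h ⊢
    tauto) hg')
  have ec := hc m (by omega) T hT σ hσ hs g' (G.anti (by
    intro e h
    simp only [Finset.mem_union] at h ⊢
    tauto) hg')
  rw [← G.F_env hs he]
  simp only [eval]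
  rw [ea, eb, ec, G.F_bv hg]
  congr 1
  refine propext ⟨?_, ?_⟩
  · rintro ⟨x', y', z', h1, h2, h3, h4⟩
    obtain ⟨x, hx0, rfl⟩ := G.F_eq_atom h1
    obtain ⟨y, hy0, rfl⟩ := G.F_eq_atom h2
    obtain ⟨z, hz0, rfl⟩ := G.F_eq_atom h3
    refine ⟨x, y, z, hx0, hy0, hz0, ?_⟩
    refine (G.R_tr hg' x y z ?_ ?_ ?_).mp h4
    · intro e h
      rw [hx0, sp_atom]
      simp only [Finset.mem_union]
      tauto
    · intro e h
      rw [hy0, sp_atom]
      simp only [Finset.mem_union]
      tauto
    · intro e h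
      rw [hz0, sp_atom]
      simp only [Finset.mem_union]
      tauto
  · rintro ⟨x, y, z, hx0, hy0, hz0, h4⟩
    refine ⟨G.act g' x, G.act g' y, G.act g' z, ?_, ?_, ?_, ?_⟩
    · rw [hx0, F_atom]
    · rw [hy0, F_atom]
    · rw [hz0, F_atom]
    · refine (G.R_tr hg' x y z ?_ ?_ ?_).mpr h4
      · intro e h
        rw [hx0, sp_atom]
        simp only [Finset.mem_union]
        tauto
      · intro e h
        rw [hy0, sp_atom]
        simp only [Finset.mem_union]
        tauto
      · intro e h
        rw [hz0, sp_atom]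
        simp only [Finset.mem_union]
        tauto

theorem tr_neg {a : Tm} (ha : G.TrOK a) : G.TrOK (.neg a) := by
  intro m hm T hT σ hσ hs g hg
  simp only [big] at hm
  simp only [eval]
  rw [G.F_bv hg]
  congr 1
  exact propext (G.tr_truth ha hm hT hσ hs (G.anti Finset.subset_union_left hg))

theorem tr_conj {a b : Tm} (ha : G.TrOK a) (hb : G.TrOK b) : G.TrOK (.conj a b) := by
  intro m hm T hT σ hσ hs g hg
  simp only [big] at hm
  simp only [eval]
  have hgT : G.Gd T g := G.anti Finset.subset_union_left hg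
  rw [G.F_bv hg]
  congr 1
  have h1 := G.tr_truth ha (by omega) hT hσ hs hgT
  have h2 := G.tr_truth hb (by omega) hT hσ hs hgT
  exact propext (and_congr (not_congr h1) (not_congr h2))

end GS

end MP5e5.X
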