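import Pool.Agent.Lib.MP_5e5bb6_lc.BGS

/-!
# Gauge systems

Two relations `R0`, `R1` on the same set `A` of atoms, a group `E → ZMod p` of gauge
transformations acting on the atoms and a submodule `M` of automorphisms of `R0`.  `Gd T g` means
that `g` is an isomorphism of `R0` to `R1` up to a defect far away from the coordinates `T`.
-/

open Classical

namespace MP5e5.X

open HF

/-- A gauge system. -/
structure GS (p : ℕ) [Fact p.Prime] (E A : Type) [Fintype E] [DecidableEq E] [Fintype A] where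
  mkGS ::
  /-- the width -/
  W : ℕ
  /-- the automorphisms -/
  M : Submodule (ZMod p) (E → ZMod p)
  /-- the gauge transformations whose defect is far away from the coordinates `T` -/
  Gd : Finset E → (E → ZMod p) → Prop
  anti : ∀ {S T : Finset E} {g : E → ZMod p}, S ⊆ T → Gd T g → Gd S g
  addM : ∀ {T : Finset E} {g h : E → ZMod p}, h ∈ M → Gd T g → Gd T (g + h)
  ext : ∀ {S T : Finset E} {g : E → ZMod p}, Gd S g → S ⊆ T → T.card < W →
    ∃ g', Gd T g' ∧ ∀ e ∈ S, g' e = g e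
  diff : ∀ {T : Finset E} {g g' : E → ZMod p}, Gd T g → Gd T g' →
    ∃ h ∈ M, ∀ e ∈ T, g e = g' e + h e
  ne : ∃ g, Gd ∅ g
  /-- the action on atoms -/
  act : (E → ZMod p) → A → A
  act_add : ∀ g g' a, act (g + g') a = act g (act g' a)
  act_zero : ∀ a, act 0 a = a
  /-- the coordinates on which an atom depends -/
  ns : A → Finset E
  ns_card : ∀ a, (ns a).card ≤ 6
  ns_act : ∀ g a, ns (act g a) = ns a
  act_congr : ∀ {g g' : E → ZMod p} {a : A}, (∀ e ∈ ns a, g e = g' e) → act g a = act g' a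
  act_fix : ∀ {h : E → ZMod p} {a : A}, act h a = a → ∀ e ∈ ns a, h e = 0
  fix_ns : ∀ a, (∀ h ∈ M, act h a = a) → ns a = ∅
  /-- the first relation -/
  R0 : A → A → A → Prop
  /-- the second relation -/
  R1 : A → A → A → Prop
  R0_inv : ∀ {h : E → ZMod p}, h ∈ M → ∀ a b c, R0 (act h a) (act h b) (act h c) ↔ R0 a b c
  R_tr : ∀ {T : Finset E} {g : E → ZMod p}, Gd T g → ∀ a b c, ns a ⊆ T → ns b ⊆ T → ns c ⊆ T →
    (R1 (act g a) (act g b) (act g c) ↔ R0 a b c)

namespace GS

variable {p : ℕ} [Fact p.Prime] {E A : Type} [Fintype E] [DecidableEq E] [Fintype A]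
  (G : GS p E A)

/-- The action on objects. -/
noncomputable def hact (g : E → ZMod p) (x : HF A) : HF A := HF.map (G.act g) x

@[simp] theorem hact_atom (g : E → ZMod p) (a : A) : G.hact g (atom a) = atom (G.act g a) := by
  simp [hact]

@[simp] theorem hact_mk (g : E → ZMod p) (s : Finset (HF A)) :
    G.hact g (mk s) = mk (s.image (G.hact g)) := by
  simp only [hact, map_mk]
  rfl

theorem hact_zero (x : HF A) : G.hact 0 x = x := by
  induction x using HF.ind with
  | h1 a => simp [G.act_zero]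
  | h2 s ih =>
    rw [hact_mk]
    congr 1
    ext z
    simp only [Finset.mem_image]
    constructor
    · rintro ⟨y, hy, rfl⟩
      rwa [ih y hy]
    · intro hz
      exact ⟨z, hz, ih z hz⟩

theorem hact_add (g g' : E → ZMod p) (x : HF A) :
    G.hact (g + g') x = G.hact g (G.hact g' x) := by
  induction x using HF.ind with
  | h1 a => simp [G.act_add]
  | h2 s ih =>
    rw [hact_mk, hact_mk, hact_mk]
    congr 1
    ext z
    simp only [Finset.mem_image]
    constructor
    · rintro ⟨y, hy, rfl⟩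
      exact ⟨_, ⟨y, hy, rfl⟩, (ih y hy).symm⟩
    · rintro ⟨_, ⟨y, hy, rfl⟩, rfl⟩
      exact ⟨y, hy, ih y hy⟩

theorem hact_comm (g g' : E → ZMod p) (x : HF A) :
    G.hact g (G.hact g' x) = G.hact g' (G.hact g x) := by
  rw [← hact_add, ← hact_add, add_comm]

theorem hact_neg_cancel (g : E → ZMod p) (x : HF A) : G.hact (-g) (G.hact g x) = x := by
  rw [← hact_add, neg_add_cancel, hact_zero]

theorem hact_injective (g : E → ZMod p) : Function.Injective (G.hact g) := by
  intro x y h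
  rw [← G.hact_neg_cancel g x, h, hact_neg_cancel]

theorem mem_hact {g : E → ZMod p} {x y : HF A} (h : y ∈ x) : G.hact g y ∈ G.hact g x := by
  rcases eq_atom_or_mk x with ⟨a, rfl⟩ | ⟨s, rfl⟩
  · exact absurd h not_mem_atom
  · rw [hact_mk, mem_mk]
    exact Finset.mem_image_of_mem _ (mem_mk.mp h)

/-- The stabiliser of an object in `M`, as an additive subgroup. -/
noncomputable def StabG (x : HF A) : AddSubgroup (E → ZMod p) where
  carrier := {h | h ∈ G.M ∧ G.hact h x = x}
  zero_mem' := ⟨G.M.zero_mem, G.hact_zero x⟩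
  add_mem' := by
    rintro a b ⟨ha, ha'⟩ ⟨hb, hb'⟩
    exact ⟨G.M.add_mem ha hb, by rw [hact_add, hb', ha']⟩
  neg_mem' := by
    rintro a ⟨ha, ha'⟩
    refine ⟨G.M.neg_mem ha, ?_⟩
    conv_lhs => rw [← ha']
    exact G.hact_neg_cancel a x

/-- The stabiliser of an object in `M`, as a submodule. -/
noncomputable def Stab (x : HF A) : Submodule (ZMod p) (E → ZMod p) :=
  AddSubgroup.toZModSubmodule p (G.StabG x)

theorem mem_Stab {x : HF A} {h : E → ZMod p} : h ∈ G.Stab x ↔ h ∈ G.M ∧ G.hact h x = x := by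
  rw [Stab, AddSubgroup.mem_toZModSubmodule]
  rfl

/-- The elements of `M` which vanish on `S`. -/
def MS (S : Finset E) : Submodule (ZMod p) (E → ZMod p) where
  carrier := {h | h ∈ G.M ∧ ∀ e ∈ S, h e = 0}
  zero_mem' := ⟨G.M.zero_mem, fun _ _ => rfl⟩
  add_mem' := by
    rintro a b ⟨ha, ha'⟩ ⟨hb, hb'⟩
    exact ⟨G.M.add_mem ha hb, fun e he => by simp [ha' e he, hb' e he]⟩
  smul_mem' := by
    rintro c a ⟨ha, ha'⟩
    exact ⟨G.M.smul_mem c ha, fun e he => by simp [ha' e he]⟩

theorem mem_MS {S : Finset E} {h : E → ZMod p} : h ∈ G.MS S ↔ h ∈ G.M ∧ ∀ e ∈ S, h e = 0 :=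
  Iff.rfl

/-- `S` supports the object `x`. -/
def Supp (S : Finset E) (x : HF A) : Prop := ∀ h ∈ G.M, (∀ e ∈ S, h e = 0) → G.hact h x = x

theorem supp_iff {S : Finset E} {x : HF A} : G.Supp S x ↔ G.MS S ≤ G.Stab x := by
  constructor
  · intro h g hg
    exact G.mem_Stab.mpr ⟨hg.1, h g hg.1 hg.2⟩
  · intro h g hg hg'
    exact (G.mem_Stab.mp (h ⟨hg, hg'⟩)).2

theorem exists_spm (H : Submodule (ZMod p) (E → ZMod p)) :
    ∃ S : Finset E, G.MS S ≤ H ∧ ∀ S' : Finset E, G.MS S' ≤ H → S.card ≤ S'.card := by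
  have h0 : G.MS Finset.univ ≤ H := by
    intro h hh
    have : h = 0 := funext fun e => hh.2 e (Finset.mem_univ e)
    rw [this]
    exact H.zero_mem
  obtain ⟨S, hS, hS'⟩ := Finset.exists_min_image
    ((Finset.univ : Finset (Finset E)).filter fun S => G.MS S ≤ H) Finset.card
    ⟨Finset.univ, by simpa using h0⟩
  refine ⟨S, (Finset.mem_filter.mp hS).2, fun S' hS'' => hS' S' ?_⟩
  simpa using hS''

/-- A smallest set `S` such that the elements of `M` which vanish on `S` lie in `H`. -/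
noncomputable def spm (H : Submodule (ZMod p) (E → ZMod p)) : Finset E :=
  (G.exists_spm H).choose

/-- The chosen support of an object. -/
noncomputable def sp (x : HF A) : Finset E :=
  if h : ∃ a, x = atom a then G.ns h.choose else G.spm (G.Stab x)

@[simp] theorem sp_atom (a : A) : G.sp (atom a) = G.ns a := by
  have h : ∃ b, (atom a : HF A) = atom b := ⟨a, rfl⟩
  rw [sp, dif_pos h]
  exact congrArg G.ns (atom_injective h.choose_spec).symm

theorem sp_mk (s : Finset (HF A)) : G.sp (mk s) = G.spm (G.Stab (mk s)) := by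
  have h : ¬ ∃ b, (mk s : HF A) = atom b := by simp
  rw [sp, dif_neg h]

theorem supp_sp (x : HF A) : G.Supp (G.sp x) x := by
  rcases eq_atom_or_mk x with ⟨a, rfl⟩ | ⟨s, rfl⟩
  · intro h _ h0
    rw [sp_atom] at h0
    rw [hact_atom]
    congr 1
    rw [← G.act_zero a]
    conv_rhs => rw [← G.act_zero a]
    rw [G.act_zero]
    exact G.act_congr fun e he => by simpa using h0 e he
  · rw [supp_iff, sp_mk]
    exact (G.exists_spm (G.Stab (mk s))).choose_spec.1

theorem sp_card_le {s : Finset (HF A)} {S : Finset E} (h : G.Supp S (mk s)) :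
    (G.sp (mk s)).card ≤ S.card := by
  rw [sp_mk]
  exact (G.exists_spm (G.Stab (mk s))).choose_spec.2 S (G.supp_iff.mp h)

theorem Stab_hact {h : E → ZMod p} (x : HF A) : G.Stab (G.hact h x) = G.Stab x := by
  ext g
  rw [mem_Stab, mem_Stab, hact_comm]
  constructor
  · rintro ⟨h1, h2⟩
    exact ⟨h1, G.hact_injective h h2⟩
  · rintro ⟨h1, h2⟩
    exact ⟨h1, by rw [h2]⟩

theorem sp_hact (h : E → ZMod p) (x : HF A) : G.sp (G.hact h x) = G.sp x := by
  rcases eq_atom_or_mk x with ⟨a, rfl⟩ | ⟨s, rfl⟩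
  · rw [hact_atom, sp_atom, sp_atom, G.ns_act]
  · rw [sp_mk, hact_mk, sp_mk, ← hact_mk, Stab_hact]

/-- Hereditarily, all chosen supports have at most `k` elements. -/
inductive HS (k : ℕ) : HF A → Prop
  | atom (a : A) : (G.ns a).card ≤ k → HS k (atom a)
  | mk (s : Finset (HF A)) : (G.sp (mk s)).card ≤ k → (∀ y ∈ s, HS k y) → HS k (mk s)

/-- Transport of objects along a gauge transformation. -/
noncomputable def F : HF A → (E → ZMod p) → HF A :=
  mem_wf.fix (C := fun _ => (E → ZMod p) → HF A) fun x rec g =>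
    if h : ∃ a, x = atom a then atom (G.act g h.choose)
    else mk (x.elems.attach.biUnion fun y =>
      ((Finset.univ : Finset (E → ZMod p)).filter fun g' =>
        G.Gd (G.sp x ∪ G.sp y) g' ∧ ∀ e ∈ G.sp x, g' e = g e).image (rec y.1 y.2))

@[simp] theorem F_atom (a : A) (g : E → ZMod p) : G.F (atom a) g = atom (G.act g a) := by
  rw [F, mem_wf.fix_eq]
  have h : ∃ b, (atom a : HF A) = atom b := ⟨a, rfl⟩
  rw [dif_pos h]
  congr 1
  exact congrArg (G.act g) (atom_injective h.choose_spec).symm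

theorem F_mk (s : Finset (HF A)) (g : E → ZMod p) : G.F (mk s) g =
    mk (s.biUnion fun y => ((Finset.univ : Finset (E → ZMod p)).filter fun g' =>
        G.Gd (G.sp (mk s) ∪ G.sp y) g' ∧ ∀ e ∈ G.sp (mk s), g' e = g e).image (G.F y)) := by
  rw [F, mem_wf.fix_eq]
  have h : ¬ ∃ b, (mk s : HF A) = atom b := by simp
  rw [dif_neg h]
  congr 1
  ext z
  simp only [Finset.mem_biUnion, Finset.mem_attach, true_and, Subtype.exists, elems_mk,
    Finset.mem_image, Finset.mem_filter, Finset.mem_univ]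
  constructor
  · rintro ⟨y, hy, g', hg', rfl⟩
    exact ⟨y, hy, g', hg', rfl⟩
  · rintro ⟨y, hy, g', hg', rfl⟩
    exact ⟨y, hy, g', hg', rfl⟩

theorem mem_F {x z : HF A} {g : E → ZMod p} : z ∈ G.F x g ↔ ∃ y, y ∈ x ∧ ∃ g',
    G.Gd (G.sp x ∪ G.sp y) g' ∧ (∀ e ∈ G.sp x, g' e = g e) ∧ z = G.F y g' := by
  rcases eq_atom_or_mk x with ⟨a, rfl⟩ | ⟨s, rfl⟩
  · rw [F_atom]
    constructor
    · intro h
      exact absurd h not_mem_atom
    · rintro ⟨y, hy, -⟩
      exact absurd hy not_mem_atom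
  · rw [F_mk, mem_mk]
    simp only [Finset.mem_biUnion, Finset.mem_image, Finset.mem_filter, Finset.mem_univ, true_and,
      mem_mk]
    constructor
    · rintro ⟨y, hy, g', ⟨h1, h2⟩, rfl⟩
      exact ⟨y, hy, g', h1, h2, rfl⟩
    · rintro ⟨y, hy, g', h1, h2, rfl⟩
      exact ⟨y, hy, g', ⟨h1, h2⟩, rfl⟩

theorem F_isSet {x : HF A} {g : E → ZMod p} (h : ∀ a, x ≠ atom a) (a : A) :
    G.F x g ≠ atom a := by
  rcases eq_atom_or_mk x with ⟨b, rfl⟩ | ⟨s, rfl⟩
  · exact absurd rfl (h b)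
  · rw [F_mk]
    simp

theorem sp_card {k : ℕ} {x : HF A} (h : G.HS k x) : (G.sp x).card ≤ k := by
  cases h with
  | atom a ha => rwa [sp_atom]
  | mk s hs _ => exact hs

theorem HS_of_mem {k : ℕ} {x y : HF A} (h : G.HS k x) (hy : y ∈ x) : G.HS k y := by
  cases h with
  | atom a ha => exact absurd hy not_mem_atom
  | mk s _ hs => exact hs y (mem_mk.mp hy)

theorem HS_mono {k k' : ℕ} (hk : k ≤ k') {x : HF A} (h : G.HS k x) : G.HS k' x := by
  induction h with
  | atom a ha => exact HS.atom a (ha.trans hk)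
  | mk s hs _ ih => exact HS.mk s (hs.trans hk) ih

theorem HS_hact {k : ℕ} (h : E → ZMod p) {x : HF A} (hx : G.HS k x) :
    G.HS k (G.hact h x) := by
  induction hx with
  | atom a ha =>
    rw [hact_atom]
    exact HS.atom _ (by rwa [G.ns_act])
  | mk s hs _ ih =>
    rw [hact_mk]
    refine HS.mk _ ?_ ?_
    · rw [← hact_mk, sp_hact]
      exact hs
    · intro y hy
      obtain ⟨z, hz, rfl⟩ := Finset.mem_image.mp hy
      exact ih z hz

theorem sp_of_inv {x : HF A} (h : ∀ g ∈ G.M, G.hact g x = x) : G.sp x = ∅ := by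
  rcases eq_atom_or_mk x with ⟨a, rfl⟩ | ⟨s, rfl⟩
  · rw [sp_atom]
    apply G.fix_ns
    intro g hg
    have := h g hg
    rw [hact_atom, atom_inj] at this
    exact this
  · have := G.sp_card_le (s := s) (S := ∅) (fun g hg _ => h g hg)
    simpa using this

end GS

/-- Two sets with the same elements are equal. -/
theorem _root_.MP5e5.HF.ext_set {A : Type} {x y : HF A} (hx : ∀ a, x ≠ atom a) (hy : ∀ a, y ≠ atom a)
    (h : ∀ z, z ∈ x ↔ z ∈ y) : x = y := by
  rcases eq_atom_or_mk x with ⟨a, rfl⟩ | ⟨s, rfl⟩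
  · exact absurd rfl (hx a)
  rcases eq_atom_or_mk y with ⟨a, rfl⟩ | ⟨t, rfl⟩
  · exact absurd rfl (hy a)
  congr 1
  ext z
  simpa using h z

end MP5e5.X
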