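import Pool.Agent.Lib.MP_5e5bb6_lc.X.Sym

/-!
# Geometric data and the gauge system of a complex
-/

open Classical

namespace MP5e5.X

open HF

variable {S L F C : Type} [Fintype S] [DecidableEq S] [Fintype L] [DecidableEq L] [Fintype F]
  [DecidableEq F] [Fintype C] [DecidableEq C]

/-- The coboundaries of the functions on the links. -/
def Cx.MM (K : Cx S L F C) : Submodule (ZMod 2) (F → ZMod 2) where
  carrier := {h | ∃ a, h = K.d1 a}
  zero_mem' := ⟨0, by funext f; simp [Cx.d1]⟩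
  add_mem' := by
    rintro _ _ ⟨a, rfl⟩ ⟨b, rfl⟩
    exact ⟨a + b, by funext f; simp [Cx.d1, Finset.sum_add_distrib]⟩
  smul_mem' := by
    rintro c _ ⟨a, rfl⟩
    exact ⟨c • a, by funext f; simp [Cx.d1, Finset.mul_sum]⟩

/-- The geometric properties of a complex which are used. -/
structure Geo (K : Cx S L F C) where
  /-- the width -/
  W : ℕ
  /-- the twist -/
  tau : C → ZMod 2
  /-- `Gd T g`: `g` solves the system with right-hand side `tau` except far away from `T` -/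
  Gd : Finset F → (F → ZMod 2) → Prop
  dd : ∀ a w, K.d2 (K.d1 a) w = 0
  anti : ∀ {T T' : Finset F} {g : F → ZMod 2}, T ⊆ T' → Gd T' g → Gd T g
  addM : ∀ {T : Finset F} {g h : F → ZMod 2}, h ∈ K.MM → Gd T g → Gd T (g + h)
  ext : ∀ {T T' : Finset F} {g : F → ZMod 2}, Gd T g → T ⊆ T' → T'.card < W →
    ∃ g', Gd T' g' ∧ ∀ e ∈ T, g' e = g e
  diff : ∀ {T : Finset F} {g g' : F → ZMod 2}, Gd T g → Gd T g' →
    ∃ h ∈ K.MM, ∀ e ∈ T, g e = g' e + h e
  ne : ∃ g, Gd ∅ g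
  loc : ∀ {T : Finset F} {g : F → ZMod 2}, Gd T g → ∀ w, (∀ k, K.fc w k ∈ T) →
    K.d2 g w = tau w
  cyc : ∀ f, ∃ a, K.d1 a f ≠ 0
  loc1 : ∀ B : Finset S, B.card < W → ∃ T : Finset F, T.card ≤ 3 * B.card ^ 3 ∧
    ∀ a, (∀ f ∈ T, K.d1 a f = 0) → ∃ a', K.d1 a' = K.d1 a ∧ ∀ l, K.ends l ⊆ B → a' l = 0

variable {K : Cx S L F C}

theorem Cx.act_add' (g g' : F → ZMod 2) (a : K.At) : K.act (g + g') a = K.act g (K.act g' a) := by
  rcases a with b | a | a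
  · rfl
  · simp only [Cx.act, Pi.add_apply]
    congr 3
    refine Prod.ext rfl (Prod.ext rfl ?_)
    simp only
    ring
  · simp only [Cx.act, Pi.add_apply]
    congr 3
    refine Prod.ext rfl (Prod.ext rfl (Prod.ext ?_ rfl))
    funext k
    simp only
    ring

theorem Cx.act_zero' (a : K.At) : K.act 0 a = a := by
  rcases a with b | a | a
  · rfl
  · simp [Cx.act]
  · simp [Cx.act]

theorem Cx.ns_card' (a : K.At) : (K.ns a).card ≤ 6 := by
  rcases a with b | a | a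
  · simp [Cx.ns]
  · simp [Cx.ns]
  · exact Finset.card_image_le

theorem Cx.ns_act' (g : F → ZMod 2) (a : K.At) : K.ns (K.act g a) = K.ns a := by
  rcases a with b | a | a <;> rfl

theorem Cx.act_congr' {g g' : F → ZMod 2} {a : K.At} (h : ∀ e ∈ K.ns a, g e = g' e) :
    K.act g a = K.act g' a := by
  rcases a with b | a | a
  · rfl
  · have h1 := h a.1.1 (by simp [Cx.ns])
    simp only [Cx.act, h1]
  · have h1 : ∀ k, g (K.fc a.1.1 k) = g' (K.fc a.1.1 k) := fun k =>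
      h _ (by simp [Cx.ns])
    simp only [Cx.act, h1]

theorem Cx.act_fix' {h : F → ZMod 2} {a : K.At} (ha : K.act h a = a) : ∀ e ∈ K.ns a, h e = 0 := by
  rcases a with b | a | a
  · intro e he
    simp [Cx.ns] at he
  · intro e he
    have he' : e = a.1.1 := by simpa [Cx.ns] using he
    subst he'
    have h1 : (⟨(a.1.1, a.1.2.1, a.1.2.2 + h a.1.1), a.2⟩ : K.Lit) = a :=
      Sum.inl.inj (Sum.inr.inj ha)
    have h2 : a.1.2.2 + h a.1.1 = a.1.2.2 := congrArg (fun t : K.Lit => t.1.2.2) h1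
    simpa using h2
  · intro e he
    have he' : ∃ k, K.fc a.1.1 k = e := by simpa [Cx.ns] using he
    obtain ⟨k, rfl⟩ := he'
    have h1 : (⟨(a.1.1, a.1.2.1, fun k => a.1.2.2.1 k + h (K.fc a.1.1 k), a.1.2.2.2), a.2⟩ : K.Ax) =
      a := Sum.inr.inj (Sum.inr.inj ha)
    have h2 : a.1.2.2.1 k + h (K.fc a.1.1 k) = a.1.2.2.1 k :=
      congrArg (fun t : K.Ax => t.1.2.2.1 k) h1
    simpa using h2

theorem Geo.fix_ns' (D : Geo K) (a : K.At) (ha : ∀ h ∈ K.MM, K.act h a = a) : K.ns a = ∅ := by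
  refine Finset.eq_empty_iff_forall_notMem.mpr fun e he => ?_
  obtain ⟨c, hc⟩ := D.cyc e
  exact hc (Cx.act_fix' (ha (K.d1 c) ⟨c, rfl⟩) e he)

theorem Cx.X7_two (x : ZMod 2) : x + x = 0 := by
  revert x
  decide

theorem Cx.X7_ns (g : F → ZMod 2) (a : K.At) : K.ns (K.act g a) = K.ns a := by
  rcases a with b | a | a <;> rfl

theorem Cx.X7_inv (g : F → ZMod 2) (a : K.At) : K.act g (K.act g a) = a := by
  rcases a with b | ⟨⟨f, s, x⟩, ha⟩ | ⟨⟨w, s, x, j⟩, ha⟩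
  · rfl
  · have h : x + g f + g f = x := by
      rw [add_assoc, Cx.X7_two, add_zero]
    show (Sum.inr (Sum.inl ⟨(f, s, x + g f + g f), ha⟩) : K.At) = _
    simp only [h]
  · have h : (fun k => x k + g (K.fc w k) + g (K.fc w k)) = x := by
      funext k
      rw [add_assoc, Cx.X7_two, add_zero]
    show (Sum.inr (Sum.inr ⟨(w, s, fun k => x k + g (K.fc w k) + g (K.fc w k), j), ha⟩) : K.At) = _
    simp only [h]

theorem Cx.X7_inp (g : F → ZMod 2) (w : C) (s : S → ZMod 2) (x : Fin 6 → ZMod 2) (j : Fin 4) :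
    K.act g (K.inp w s x j) = K.inp w s (fun k => x k + g (K.fc w k)) j := by
  fin_cases j <;> rfl

theorem Cx.X7_lit (g : F → ZMod 2) (f : F) (s : S → ZMod 2) (x : ZMod 2) :
    K.act g (K.lit f s (x + 1)) = K.lit f s (x + g f + 1) := by
  rw [K.act_lit, add_right_comm]

theorem Cx.X7_aux_ns (w : C) (s : S → ZMod 2) (x : Fin 6 → ZMod 2) (j : Fin 5 × Fin 3) (k : Fin 6) :
    K.fc w k ∈ K.ns (K.aux w s x j) :=
  Finset.mem_image_of_mem _ (Finset.mem_univ k)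

theorem Cx.X7_fwd {g : F → ZMod 2} {b b' : C → ZMod 2} {a₁ a₂ a₃ : K.At} (hR : K.Rel b a₁ a₂ a₃)
    (hb : ∀ w, (∀ k, K.fc w k ∈ K.ns a₃) → b' w = b w + K.d2 g w) :
    K.Rel b' (K.act g a₁) (K.act g a₂) (K.act g a₃) := by
  rcases hR with ⟨rfl, rfl, rfl⟩ | ⟨f, s, x, rfl, rfl, rfl⟩ | ⟨w, s, x, hx, h⟩
  · exact Or.inl ⟨rfl, rfl, rfl⟩
  · exact Or.inr (Or.inl ⟨f, s, x + g f, K.act_lit g f s x, Cx.X7_lit g f s x, rfl⟩)
  · have hw : ∀ k, K.fc w k ∈ K.ns a₃ := by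
      intro k
      rcases h with ⟨j, -, -, rfl⟩ | ⟨j, -, -, rfl⟩ | ⟨-, -, rfl⟩ <;> exact Cx.X7_aux_ns _ _ _ _ _
    have hx' : ∑ k, (x k + g (K.fc w k)) ≠ b' w := by
      rw [hb w hw, Finset.sum_add_distrib]
      intro he
      exact hx (add_right_cancel he)
    refine Or.inr (Or.inr ⟨w, s, fun k => x k + g (K.fc w k), hx', ?_⟩)
    rcases h with ⟨j, rfl, rfl, rfl⟩ | ⟨j, rfl, rfl, rfl⟩ | ⟨rfl, rfl, rfl⟩
    · exact Or.inl ⟨j, Cx.X7_inp g w s x j, rfl, rfl⟩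
    · exact Or.inr (Or.inl ⟨j, Cx.X7_lit g _ s _, rfl, rfl⟩)
    · exact Or.inr (Or.inr ⟨rfl, rfl, rfl⟩)

theorem Geo.R0_inv' (D : Geo K) {h : F → ZMod 2} (hM : h ∈ K.MM) (a b c : K.At) :
    K.Rel 0 (K.act h a) (K.act h b) (K.act h c) ↔ K.Rel 0 a b c := by
  obtain ⟨a₀, rfl⟩ := hM
  have key : ∀ {a₁ a₂ a₃ : K.At}, K.Rel 0 a₁ a₂ a₃ →
      K.Rel 0 (K.act (K.d1 a₀) a₁) (K.act (K.d1 a₀) a₂) (K.act (K.d1 a₀) a₃) := by
    intro a₁ a₂ a₃ hR
    refine Cx.X7_fwd hR fun w _ => ?_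
    rw [D.dd, add_zero]
  refine ⟨fun hR => ?_, key⟩
  have h2 := key hR
  rwa [Cx.X7_inv, Cx.X7_inv, Cx.X7_inv] at h2

theorem Geo.R_tr' (D : Geo K) {T : Finset F} {g : F → ZMod 2} (hg : D.Gd T g) (a b c : K.At)
    (ha : K.ns a ⊆ T) (hb : K.ns b ⊆ T) (hc : K.ns c ⊆ T) :
    K.Rel D.tau (K.act g a) (K.act g b) (K.act g c) ↔ K.Rel 0 a b c := by
  constructor
  · intro hR
    have h2 : K.Rel 0 (K.act g (K.act g a)) (K.act g (K.act g b)) (K.act g (K.act g c)) := by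
      refine Cx.X7_fwd hR fun w hw => ?_
      rw [Cx.X7_ns] at hw
      rw [D.loc hg w fun k => hc (hw k), Cx.X7_two]
      rfl
    rwa [Cx.X7_inv, Cx.X7_inv, Cx.X7_inv] at h2
  · intro hR
    refine Cx.X7_fwd hR fun w hw => ?_
    rw [D.loc hg w fun k => hc (hw k)]
    exact (zero_add _).symm

/-- The gauge system of a complex. -/
def Geo.gs (D : Geo K) : GS 2 F K.At where
  W := D.W
  M := K.MM
  Gd := D.Gd
  anti := D.anti
  addM := D.addM
  ext := D.ext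
  diff := D.diff
  ne := D.ne
  act := K.act
  act_add := Cx.act_add'
  act_zero := Cx.act_zero'
  ns := K.ns
  ns_card := Cx.ns_card'
  ns_act := Cx.ns_act'
  act_congr := Cx.act_congr'
  act_fix := Cx.act_fix'
  fix_ns := D.fix_ns'
  R0 := K.Rel 0
  R1 := K.Rel D.tau
  R0_inv := D.R0_inv'
  R_tr := D.R_tr'

end MP5e5.X
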