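import Pool.Agent.Lib.MP_5e5bb6_lc.X.Geo

/-!
# The three-dimensional torus
-/

open Classical

namespace MP5e5.X

open HF

/-- The sites. -/
abbrev Sit (r : ℕ) : Type := Fin 3 → ZMod r

/-- The unit vectors. -/
def ee {r : ℕ} (i : Fin 3) : Sit r := Pi.single i 1

/-- The cubical complex of the three-dimensional torus.  The link `(v, i)` joins `v` and
`v + ee i`, the face `(v, i)` is the square at `v` perpendicular to the direction `i`, and the
cell `v` is the cube at `v`. -/
def lat (r : ℕ) : Cx (Sit r) (Sit r × Fin 3) (Sit r × Fin 3) (Sit r) where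
  ends l := {l.1, l.1 + ee l.2}
  lk f := ![(f.1, f.2 + 1), (f.1 + ee (f.2 + 2), f.2 + 1), (f.1, f.2 + 2),
    (f.1 + ee (f.2 + 1), f.2 + 2)]
  fc w := ![(w, 0), (w + ee 0, 0), (w, 1), (w + ee 1, 1), (w, 2), (w + ee 2, 2)]

variable {r : ℕ}

theorem lat_d1 (a : Sit r × Fin 3 → ZMod 2) (f : Sit r × Fin 3) :
    (lat r).d1 a f = a (f.1, f.2 + 1) + a (f.1 + ee (f.2 + 2), f.2 + 1) + a (f.1, f.2 + 2) +
      a (f.1 + ee (f.2 + 1), f.2 + 2) := by
  simp [Cx.d1, lat, Fin.sum_univ_succ]
  ring

theorem lat_d2 (g : Sit r × Fin 3 → ZMod 2) (w : Sit r) :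
    (lat r).d2 g w = ∑ i, (g (w, i) + g (w + ee i, i)) := by
  simp only [Cx.d2, lat, Fin.sum_univ_six, Fin.sum_univ_three]
  simp
  ring

theorem lat_dd (a : Sit r × Fin 3 → ZMod 2) (w : Sit r) : (lat r).d2 ((lat r).d1 a) w = 0 := by
  rw [lat_d2]
  simp only [lat_d1, Fin.sum_univ_three]
  have e1 : (0 : Fin 3) + 1 = 1 := rfl
  have e2 : (0 : Fin 3) + 2 = 2 := rfl
  have e3 : (1 : Fin 3) + 1 = 2 := rfl
  have e4 : (1 : Fin 3) + 2 = 0 := rfl
  have e5 : (2 : Fin 3) + 1 = 0 := rfl
  have e6 : (2 : Fin 3) + 2 = 1 := rfl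
  simp only [e1, e2, e3, e4, e5, e6]
  have c1 : w + ee (1 : Fin 3) + ee 0 = w + ee 0 + ee 1 := by abel
  have c2 : w + ee (2 : Fin 3) + ee 0 = w + ee 0 + ee 2 := by abel
  have c3 : w + ee (2 : Fin 3) + ee 1 = w + ee 1 + ee 2 := by abel
  rw [c1, c2, c3]
  have h2 : (2 : ZMod 2) = 0 := by decide
  ring_nf
  simp [h2]

/-- Every solution of a linear system on the torus has right-hand side with sum `0`. -/
theorem lat_closed [NeZero r] (g : Sit r × Fin 3 → ZMod 2) : ∑ w, (lat r).d2 g w = 0 := by
  simp only [lat_d2]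
  rw [Finset.sum_comm]
  refine Finset.sum_eq_zero fun i _ => ?_
  rw [Finset.sum_add_distrib]
  have h : ∑ w : Sit r, g (w + ee i, i) = ∑ w : Sit r, g (w, i) :=
    Fintype.sum_equiv (Equiv.addRight (ee i)) _ _ fun w => rfl
  rw [h]
  exact CharTwo.add_self_eq_zero _

theorem lat_cyc (hr : 1 < r) (f : Sit r × Fin 3) : ∃ a, (lat r).d1 a f ≠ 0 := by
  have : Fact (1 < r) := ⟨hr⟩
  obtain ⟨v, i⟩ := f
  refine ⟨Pi.single (v, i + 1) 1, ?_⟩
  rw [lat_d1]
  have h1 : v + ee (i + 2) ≠ v := by
    intro h
    have := congrFun h (i + 2)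
    simp [ee] at this
  have h2 : ∀ i : Fin 3, i + 2 ≠ i + 1 := by decide
  simp [Prod.ext_iff, h1, h2 i]

/-- The faces between the cell `update w i 0` and the cell `w` (in direction `i`). -/
def pre (i : Fin 3) (w : Sit r) (f : Sit r × Fin 3) : ZMod 2 :=
  if f.2 = i ∧ 0 < (f.1 i).val ∧ (f.1 i).val ≤ (w i).val ∧ ∀ j, j ≠ i → f.1 j = w j then 1 else 0

theorem X14.arith [NeZero r] (a b : ZMod r) :
    ((if 0 < a.val ∧ a.val ≤ b.val then 1 else 0) +
      (if 0 < (a + 1).val ∧ (a + 1).val ≤ b.val then 1 else 0) : ZMod 2) =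
    (if a = 0 then 1 else 0) + (if a = b then 1 else 0) := by
  have ha := ZMod.val_lt a
  have hb := ZMod.val_lt b
  have e0 : (a = 0) ↔ a.val = 0 := (ZMod.val_eq_zero a).symm
  have e1 : (a = b) ↔ a.val = b.val := ⟨fun h => by rw [h], fun h => ZMod.val_injective r h⟩
  have h2 : (1 : ZMod 2) + 1 = 0 := by decide
  have hv : (a + 1).val = if a.val + 1 < r then a.val + 1 else 0 := by
    rcases Nat.lt_or_ge (a.val + 1) r with h | h
    · rw [if_pos h]
      have h1 : (1 : ZMod r).val = 1 := by
        have : Fact (1 < r) := ⟨by omega⟩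
        exact ZMod.val_one r
      rw [ZMod.val_add_of_lt (by rw [h1]; exact h), h1]
    · rw [if_neg (not_lt.mpr h)]
      have h3 : a.val + 1 = r := by omega
      have h4 : a + 1 = 0 := by
        have h5 : ((a.val + 1 : ℕ) : ZMod r) = 0 := by
          rw [h3]; exact ZMod.natCast_self r
        rw [Nat.cast_add, ZMod.natCast_val, ZMod.cast_id, Nat.cast_one] at h5
        exact h5
      rw [h4, ZMod.val_zero]
  simp only [e0, e1, hv]
  generalize a.val = x at *
  generalize b.val = y at *
  by_cases h : x + 1 < r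
  · rw [if_pos h]
    rcases Nat.eq_zero_or_pos x with hx | hx
    · subst hx
      by_cases hy : y = 0
      · subst hy
        simp [h2]
      · have : 1 ≤ y := Nat.one_le_iff_ne_zero.mpr hy
        simp [this, Ne.symm hy]
    · by_cases hxy : x ≤ y
      · rcases Nat.lt_or_ge x y with h6 | h6
        · rw [if_pos ⟨hx, hxy⟩, if_pos ⟨by omega, by omega⟩, if_neg (by omega), if_neg (by omega), h2]
          rfl
        · rw [if_pos ⟨hx, hxy⟩, if_neg (by omega), if_neg (by omega), if_pos (by omega)]
          ring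
      · rw [if_neg (by omega), if_neg (by omega), if_neg (by omega), if_neg (by omega)]
  · rw [if_neg h]
    rcases Nat.eq_zero_or_pos x with hx | hx
    · have : y = 0 := by omega
      subst hx
      subst this
      simp [h2]
    · by_cases hxy : x = y
      · rw [if_pos ⟨hx, by omega⟩, if_neg (by omega), if_neg (by omega), if_pos hxy]
        ring
      · rw [if_neg (by omega), if_neg (by omega), if_neg (by omega), if_neg hxy]

theorem d2_pre [NeZero r] (i : Fin 3) (w v : Sit r) : (lat r).d2 (pre i w) v =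
    (if v = Function.update w i 0 then 1 else 0) + (if v = w then 1 else 0) := by
  rw [lat_d2]
  rw [Finset.sum_eq_single i]
  · have hj : ∀ j, j ≠ i → (v + ee i : Sit r) j = v j := fun j hj => by
      simp [ee, Pi.single_eq_of_ne hj]
    have hi : (v + ee i : Sit r) i = v i + 1 := by simp [ee]
    by_cases h : ∀ j, j ≠ i → v j = w j
    · have e1 : pre i w (v, i) = if 0 < (v i).val ∧ (v i).val ≤ (w i).val then 1 else 0 := by
        simp only [pre]
        refine if_congr ?_ rfl rfl
        exact ⟨fun h => ⟨h.2.1, h.2.2.1⟩, fun h' => ⟨trivial, h'.1, h'.2, h⟩⟩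
      have e2 : pre i w (v + ee i, i) =
          if 0 < (v i + 1).val ∧ (v i + 1).val ≤ (w i).val then 1 else 0 := by
        simp only [pre, hi]
        refine if_congr ?_ rfl rfl
        exact ⟨fun h => ⟨h.2.1, h.2.2.1⟩, fun h' => ⟨trivial, h'.1, h'.2, fun j hji => by
          rw [hj j hji]; exact h j hji⟩⟩
      rw [e1, e2, X14.arith]
      congr 1
      · refine if_congr ?_ rfl rfl
        constructor
        · intro h0
          funext j
          by_cases hji : j = i
          · subst hji
            simp [h0]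
          · rw [Function.update_of_ne hji, h j hji]
        · intro h0
          rw [h0]; simp
      · refine if_congr ?_ rfl rfl
        constructor
        · intro h0
          funext j
          by_cases hji : j = i
          · subst hji
            exact h0
          · exact h j hji
        · intro h0
          rw [h0]
    · have e1 : pre i w (v, i) = 0 := by
        simp only [pre]
        exact if_neg fun h' => h h'.2.2.2
      have e2 : pre i w (v + ee i, i) = 0 := by
        simp only [pre]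
        refine if_neg fun h' => h fun j hji => ?_
        rw [← hj j hji]
        exact h'.2.2.2 j hji
      rw [e1, e2, if_neg, if_neg]
      · intro h0
        exact h fun j _ => by rw [h0]
      · intro h0
        exact h fun j hji => by rw [h0, Function.update_of_ne hji]
  · intro j _ hji
    simp [pre, hji]
  · intro h
    exact absurd (Finset.mem_univ i) h

/-- The indicator of the half-open interval. -/
def X15_J (x y : ZMod r) : ZMod 2 := if 0 < x.val ∧ x.val ≤ y.val then 1 else 0

theorem X15_aux [NeZero r] (x y : ZMod r) : X15_J x y + X15_J (x + 1) y =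
    (if x = 0 then 1 else 0) + (if x = y then 1 else 0) := by
  unfold X15_J
  have hx := ZMod.val_lt x
  have hy := ZMod.val_lt y
  have h0 : x = 0 ↔ x.val = 0 := (ZMod.val_eq_zero x).symm
  have hxy : x = y ↔ x.val = y.val := ⟨fun h => by rw [h], fun h => ZMod.val_injective r h⟩
  have h1 : (x + 1).val = if x.val + 1 = r then 0 else x.val + 1 := by
    rcases Nat.lt_or_ge 1 r with hr | hr
    · have : Fact (1 < r) := ⟨hr⟩
      rw [ZMod.val_add, ZMod.val_one]
      split_ifs with h
      · rw [h, Nat.mod_self]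
      · exact Nat.mod_eq_of_lt (by omega)
    · have : (x+1).val < r := ZMod.val_lt _
      rw [if_pos (by omega)]
      omega
  have h2 : (1 : ZMod 2) + 1 = 0 := by decide
  simp only [h0, hxy, h1]
  split_ifs <;> first | rfl | omega

theorem X15_fin {i j k : Fin 3} (hij : i ≠ j) (hik : i ≠ k) (hjk : j ≠ k) (m : Fin 3) :
    m = i ∨ m = j ∨ m = k := by
  revert i j k m
  decide

theorem X15_pre {i j k : Fin 3} (hij : i ≠ j) (hik : i ≠ k) (hjk : j ≠ k) (w : Sit r)
    (f : Sit r × Fin 3) : pre i w f = if f.2 = i then X15_J (f.1 i) (w i) *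
      (if f.1 j = w j then 1 else 0) * (if f.1 k = w k then 1 else 0) else 0 := by
  unfold pre X15_J
  have hall : (∀ m, m ≠ i → f.1 m = w m) ↔ (f.1 j = w j ∧ f.1 k = w k) := by
    constructor
    · intro h
      exact ⟨h j hij.symm, h k hik.symm⟩
    · rintro ⟨h1, h2⟩ m hm
      rcases X15_fin hij hik hjk m with rfl | rfl | rfl
      · exact absurd rfl hm
      · exact h1
      · exact h2
  simp only [hall]
  by_cases c1 : f.2 = i <;> by_cases c2 : f.1 j = w j <;> by_cases c3 : f.1 k = w k <;>
    simp [c1, c2, c3]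

theorem X15_d1 (a : Sit r × Fin 3 → ZMod 2) {i j k : Fin 3} (hij : i ≠ j) (hik : i ≠ k)
    (hjk : j ≠ k) (v : Sit r) : (lat r).d1 a (v, i) = (a (v, k) + a (v + ee j, k)) +
      (a (v, j) + a (v + ee k, j)) := by
  rw [lat_d1]
  have : (j = i + 1 ∧ k = i + 2) ∨ (j = i + 2 ∧ k = i + 1) := by
    revert i j k
    decide
  rcases this with ⟨rfl, rfl⟩ | ⟨rfl, rfl⟩
  · simp only
    ring
  · simp only
    ring

theorem X15_half [NeZero r] {i j k : Fin 3} (hij : i ≠ j) (hik : i ≠ k) (hjk : j ≠ k)
    (w v : Sit r) (a : Sit r × Fin 3 → ZMod 2) (ha : a = fun l => if l.2 = k then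
      X15_J (l.1 i) (w i) * X15_J (l.1 j) (w j) * (if l.1 k = w k then 1 else 0) else 0) :
    (pre i (Function.update w j 0) + pre i w + pre j w + pre j (Function.update w i 0)) (v, i) =
      (lat r).d1 a (v, i) := by
  have e1 : (pre j w) (v, i) = 0 := by
    rw [X15_pre hij.symm hjk hik, if_neg]
    exact hij
  have e2 : (pre j (Function.update w i 0)) (v, i) = 0 := by
    rw [X15_pre hij.symm hjk hik, if_neg]
    exact hij
  rw [Pi.add_apply, Pi.add_apply, Pi.add_apply, e1, e2, add_zero, add_zero,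
    X15_pre hij hik hjk, X15_pre hij hik hjk, X15_d1 a hij hik hjk, ha]
  have hji : j ≠ i := hij.symm
  have hki : k ≠ i := hik.symm
  have hkj : k ≠ j := hjk.symm
  simp only [if_true, Function.update_self, Function.update_of_ne hij, Function.update_of_ne hkj,
    Pi.add_apply, ee, Pi.single_eq_same, Pi.single_eq_of_ne hij, Pi.single_eq_of_ne hkj, add_zero,
    if_neg hjk]
  have h := X15_aux (v j) (w j)
  linear_combination (-X15_J (v i) (w i) * (if v k = w k then 1 else 0)) * h

/-- Rectangles. -/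
theorem rect [NeZero r] {i j : Fin 3} (hij : i ≠ j) (w : Sit r) :
    pre i (Function.update w j 0) + pre i w + pre j w + pre j (Function.update w i 0) ∈
      (lat r).MM := by
  obtain ⟨k, hik, hjk⟩ : ∃ k : Fin 3, i ≠ k ∧ j ≠ k := by
    revert i j
    decide
  refine ⟨fun l => if l.2 = k then X15_J (l.1 i) (w i) * X15_J (l.1 j) (w j) *
    (if l.1 k = w k then 1 else 0) else 0, ?_⟩
  funext ⟨v, m⟩
  rcases X15_fin hij hik hjk m with rfl | rfl | rfl
  · exact X15_half hij hik hjk w v _ rfl
  · have h := X15_half hij.symm hjk hik w v _ rfl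
    rw [show pre i (Function.update w m 0) + pre i w + pre m w + pre m (Function.update w i 0) =
      pre m (Function.update w i 0) + pre m w + pre i w + pre i (Function.update w m 0) by
        abel, h]
    congr 1
    funext l
    by_cases hl : l.2 = k
    · simp only [hl, if_true]
      ring
    · simp only [hl, if_false]
  · rw [Pi.add_apply, Pi.add_apply, Pi.add_apply,
      X15_pre hij hik hjk, X15_pre hij hik hjk, X15_pre hij.symm hjk hik,
      X15_pre hij.symm hjk hik, X15_d1 _ hik.symm hjk.symm hij]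
    have hi : ¬ (m = i) := fun h => hik h.symm
    have hj : ¬ (m = j) := fun h => hjk h.symm
    have hi' : ¬ (i = m) := fun h => hik h
    have hj' : ¬ (j = m) := fun h => hjk h
    simp only [if_neg hi, if_neg hj, if_neg hi', if_neg hj', add_zero]

/-- The standard string from the cell `0` to the cell `w`. -/
def str (w : Sit r) : Sit r × Fin 3 → ZMod 2 :=
  pre 0 (Function.update (Function.update w 1 0) 2 0) + pre 1 (Function.update w 2 0) + pre 2 w

theorem X14.d2_add (g h : Sit r × Fin 3 → ZMod 2) (v : Sit r) :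
    (lat r).d2 (g + h) v = (lat r).d2 g v + (lat r).d2 h v := by
  simp only [Cx.d2, Pi.add_apply, Finset.sum_add_distrib]

theorem d2_str [NeZero r] (w v : Sit r) : (lat r).d2 (str w) v =
    (if v = 0 then 1 else 0) + (if v = w then 1 else 0) := by
  rw [str, X14.d2_add, X14.d2_add, d2_pre, d2_pre, d2_pre]
  have e0 : Function.update (Function.update (Function.update w 1 0) 2 0) 0 0 = (0 : Sit r) := by
    funext j
    fin_cases j <;> simp
  have e1 : Function.update (Function.update w 2 0) 1 0 =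
      Function.update (Function.update w 1 0) 2 0 := by
    funext j
    fin_cases j <;> simp
  rw [e0, e1]
  have h2 : ∀ x : ZMod 2, x + x = 0 := by decide
  generalize (if v = Function.update (Function.update w 1 0) 2 0 then (1 : ZMod 2) else 0) = A
  generalize (if v = Function.update w 2 0 then (1 : ZMod 2) else 0) = B
  generalize (if v = 0 then (1 : ZMod 2) else 0) = C
  generalize (if v = w then (1 : ZMod 2) else 0) = D
  have : C + A + (A + B) + (B + D) = C + D + (A + A) + (B + B) := by ring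
  rw [this, h2, h2, add_zero, add_zero]

/-- The string from the cell `w` to the cell `w'`. -/
def path (w w' : Sit r) : Sit r × Fin 3 → ZMod 2 :=
  pre 0 ![w' 0, w 1, w 2] + pre 0 w + (pre 1 ![w' 0, w' 1, w 2] + pre 1 ![w' 0, w 1, w 2]) +
    (pre 2 w' + pre 2 ![w' 0, w' 1, w 2])

theorem X16_pre {i : Fin 3} {w : Sit r} {f : Sit r × Fin 3} (h : pre i w f ≠ 0) {j : Fin 3}
    (hj : j ≠ i) : f.1 j = w j := by
  unfold pre at h
  split_ifs at h with hc
  · exact hc.2.2.2 j hj
  · exact absurd rfl h

theorem path_ne {w w' : Sit r} {f : Sit r × Fin 3} (h : path w w' f ≠ 0) :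
    f.1 2 = w 2 ∨ f.1 0 = w' 0 := by
  by_contra hc
  push Not at hc
  obtain ⟨h2, h0⟩ := hc
  apply h
  have a1 : pre 0 ![w' 0, w 1, w 2] f = 0 := by
    by_contra hp
    exact h2 (by simpa using X16_pre hp (j := 2) (by decide))
  have a2 : pre 0 w f = 0 := by
    by_contra hp
    exact h2 (by simpa using X16_pre hp (j := 2) (by decide))
  have a3 : pre 1 ![w' 0, w' 1, w 2] f = 0 := by
    by_contra hp
    exact h2 (by simpa using X16_pre hp (j := 2) (by decide))
  have a4 : pre 1 ![w' 0, w 1, w 2] f = 0 := by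
    by_contra hp
    exact h2 (by simpa using X16_pre hp (j := 2) (by decide))
  have a5 : pre 2 w' f = 0 := by
    by_contra hp
    exact h0 (by simpa using X16_pre hp (j := 0) (by decide))
  have a6 : pre 2 ![w' 0, w' 1, w 2] f = 0 := by
    by_contra hp
    exact h0 (by simpa using X16_pre hp (j := 0) (by decide))
  simp only [path, Pi.add_apply, a1, a2, a3, a4, a5, a6, add_zero]

theorem X16_u0 (a b c : ZMod r) : Function.update (![a, b, c] : Sit r) 0 0 = ![0, b, c] := by
  funext i
  fin_cases i <;> simp [Function.update]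

theorem X16_u1 (a b c : ZMod r) : Function.update (![a, b, c] : Sit r) 1 0 = ![a, 0, c] := by
  funext i
  fin_cases i <;> simp [Function.update]

theorem X16_u2 (a b c : ZMod r) : Function.update (![a, b, c] : Sit r) 2 0 = ![a, b, 0] := by
  funext i
  fin_cases i <;> simp [Function.update]

theorem X16_eta (w : Sit r) : w = ![w 0, w 1, w 2] := by
  funext i
  fin_cases i <;> simp

theorem str_path [NeZero r] (w w' : Sit r) : str w + path w w' + str w' ∈ (lat r).MM := by
  obtain ⟨x, y, z, rfl⟩ : ∃ x y z, w = ![x, y, z] := ⟨w 0, w 1, w 2, X16_eta w⟩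
  obtain ⟨x', y', z', rfl⟩ : ∃ x y z, w' = ![x, y, z] := ⟨w' 0, w' 1, w' 2, X16_eta w'⟩
  have r1 := rect (r := r) (i := 1) (j := 2) (by decide) ![x', y', z]
  have r2 := rect (r := r) (i := 1) (j := 2) (by decide) ![x', y, z]
  have r3 := rect (r := r) (i := 0) (j := 2) (by decide) ![x', y, z]
  have r4 := rect (r := r) (i := 0) (j := 2) (by decide) ![x, y, z]
  have r5 := rect (r := r) (i := 0) (j := 1) (by decide) ![x, y, 0]
  have r6 := rect (r := r) (i := 0) (j := 1) (by decide) ![x', y, 0]
  rw [X16_u2, X16_u1] at r1 r2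
  rw [X16_u2, X16_u0] at r3 r4
  rw [X16_u1, X16_u0] at r5 r6
  have key := add_mem (add_mem (add_mem (add_mem (add_mem r1 r2) r3) r4) r5) r6
  have h2 : (2 : Sit r × Fin 3 → ZMod 2) = 0 := by
    funext f
    show (2 : ZMod 2) = 0
    decide
  have e : str ![x, y, z] + path ![x, y, z] ![x', y', z'] + str ![x', y', z'] =
      pre 1 ![x', y', 0] + pre 1 ![x', y', z] + pre 2 ![x', y', z] + pre 2 ![x', 0, z] +
      (pre 1 ![x', y, 0] + pre 1 ![x', y, z] + pre 2 ![x', y, z] + pre 2 ![x', 0, z]) +
      (pre 0 ![x', y, 0] + pre 0 ![x', y, z] + pre 2 ![x', y, z] + pre 2 ![0, y, z]) +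
      (pre 0 ![x, y, 0] + pre 0 ![x, y, z] + pre 2 ![x, y, z] + pre 2 ![0, y, z]) +
      (pre 0 ![x, 0, 0] + pre 0 ![x, y, 0] + pre 1 ![x, y, 0] + pre 1 ![0, y, 0]) +
      (pre 0 ![x', 0, 0] + pre 0 ![x', y, 0] + pre 1 ![x', y, 0] + pre 1 ![0, y, 0]) := by
    have s1 : str ![x, y, z] = pre 0 ![x, 0, 0] + pre 1 ![x, y, 0] + pre 2 ![x, y, z] := by
      unfold str
      rw [X16_u1, X16_u2, X16_u2]
    have s2 : str ![x', y', z'] = pre 0 ![x', 0, 0] + pre 1 ![x', y', 0] + pre 2 ![x', y', z'] := by
      unfold str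
      rw [X16_u1, X16_u2, X16_u2]
    have s3 : path ![x, y, z] ![x', y', z'] = pre 0 ![x', y, z] + pre 0 ![x, y, z] +
        (pre 1 ![x', y', z] + pre 1 ![x', y, z]) + (pre 2 ![x', y', z'] + pre 2 ![x', y', z]) := rfl
    rw [s1, s2, s3]
    linear_combination (pre 2 ![x', y', z'] - pre 1 ![x', y, 0] - pre 2 ![x', y, z] -
      pre 2 ![x', 0, z] - pre 2 ![0, y, z] - pre 0 ![x, y, 0] - pre 0 ![x', y, 0] -
      pre 1 ![0, y, 0]) * h2
  rw [e]
  exact key

/-- The cell `w` is far away from the faces in `T`. -/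
def Free (T : Finset (Sit r × Fin 3)) (w : Sit r) : Prop := ∀ f ∈ T, ∀ i, f.1 i ≠ w i

theorem exists_free [NeZero r] {T : Finset (Sit r × Fin 3)} (hT : T.card < r) :
    ∃ w, Free T w := by
  have h : ∀ i : Fin 3, ∃ x : ZMod r, ∀ f ∈ T, f.1 i ≠ x := by
    intro i
    by_contra hc
    push Not at hc
    have h1 : (Finset.univ : Finset (ZMod r)) ⊆ T.image fun f => f.1 i := by
      intro x _
      obtain ⟨f, hf, he⟩ := hc x
      exact Finset.mem_image.2 ⟨f, hf, he⟩
    have h2 := (Finset.card_le_card h1).trans Finset.card_image_le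
    rw [Finset.card_univ, ZMod.card] at h2
    omega
  choose w hw using h
  exact ⟨w, fun f hf i => hw i f hf⟩

/-- `g` differs by a coboundary from the string to a cell far away from `T`. -/
def GdL (T : Finset (Sit r × Fin 3)) (g : Sit r × Fin 3 → ZMod 2) : Prop :=
  ∃ w, Free T w ∧ g + str w ∈ (lat r).MM

theorem Y17_zero_of_free {T : Finset (Sit r × Fin 3)} {w w' : Sit r} (h : Free T w)
    (h' : Free T w') {e : Sit r × Fin 3} (he : e ∈ T) : path w w' e = 0 := by
  by_contra hne
  rcases path_ne hne with h1 | h1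
  · exact h e he 2 h1
  · exact h' e he 0 h1

theorem Y17_add_self (g : Sit r × Fin 3 → ZMod 2) : g + g = 0 := by
  funext f
  exact CharTwo.add_self_eq_zero (g f)

theorem GdL_addM {T : Finset (Sit r × Fin 3)} {g h : Sit r × Fin 3 → ZMod 2}
    (hM : h ∈ (lat r).MM) (hg : GdL T g) : GdL T (g + h) := by
  obtain ⟨w, hw, hm⟩ := hg
  refine ⟨w, hw, ?_⟩
  have : g + h + str w = (g + str w) + h := by abel
  rw [this]
  exact (lat r).MM.add_mem hm hM

theorem GdL_ext [NeZero r] {T T' : Finset (Sit r × Fin 3)} {g : Sit r × Fin 3 → ZMod 2}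
    (hg : GdL T g) (hT : T ⊆ T') (hT' : T'.card < r) : ∃ g', GdL T' g' ∧ ∀ e ∈ T, g' e = g e := by
  obtain ⟨w, hw, hm⟩ := hg
  obtain ⟨w', hw'⟩ := exists_free hT'
  refine ⟨g + path w w', ⟨w', hw', ?_⟩, ?_⟩
  · have : g + path w w' + str w' = (g + str w) + (str w + path w w' + str w') := by
      have h2 := Y17_add_self (str w)
      calc g + path w w' + str w' = g + path w w' + str w' + 0 := by rw [add_zero]
        _ = g + path w w' + str w' + (str w + str w) := by rw [h2]
        _ = _ := by abel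
    rw [this]
    exact (lat r).MM.add_mem hm (str_path w w')
  · intro e he
    have := Y17_zero_of_free hw (fun f hf => hw' f (hT hf)) he
    simp [this]

theorem GdL_diff [NeZero r] {T : Finset (Sit r × Fin 3)} {g g' : Sit r × Fin 3 → ZMod 2}
    (hg : GdL T g) (hg' : GdL T g') : ∃ h ∈ (lat r).MM, ∀ e ∈ T, g e = g' e + h e := by
  obtain ⟨w, hw, hm⟩ := hg
  obtain ⟨w', hw', hm'⟩ := hg'
  refine ⟨(g + str w) + (g' + str w') + (str w + path w w' + str w'),
    (lat r).MM.add_mem ((lat r).MM.add_mem hm hm') (str_path w w'), ?_⟩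
  intro e he
  have h0 := Y17_zero_of_free hw hw' he
  simp only [Pi.add_apply, h0]
  have h1 := CharTwo.add_self_eq_zero (str w e)
  have h2 := CharTwo.add_self_eq_zero (str w' e)
  have h3 := CharTwo.add_self_eq_zero (g' e)
  linear_combination -h1 - h2 - h3

theorem GdL_loc [NeZero r] {T : Finset (Sit r × Fin 3)} {g : Sit r × Fin 3 → ZMod 2}
    (hg : GdL T g) (w : Sit r) (hw : ∀ k, (lat r).fc w k ∈ T) :
    (lat r).d2 g w = if w = 0 then 1 else 0 := by
  obtain ⟨w', hw', ⟨a, ha⟩⟩ := hg
  have hne : w ≠ w' := by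
    rintro rfl
    exact hw' _ (hw 0) 0 rfl
  have h1 : (lat r).d2 (g + str w') w = 0 := by
    rw [ha]
    exact lat_dd a w
  have h2 : (lat r).d2 (g + str w') w = (lat r).d2 g w + (lat r).d2 (str w') w := by
    simp only [Cx.d2, Pi.add_apply, Finset.sum_add_distrib]
  rw [h2, d2_str, if_neg hne, add_zero] at h1
  have h3 := CharTwo.add_self_eq_zero (if w = 0 then (1 : ZMod 2) else 0)
  linear_combination h1 - h3

end MP5e5.X
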