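import Pool.Agent.Lib.MP_5e5bb6_lc.X.Lat

/-!
# Local exactness on the torus
-/

open Classical

namespace MP5e5.X

variable {r : ℕ}

theorem val_add_one_aux [NeZero r] (a : ZMod r) (h : a + 1 ≠ 0) : (a + 1).val = a.val + 1 := by
  have h1 : a + 1 = ((a.val + 1 : ℕ) : ZMod r) := by
    push_cast
    rw [ZMod.natCast_zmod_val]
  have hlt : a.val < r := ZMod.val_lt a
  have h2 : a.val + 1 < r := by
    rcases Nat.lt_or_ge (a.val + 1) r with h3 | h3
    · exact h3
    · exfalso
      have h4 : a.val + 1 = r := by omega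
      apply h
      rw [h1, h4]
      exact ZMod.natCast_self r
  rw [h1, ZMod.val_natCast, Nat.mod_eq_of_lt h2]

/-- Integration in direction `i`: the function `c` has a primitive in direction `i` on a proper
subset `X` of the coordinates, and the primitive has the invariance properties of `c`. -/
theorem exists_prim [NeZero r] (i : Fin 3) (X : Finset (ZMod r)) (hX : X ≠ Finset.univ)
    (c : Sit r → ZMod 2) : ∃ φ : Sit r → ZMod 2,
      (∀ v, v i ∈ X → v i + 1 ∈ X → φ v + φ (v + ee i) = c v) ∧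
      ∀ j, j ≠ i → ∀ v : Sit r, (∀ x, x ∈ X → x + 1 ∈ X →
        c (Function.update v i x) = c (Function.update v i x + ee j)) → φ v = φ (v + ee j) := by
  obtain ⟨p, hp⟩ : ∃ p, p ∉ X := by
    by_contra hcon
    push Not at hcon
    exact hX (Finset.eq_univ_iff_forall.mpr hcon)
  set c' : Sit r → ZMod 2 := fun v => if v i ∈ X ∧ v i + 1 ∈ X then c v else 0 with hc'
  refine ⟨fun v => ∑ m ∈ Finset.range (v i - p).val, c' (Function.update v i (p + (m : ZMod r))),
    ?_, ?_⟩
  · intro v hv hv1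
    have hei : (v + ee i : Sit r) i = v i + 1 := by
      simp [ee]
    have hne : v i - p + 1 ≠ 0 := by
      intro h
      apply hp
      have : p = v i + 1 := by
        linear_combination -h
      rw [this]
      exact hv1
    have hval : ((v + ee i : Sit r) i - p).val = (v i - p).val + 1 := by
      rw [hei, show v i + 1 - p = v i - p + 1 by ring]
      exact val_add_one_aux _ hne
    have hupd : ∀ x, Function.update (v + ee i : Sit r) i x = Function.update v i x := by
      intro x
      funext k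
      by_cases hk : k = i
      · subst hk
        simp
      · simp [Function.update_of_ne hk, ee, Pi.single_eq_of_ne hk]
    have hlast : Function.update v i (p + (((v i - p).val : ℕ) : ZMod r)) = v := by
      rw [ZMod.natCast_zmod_val, add_sub_cancel]
      exact Function.update_eq_self i v
    show (∑ m ∈ Finset.range (v i - p).val, c' (Function.update v i (p + (m : ZMod r)))) +
      (∑ m ∈ Finset.range ((v + ee i : Sit r) i - p).val,
        c' (Function.update (v + ee i : Sit r) i (p + (m : ZMod r)))) = c v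
    rw [hval, Finset.sum_range_succ]
    simp only [hupd]
    rw [hlast, ← add_assoc, CharTwo.add_self_eq_zero, zero_add, hc']
    simp [hv, hv1]
  · intro j hj v h
    have hei : (v + ee j : Sit r) i = v i := by
      simp [ee, Pi.single_eq_of_ne (Ne.symm hj)]
    have hupd : ∀ x, Function.update (v + ee j : Sit r) i x = Function.update v i x + ee j := by
      intro x
      funext k
      by_cases hk : k = i
      · subst hk
        simp [ee, Pi.single_eq_of_ne (Ne.symm hj)]
      · simp [Function.update_of_ne hk]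
    show (∑ m ∈ Finset.range (v i - p).val, c' (Function.update v i (p + (m : ZMod r)))) =
      (∑ m ∈ Finset.range ((v + ee j : Sit r) i - p).val,
        c' (Function.update (v + ee j : Sit r) i (p + (m : ZMod r))))
    rw [hei]
    refine Finset.sum_congr rfl fun m _ => ?_
    rw [hupd]
    have h1 : (Function.update v i (p + (m : ZMod r)) + ee j : Sit r) i = p + (m : ZMod r) := by
      simp [ee, Pi.single_eq_of_ne (Ne.symm hj)]
    simp only [hc', h1, Function.update_self]
    split_ifs with h2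
    · exact h _ h2.1 h2.2
    · rfl

theorem x19_ee_apply (i j : Fin 3) : (ee i : Sit r) j = if j = i then 1 else 0 := by
  simp [ee, Pi.single_apply]

theorem x19_cf_box (X : Fin 3 → Finset (ZMod r)) (v : Sit r) (k : Fin 3) (hv : ∀ i, v i ∈ X i)
    (h1 : v (k + 1) + 1 ∈ X (k + 1)) (h2 : v (k + 2) + 1 ∈ X (k + 2)) :
    ∀ u ∈ (lat r).cf (v, k), ∀ i, u i ∈ X i := by
  intro u hu i
  have hi : ∀ i : Fin 3, u i = v i ∨ (i ≠ k ∧ u i = v i + 1) := by
    intro i
    simp only [Cx.cf, Finset.mem_biUnion, Finset.mem_univ, true_and] at hu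
    obtain ⟨m, hm⟩ := hu
    have hk : ∀ k : Fin 3, k + 1 ≠ k ∧ k + 2 ≠ k ∧ k + 1 ≠ k + 2 := by decide
    obtain ⟨k1, k2, k3⟩ := hk k
    fin_cases m
    · simp only [lat, Finset.mem_insert, Finset.mem_singleton] at hm
      rcases hm with hm | hm
      · left; rw [hm]; rfl
      · by_cases h : i = k + 1
        · right; rw [hm]; subst h
          refine ⟨k1, ?_⟩
          simp [x19_ee_apply]
        · left; rw [hm]
          simp [x19_ee_apply, h]
    · simp only [lat, Finset.mem_insert, Finset.mem_singleton] at hm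
      rcases hm with hm | hm
      · by_cases h : i = k + 2
        · right; rw [hm]; subst h
          refine ⟨k2, ?_⟩
          simp [x19_ee_apply]
        · left; rw [hm]
          simp [x19_ee_apply, h]
      · by_cases h : i = k + 2
        · right; rw [hm]; subst h
          refine ⟨k2, ?_⟩
          simp [x19_ee_apply, k3.symm]
        · by_cases h' : i = k + 1
          · right; rw [hm]; subst h'
            refine ⟨k1, ?_⟩
            simp [x19_ee_apply, k3]
          · left; rw [hm]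
            simp [x19_ee_apply, h, h']
    · simp only [lat, Finset.mem_insert, Finset.mem_singleton] at hm
      rcases hm with hm | hm
      · left; rw [hm]; rfl
      · by_cases h : i = k + 2
        · right; rw [hm]; subst h
          refine ⟨k2, ?_⟩
          simp [x19_ee_apply]
        · left; rw [hm]
          simp [x19_ee_apply, h]
    · simp only [lat, Finset.mem_insert, Finset.mem_singleton] at hm
      rcases hm with hm | hm
      · by_cases h : i = k + 1
        · right; rw [hm]; subst h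
          refine ⟨k1, ?_⟩
          simp [x19_ee_apply]
        · left; rw [hm]
          simp [x19_ee_apply, h]
      · by_cases h : i = k + 2
        · right; rw [hm]; subst h
          refine ⟨k2, ?_⟩
          simp [x19_ee_apply, k3.symm]
        · by_cases h' : i = k + 1
          · right; rw [hm]; subst h'
            refine ⟨k1, ?_⟩
            simp [x19_ee_apply, k3]
          · left; rw [hm]
            simp [x19_ee_apply, h, h']
  rcases hi i with h | ⟨h, h'⟩
  · rw [h]; exact hv i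
  · have hk : ∀ i k : Fin 3, i ≠ k → i = k + 1 ∨ i = k + 2 := by decide
    rw [h']
    rcases hk i k h with h'' | h''
    · rw [h'']; exact h1
    · rw [h'']; exact h2

theorem x19_d1_pot (a : Sit r × Fin 3 → ZMod 2) (φ : Sit r → ZMod 2) (f : Sit r × Fin 3) :
    (lat r).d1 (fun l => a l + (φ l.1 + φ (l.1 + ee l.2))) f = (lat r).d1 a f := by
  rw [lat_d1, lat_d1]
  simp only
  rw [add_right_comm f.1 (ee (f.2 + 2)) (ee (f.2 + 1))]
  generalize φ f.1 = x1
  generalize φ (f.1 + ee (f.2 + 1)) = x2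
  generalize φ (f.1 + ee (f.2 + 2)) = x3
  generalize φ (f.1 + ee (f.2 + 1) + ee (f.2 + 2)) = x4
  generalize a (f.1, f.2 + 1) = y1
  generalize a (f.1 + ee (f.2 + 2), f.2 + 1) = y2
  generalize a (f.1, f.2 + 2) = y3
  generalize a (f.1 + ee (f.2 + 1), f.2 + 2) = y4
  revert x1 x2 x3 x4 y1 y2 y3 y4
  decide

/-- A function on the links which is closed on the faces with all corners in a box
`X 0 × X 1 × X 2` is exact on the links with both ends in the box. -/
theorem exists_pot [NeZero r] (X : Fin 3 → Finset (ZMod r)) (hX : ∀ i, X i ≠ Finset.univ)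
    (a : Sit r × Fin 3 → ZMod 2)
    (ha : ∀ f : Sit r × Fin 3, (∀ v ∈ (lat r).cf f, ∀ i, v i ∈ X i) → (lat r).d1 a f = 0) :
    ∃ φ : Sit r → ZMod 2, ∀ l : Sit r × Fin 3, (∀ i, l.1 i ∈ X i) →
      (∀ i, (l.1 + ee l.2 : Sit r) i ∈ X i) → a l = φ l.1 + φ (l.1 + ee l.2) := by
  have z2 : ∀ x y : ZMod 2, x + y = 0 → x = y := by decide
  have z2' : ∀ x y : ZMod 2, x = y → x + y = 0 := by decide
  -- direction 0
  obtain ⟨φ0, hφ0, -⟩ := exists_prim 0 (X 0) (hX 0) (fun v => a (v, 0))
  set a1 : Sit r × Fin 3 → ZMod 2 := fun l => a l + (φ0 l.1 + φ0 (l.1 + ee l.2)) with ha1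
  have h10 : ∀ v : Sit r, v 0 ∈ X 0 → v 0 + 1 ∈ X 0 → a1 (v, 0) = 0 := by
    intro v hv hv'
    simp only [ha1]
    exact z2' _ _ (hφ0 v hv hv').symm
  have hcl1 : ∀ (v : Sit r) (k : Fin 3), (∀ i, v i ∈ X i) → v (k + 1) + 1 ∈ X (k + 1) →
      v (k + 2) + 1 ∈ X (k + 2) → (lat r).d1 a1 (v, k) = 0 := by
    intro v k hv h1 h2
    rw [ha1, x19_d1_pot]
    exact ha _ (x19_cf_box X v k hv h1 h2)
  -- the function on the links in direction 1
  have e1 : ∀ v : Sit r, (∀ i, v i ∈ X i) → v 0 + 1 ∈ X 0 → v 1 + 1 ∈ X 1 →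
      a1 (v, 1) = a1 (v + ee 0, 1) := by
    intro v hv h0 h1
    have h := hcl1 v 2 hv h0 h1
    rw [lat_d1] at h
    simp only [show (2 : Fin 3) + 1 = 0 from rfl, show (2 : Fin 3) + 2 = 1 from rfl] at h
    rw [h10 v (hv 0) h0, h10 (v + ee 1) (by simpa [x19_ee_apply] using hv 0)
      (by simpa [x19_ee_apply] using h0)] at h
    apply z2
    simpa using h
  obtain ⟨φ1, hφ1, hφ1'⟩ := exists_prim 1 (X 1) (hX 1) (fun v => a1 (v, 1))
  have e1' : ∀ v : Sit r, v 0 ∈ X 0 → v 0 + 1 ∈ X 0 → v 2 ∈ X 2 → φ1 v = φ1 (v + ee 0) := by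
    intro v h0 h0' h2
    refine hφ1' 0 (by decide) v ?_
    intro x hx hx'
    refine e1 _ ?_ ?_ ?_
    · intro i
      fin_cases i
      · simpa [Function.update_apply] using h0
      · simpa [Function.update_apply] using hx
      · simpa [Function.update_apply] using h2
    · simpa [Function.update_apply] using h0'
    · simpa [Function.update_apply] using hx'
  set a2 : Sit r × Fin 3 → ZMod 2 := fun l => a1 l + (φ1 l.1 + φ1 (l.1 + ee l.2)) with ha2
  have h20 : ∀ v : Sit r, v 0 ∈ X 0 → v 0 + 1 ∈ X 0 → v 2 ∈ X 2 → a2 (v, 0) = 0 := by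
    intro v hv hv' h2
    simp only [ha2]
    rw [h10 v hv hv', zero_add]
    exact z2' _ _ (e1' v hv hv' h2)
  have h21 : ∀ v : Sit r, v 1 ∈ X 1 → v 1 + 1 ∈ X 1 → a2 (v, 1) = 0 := by
    intro v hv hv'
    simp only [ha2]
    exact z2' _ _ (hφ1 v hv hv').symm
  have hcl2 : ∀ (v : Sit r) (k : Fin 3), (∀ i, v i ∈ X i) → v (k + 1) + 1 ∈ X (k + 1) →
      v (k + 2) + 1 ∈ X (k + 2) → (lat r).d1 a2 (v, k) = 0 := by
    intro v k hv h1 h2
    rw [ha2, x19_d1_pot]
    exact hcl1 v k hv h1 h2
  have e20 : ∀ v : Sit r, (∀ i, v i ∈ X i) → v 0 + 1 ∈ X 0 → v 2 + 1 ∈ X 2 →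
      a2 (v, 2) = a2 (v + ee 0, 2) := by
    intro v hv h0 h2
    have h := hcl2 v 1 hv h2 h0
    rw [lat_d1] at h
    simp only [show (1 : Fin 3) + 1 = 2 from rfl, show (1 : Fin 3) + 2 = 0 from rfl] at h
    rw [h20 v (hv 0) h0 (hv 2), h20 (v + ee 2) (by simpa [x19_ee_apply] using hv 0)
      (by simpa [x19_ee_apply] using h0) (by simpa [x19_ee_apply] using h2)] at h
    apply z2
    simpa using h
  have e21 : ∀ v : Sit r, (∀ i, v i ∈ X i) → v 1 + 1 ∈ X 1 → v 2 + 1 ∈ X 2 →
      a2 (v, 2) = a2 (v + ee 1, 2) := by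
    intro v hv h1 h2
    have h := hcl2 v 0 hv h1 h2
    rw [lat_d1] at h
    simp only [show (0 : Fin 3) + 1 = 1 from rfl, show (0 : Fin 3) + 2 = 2 from rfl] at h
    rw [h21 v (hv 1) h1, h21 (v + ee 2) (by simpa [x19_ee_apply] using hv 1)
      (by simpa [x19_ee_apply] using h1)] at h
    apply z2
    simpa using h
  obtain ⟨φ2, hφ2, hφ2'⟩ := exists_prim 2 (X 2) (hX 2) (fun v => a2 (v, 2))
  have e20' : ∀ v : Sit r, v 0 ∈ X 0 → v 0 + 1 ∈ X 0 → v 1 ∈ X 1 → φ2 v = φ2 (v + ee 0) := by
    intro v h0 h0' h1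
    refine hφ2' 0 (by decide) v ?_
    intro x hx hx'
    refine e20 _ ?_ ?_ ?_
    · intro i
      fin_cases i
      · simpa [Function.update_apply] using h0
      · simpa [Function.update_apply] using h1
      · simpa [Function.update_apply] using hx
    · simpa [Function.update_apply] using h0'
    · simpa [Function.update_apply] using hx'
  have e21' : ∀ v : Sit r, v 0 ∈ X 0 → v 1 ∈ X 1 → v 1 + 1 ∈ X 1 → φ2 v = φ2 (v + ee 1) := by
    intro v h0 h1 h1'
    refine hφ2' 1 (by decide) v ?_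
    intro x hx hx'
    refine e21 _ ?_ ?_ ?_
    · intro i
      fin_cases i
      · simpa [Function.update_apply] using h0
      · simpa [Function.update_apply] using h1
      · simpa [Function.update_apply] using hx
    · simpa [Function.update_apply] using h1'
    · simpa [Function.update_apply] using hx'
  refine ⟨fun v => φ0 v + φ1 v + φ2 v, ?_⟩
  rintro ⟨v, k⟩ hv hv'
  simp only at hv hv'
  have fin : ∀ p q s t u w y : ZMod 2, y + (p + q) + (s + t) + (u + w) = 0 →
      y = p + s + u + (q + t + w) := by decide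
  apply fin
  have hk : v k + 1 ∈ X k := by simpa [x19_ee_apply] using hv' k
  change a2 (v, k) + (φ2 v + φ2 (v + ee k)) = 0
  fin_cases k
  · change a2 (v, 0) + (φ2 v + φ2 (v + ee 0)) = 0
    change v 0 + 1 ∈ X 0 at hk
    rw [h20 v (hv 0) hk (hv 2), zero_add]
    exact z2' _ _ (e20' v (hv 0) hk (hv 1))
  · change a2 (v, 1) + (φ2 v + φ2 (v + ee 1)) = 0
    change v 1 + 1 ∈ X 1 at hk
    rw [h21 v (hv 1) hk, zero_add]
    exact z2' _ _ (e21' v (hv 0) (hv 1) hk)
  · change a2 (v, 2) + (φ2 v + φ2 (v + ee 2)) = 0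
    change v 2 + 1 ∈ X 2 at hk
    exact z2' _ _ (hφ2 v (hv 2) hk).symm

theorem lat_loc1 [NeZero r] (B : Finset (Sit r)) (hB : B.card < r) :
    ∃ T : Finset (Sit r × Fin 3), T.card ≤ 3 * B.card ^ 3 ∧
    ∀ a, (∀ f ∈ T, (lat r).d1 a f = 0) → ∃ a', (lat r).d1 a' = (lat r).d1 a ∧
      ∀ l, (lat r).ends l ⊆ B → a' l = 0 := by
  set X : Fin 3 → Finset (ZMod r) := fun i => B.image (fun v => v i) with hXdef
  have hXc : ∀ i, (X i).card ≤ B.card := fun i => Finset.card_image_le
  have hX : ∀ i, X i ≠ Finset.univ := by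
    intro i h
    have h1 := hXc i
    rw [h, Finset.card_univ, ZMod.card] at h1
    omega
  refine ⟨Finset.univ.filter (fun f => ∀ v ∈ (lat r).cf f, ∀ i, v i ∈ X i), ?_, ?_⟩
  · have hsub : (Finset.univ.filter
        (fun f : Sit r × Fin 3 => ∀ v ∈ (lat r).cf f, ∀ i, v i ∈ X i)) ⊆
        (Fintype.piFinset X) ×ˢ (Finset.univ : Finset (Fin 3)) := by
      intro f hf
      rw [Finset.mem_filter] at hf
      rw [Finset.mem_product]
      refine ⟨?_, Finset.mem_univ _⟩
      rw [Fintype.mem_piFinset]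
      apply hf.2
      unfold Cx.cf
      rw [Finset.mem_biUnion]
      refine ⟨0, Finset.mem_univ _, ?_⟩
      simp [lat]
    refine le_trans (Finset.card_le_card hsub) ?_
    rw [Finset.card_product, Finset.card_univ, Fintype.card_fin, Fintype.card_piFinset, mul_comm]
    refine Nat.mul_le_mul le_rfl ?_
    calc ∏ i, (X i).card ≤ ∏ _i : Fin 3, B.card := Finset.prod_le_prod' (fun i _ => hXc i)
      _ = B.card ^ 3 := by simp
  · intro a ha
    obtain ⟨φ, hφ⟩ := exists_pot X hX a (fun f hf => ha f (by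
      rw [Finset.mem_filter]
      exact ⟨Finset.mem_univ _, hf⟩))
    have h2 : ∀ x : ZMod 2, x + x = 0 := fun x => CharTwo.add_self_eq_zero x
    refine ⟨fun l => a l + (φ l.1 + φ (l.1 + ee l.2)), ?_, ?_⟩
    · funext f
      rw [lat_d1, lat_d1]
      have e1 : f.1 + ee (f.2 + 2) + ee (f.2 + 1) = f.1 + ee (f.2 + 1) + ee (f.2 + 2) := by
        rw [add_right_comm]
      simp only
      rw [e1]
      have key : ∀ a1 a2 a3 a4 p q s t : ZMod 2,
          a1 + (p + q) + (a2 + (s + t)) + (a3 + (p + s)) + (a4 + (q + t)) =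
          a1 + a2 + a3 + a4 := by
        intro a1 a2 a3 a4 p q s t
        have h3 : a1 + (p + q) + (a2 + (s + t)) + (a3 + (p + s)) + (a4 + (q + t)) =
          a1 + a2 + a3 + a4 + ((p + p) + (q + q) + (s + s) + (t + t)) := by ring
        rw [h3]
        simp only [h2, add_zero]
      exact key _ _ _ _ _ _ _ _
    · intro l hl
      have hm : ∀ v ∈ B, ∀ i, v i ∈ X i := fun v hv i => Finset.mem_image_of_mem _ hv
      have h3 : l.1 ∈ B := hl (by simp [lat])
      have h4 : l.1 + ee l.2 ∈ B := hl (by simp [lat])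
      have h5 := hφ l (hm _ h3) (hm _ h4)
      simp only
      rw [← h5]
      exact h2 _

/-- The geometric data of the torus. -/
def latGeo (r : ℕ) [NeZero r] (hr : 1 < r) : Geo (lat r) where
  W := r
  tau := fun w => if w = 0 then 1 else 0
  Gd := GdL
  dd := lat_dd
  anti := by
    rintro T T' g hTT ⟨w, hw, h⟩
    exact ⟨w, fun f hf => hw f (hTT hf), h⟩
  addM := GdL_addM
  ext := GdL_ext
  diff := GdL_diff
  ne := ⟨str 0, 0, by simp [Free], by
    have : (str (0 : Sit r) + str 0 : Sit r × Fin 3 → ZMod 2) = 0 := by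
      funext f
      exact CharTwo.add_self_eq_zero (str (0 : Sit r) f)
    rw [this]
    exact (lat r).MM.zero_mem⟩
  loc := GdL_loc
  cyc := lat_cyc hr
  loc1 := lat_loc1

theorem X21_cf [NeZero r] (f : Sit r × Fin 3) : ((lat r).cf f).card ≤ 8 := by
  unfold Cx.cf
  refine Finset.card_biUnion_le.trans ?_
  refine (Finset.sum_le_card_nsmul _ _ 2 ?_).trans ?_
  · intro m _
    exact Finset.card_le_two
  · simp

theorem X21_cc [NeZero r] (w : Sit r) : ((lat r).cc w).card ≤ 48 := by
  unfold Cx.cc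
  refine Finset.card_biUnion_le.trans ?_
  refine (Finset.sum_le_card_nsmul _ _ 8 ?_).trans ?_
  · intro m _
    exact X21_cf _
  · simp

theorem X21_sub {D : Finset (Sit r)} {s s' : Sit r → ZMod 2} (h : ∀ v, v ∉ D → s v = 0)
    (h' : ∀ v, v ∉ D → s' v = 0) (e : (fun v : D => s v) = fun v : D => s' v) : s = s' := by
  funext v
  by_cases hv : v ∈ D
  · exact congrFun e ⟨v, hv⟩
  · rw [h v hv, h' v hv]

theorem X21_pow {D : Finset (Sit r)} {k : ℕ} (h : D.card ≤ k) :
    Fintype.card (D → ZMod 2) ≤ 2 ^ k := by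
  rw [Fintype.card_fun, ZMod.card, Fintype.card_coe]
  exact Nat.pow_le_pow_right (by norm_num) h

theorem X21_Lit [NeZero r] : Fintype.card (lat r).Lit ≤ 3 * r ^ 3 * 2 ^ 9 := by
  let φ : (lat r).Lit → Σ f : Sit r × Fin 3, (((lat r).cf f → ZMod 2) × ZMod 2) :=
    fun a => ⟨a.1.1, (fun v => a.1.2.1 v), a.1.2.2⟩
  have hφ : Function.Injective φ := by
    rintro ⟨⟨f, s, x⟩, h⟩ ⟨⟨f', s', x'⟩, h'⟩ e
    simp only [φ, Sigma.mk.injEq] at e
    obtain ⟨rfl, e⟩ := e
    have e2 := eq_of_heq e
    rw [Prod.mk.injEq] at e2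
    obtain ⟨e3, rfl⟩ := e2
    have e4 := X21_sub h h' e3
    subst e4
    rfl
  refine (Fintype.card_le_of_injective φ hφ).trans ?_
  rw [Fintype.card_sigma]
  refine (Finset.sum_le_card_nsmul _ _ (2 ^ 9) ?_).trans ?_
  · intro f _
    rw [Fintype.card_prod, ZMod.card]
    calc _ ≤ 2 ^ 8 * 2 := Nat.mul_le_mul_right _ (X21_pow (X21_cf f))
      _ = 2 ^ 9 := by norm_num
  · simp [Fintype.card_prod, ZMod.card, mul_comm]

theorem X21_Ax [NeZero r] : Fintype.card (lat r).Ax ≤ r ^ 3 * 2 ^ 58 := by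
  let φ : (lat r).Ax → Σ w : Sit r, (((lat r).cc w → ZMod 2) × (Fin 6 → ZMod 2) ×
      (Fin 5 × Fin 3)) :=
    fun a => ⟨a.1.1, (fun v => a.1.2.1 v), a.1.2.2⟩
  have hφ : Function.Injective φ := by
    rintro ⟨⟨f, s, x⟩, h⟩ ⟨⟨f', s', x'⟩, h'⟩ e
    simp only [φ, Sigma.mk.injEq] at e
    obtain ⟨rfl, e⟩ := e
    have e2 := eq_of_heq e
    rw [Prod.mk.injEq] at e2
    obtain ⟨e3, rfl⟩ := e2
    have e4 := X21_sub h h' e3
    subst e4
    rfl
  refine (Fintype.card_le_of_injective φ hφ).trans ?_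
  rw [Fintype.card_sigma]
  refine (Finset.sum_le_card_nsmul _ _ (2 ^ 58) ?_).trans ?_
  · intro w _
    have h6 : Fintype.card (Fin 6 → ZMod 2) = 2 ^ 6 := by
      rw [Fintype.card_fun, ZMod.card, Fintype.card_fin]
    rw [Fintype.card_prod, Fintype.card_prod, Fintype.card_prod, h6, Fintype.card_fin,
      Fintype.card_fin]
    calc _ ≤ 2 ^ 48 * (2 ^ 6 * (5 * 3)) := Nat.mul_le_mul_right _ (X21_pow (X21_cc w))
      _ ≤ 2 ^ 58 := by norm_num
  · simp [ZMod.card]

theorem card_At_ge [NeZero r] : r ≤ Fintype.card (lat r).At := by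
  let φ : ZMod r → (lat r).At := fun x => Sum.inr (Sum.inl ⟨((fun _ => x, 0), 0, 0),
    fun _ _ => rfl⟩)
  have hφ : Function.Injective φ := by
    intro x y e
    simp only [φ, Sum.inr.injEq, Sum.inl.injEq, Subtype.mk.injEq, Prod.mk.injEq, and_true] at e
    exact congrFun e 0
  calc r = Fintype.card (ZMod r) := (ZMod.card r).symm
    _ ≤ _ := Fintype.card_le_of_injective φ hφ

theorem card_At_le [NeZero r] : Fintype.card (lat r).At ≤ 2 ^ 60 * r ^ 3 := by
  have h1 := X21_Lit (r := r)
  have h2 := X21_Ax (r := r)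
  have h3 : 1 ≤ r ^ 3 := Nat.one_le_pow _ _ (NeZero.pos r)
  have h4 : Fintype.card (lat r).At =
      2 + (Fintype.card (lat r).Lit + Fintype.card (lat r).Ax) := by
    rw [Fintype.card_sum, Fintype.card_sum, Fintype.card_bool]
  rw [h4]
  norm_num at h1 h2 ⊢
  linarith

end MP5e5.X
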