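import Pool.Agent.Lib.MP_5e5bb6_lc.X.Cx

/-!
# Satisfiability of the instances
-/

open Classical

namespace MP5e5.X

open HF

variable {S L F C : Type} [Fintype S] [DecidableEq S] [Fintype L] [DecidableEq L] [Fintype F]
  [DecidableEq F] [Fintype C] [DecidableEq C] (K : Cx S L F C)

/-- `y = 0` as a Boolean. -/
noncomputable def x11z (y : ZMod 2) : Bool := decide (y = 0)

theorem x11z_add (y : ZMod 2) : x11z (y + 1) = !x11z y := by
  have h2 : (1 : ZMod 2) + 1 = 0 := by rfl
  have h : y = 0 ∨ y = 1 := by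
    fin_cases y
    · exact Or.inl rfl
    · exact Or.inr rfl
  rcases h with rfl | rfl <;> simp [x11z, h2]

/-- The value of the input number `j` of the chain. -/
noncomputable def x11p (x : Fin 6 → ZMod 2) : Fin 5 → Bool
  | 0 => x11z (x 0)
  | 1 => x11z (x 0) && x11z (x 1)
  | 2 => x11z (x 0) && x11z (x 1) && x11z (x 2)
  | 3 => x11z (x 0) && x11z (x 1) && x11z (x 2) && x11z (x 3)
  | 4 => x11z (x 0) && x11z (x 1) && x11z (x 2) && x11z (x 3) && x11z (x 4)

/-- The values of the auxiliary atoms. -/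
noncomputable def x11u (x : Fin 6 → ZMod 2) (j : Fin 5) : Fin 3 → Bool
  | 0 => !x11p x j && !x11z (x j.succ)
  | 1 => !x11p x j && x11z (x j.succ)
  | 2 => x11p x j && x11z (x j.succ)

/-- The solution of the homogeneous instance. -/
noncomputable def x11g : K.At → Bool
  | Sum.inl b => b
  | Sum.inr (Sum.inl a) => x11z a.1.2.2
  | Sum.inr (Sum.inr a) => x11u a.1.2.2.1 a.1.2.2.2.1 a.1.2.2.2.2

theorem x11g_lit (f : F) (s : S → ZMod 2) (x : ZMod 2) : x11g K (K.lit f s x) = x11z x := rfl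

theorem x11g_aux (w : C) (s : S → ZMod 2) (x : Fin 6 → ZMod 2) (j : Fin 5) (i : Fin 3) :
    x11g K (K.aux w s x (j, i)) = x11u x j i := rfl

theorem x11g_inp (w : C) (s : S → ZMod 2) (x : Fin 6 → ZMod 2) (j : Fin 4) :
    x11g K (K.inp w s x j) = x11p x j.castSucc := by
  fin_cases j <;> rfl

theorem x11_one (p l : Bool) : OneInThree p (!p && !l) (!p && l) := by
  cases p <;> cases l <;> simp [OneInThree]

theorem x11_two (p l : Bool) : OneInThree (!l) (!p && l) (p && l) := by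
  cases p <;> cases l <;> simp [OneInThree]

theorem x11_three (p l : Bool) (h : ¬ (p = true ∧ l = true)) : OneInThree l p (!p && !l) := by
  cases p <;> cases l <;> simp_all [OneInThree]

/-- The homogeneous instance is satisfiable. -/
theorem sat_zero : Sat (K.Rel 0) := by
  refine ⟨x11g K, ?_⟩
  rintro a₁ a₂ a₃ (⟨rfl, rfl, rfl⟩ | ⟨f, s, x, rfl, rfl, rfl⟩ |
    ⟨w, s, x, hx, (⟨j, rfl, rfl, rfl⟩ | ⟨j, rfl, rfl, rfl⟩ | ⟨rfl, rfl, rfl⟩)⟩)
  · exact Or.inl ⟨rfl, rfl, rfl⟩
  · rw [x11g_lit, x11g_lit, x11z_add]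
    have h : x11g K (K.cst false) = false := rfl
    rw [h]
    cases x11z x <;> simp [OneInThree]
  · rw [x11g_inp, x11g_aux, x11g_aux]
    exact x11_one _ _
  · rw [x11g_lit, x11g_aux, x11g_aux, x11z_add]
    exact x11_two (x11p x j.castSucc) (x11z (x j.castSucc.succ))
  · rw [x11g_lit, x11g_aux, x11g_aux]
    refine x11_three (x11p x 4) (x11z (x 5)) fun h => hx ?_
    obtain ⟨h1, h2⟩ := h
    simp only [x11p, Bool.and_eq_true, x11z, decide_eq_true_eq] at h1 h2
    obtain ⟨⟨⟨⟨h3, h4⟩, h5⟩, h6⟩, h7⟩ := h1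
    have h8 : ∀ k, x k = 0 := by
      intro k
      fin_cases k
      · exact h3
      · exact h4
      · exact h5
      · exact h6
      · exact h7
      · exact h2
    simp [h8]

/-- A solution of the instance gives a solution of the linear system. -/
theorem sol_of_sat {b : C → ZMod 2} (h : Sat (K.Rel b)) : ∃ t : F → ZMod 2, ∀ w, K.d2 t w = b w := by
  obtain ⟨f, hf⟩ := h
  have h0 : f (K.cst false) = false := by
    have h1 := hf (K.cst false) (K.cst false) (K.cst true) (Or.inl ⟨rfl, rfl, rfl⟩)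
    unfold OneInThree at h1
    rcases h1 with h | h | h
    · exact h.1
    · exact h.1
    · exact h.2.1
  have hl : ∀ (φ : F) (x : ZMod 2), f (K.lit φ 0 (x + 1)) = !(f (K.lit φ 0 x)) := by
    intro φ x
    have h1 := hf (K.lit φ 0 x) (K.lit φ 0 (x + 1)) (K.cst false) (Or.inr (Or.inl ⟨φ, 0, x, rfl, rfl, rfl⟩))
    unfold OneInThree at h1
    rw [h0] at h1
    rcases h1 with h | h | h
    · exact absurd h.2.2 (by decide)
    · rw [h.1, h.2.1]; rfl
    · rw [h.1, h.2.1]; rfl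
  have hz : ∀ x : ZMod 2, x = 0 ∨ x = 1 := by decide
  have hcase : ∀ φ : F, ∃ x : ZMod 2, f (K.lit φ 0 x) = true := by
    intro φ
    by_cases h : f (K.lit φ 0 0) = true
    · exact ⟨0, h⟩
    · refine ⟨0 + 1, ?_⟩
      rw [hl φ 0]
      simpa using h
  choose t ht using hcase
  refine ⟨t, fun w => ?_⟩
  by_contra hne
  set x : Fin 6 → ZMod 2 := fun k => t (K.fc w k) with hx
  have hsum : ∑ k, x k ≠ b w := hne
  have htrue : ∀ k, f (K.lit (K.fc w k) 0 (x k)) = true := fun k => ht _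
  have hfalse : ∀ k, f (K.lit (K.fc w k) 0 (x k + 1)) = false := fun k => by
    rw [hl, htrue]; rfl
  have hstep : ∀ j : Fin 4, f (K.inp w 0 x j) = true → f (K.aux w 0 x (j.castSucc, 2)) = true := by
    intro j hj
    have h1 := hf (K.inp w 0 x j) (K.aux w 0 x (j.castSucc, 0)) (K.aux w 0 x (j.castSucc, 1))
      (Or.inr (Or.inr ⟨w, 0, x, hsum, Or.inl ⟨j, rfl, rfl, rfl⟩⟩))
    have h2 := hf (K.lit (K.fc w j.succ.castSucc) 0 (x j.succ.castSucc + 1))
      (K.aux w 0 x (j.castSucc, 1)) (K.aux w 0 x (j.castSucc, 2))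
      (Or.inr (Or.inr ⟨w, 0, x, hsum, Or.inr (Or.inl ⟨j, rfl, rfl, rfl⟩)⟩))
    unfold OneInThree at h1 h2
    rw [hj] at h1
    have h3 : f (K.aux w 0 x (j.castSucc, 1)) = false := by
      rcases h1 with h | h | h
      · exact absurd h.1 (by decide)
      · exact absurd h.1 (by decide)
      · exact h.2.2
    rw [h3, hfalse] at h2
    rcases h2 with h | h | h
    · exact h.2.2
    · exact absurd h.2.1 (by decide)
    · exact absurd h.1 (by decide)
  have i0 : f (K.inp w 0 x 0) = true := htrue 0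
  have i1 : f (K.inp w 0 x 1) = true := hstep 0 i0
  have i2 : f (K.inp w 0 x 2) = true := hstep 1 i1
  have i3 : f (K.inp w 0 x 3) = true := hstep 2 i2
  have i4 : f (K.aux w 0 x (3, 2)) = true := hstep 3 i3
  have h1 := hf (K.lit (K.fc w 5) 0 (x 5)) (K.aux w 0 x (3, 2)) (K.aux w 0 x (4, 0))
    (Or.inr (Or.inr ⟨w, 0, x, hsum, Or.inr (Or.inr ⟨rfl, rfl, rfl⟩)⟩))
  unfold OneInThree at h1
  rw [htrue 5, i4] at h1
  rcases h1 with h | h | h
  · exact absurd h.1 (by decide)
  · exact absurd h.1 (by decide)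
  · exact absurd h.2.1 (by decide)

end MP5e5.X
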