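import Pool.Agent.Lib.MP_5e5bb6_lc.X.Geo
import Pool.Agent.Lib.MP_5e5bb6_lc.X.Comm

/-!
# The support lemma for complexes
-/

open Classical

namespace MP5e5.X

open HF

variable {S L F C : Type} [Fintype S] [DecidableEq S] [Fintype L] [DecidableEq L] [Fintype F]
  [DecidableEq F] [Fintype C] [DecidableEq C] {K : Cx S L F C} (D : Geo K)

private theorem X8_map_map {A A' A'' : Type} (f : A' → A'') (g : A → A') (x : HF A) :
    HF.map f (HF.map g x) = HF.map (fun a => f (g a)) x := by
  induction x using HF.ind with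
  | h1 a => simp
  | h2 s ih =>
    rw [map_mk, map_mk, map_mk]
    congr 1
    ext z
    simp only [Finset.mem_image]
    constructor
    · rintro ⟨_, ⟨y, hy, rfl⟩, rfl⟩
      exact ⟨y, hy, (ih y hy).symm⟩
    · rintro ⟨y, hy, rfl⟩
      exact ⟨_, ⟨y, hy, rfl⟩, ih y hy⟩

private theorem X8_map_congr {A A' : Type} {f g : A → A'} (h : ∀ a, f a = g a) (x : HF A) :
    HF.map f x = HF.map g x := by
  rw [funext h]

/-- The objects in the transitive closure of a small invariant object are fixed by `z l` for all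
links `l` except those with all ends in a small set `B`. -/
theorem exists_B {x y : HF K.At} {k : ℕ} (hx : ∀ π : Equiv.Perm K.At, IsAut (K.Rel 0) π → π • x = x)
    (hk : tcCard x < 2 ^ (k + 1)) (hy : TC x y) :
    ∃ B : Finset S, B.card ≤ 2 * k ∧ ∀ l, ¬ K.ends l ⊆ B → (D.gs).hact (K.z l) y = y := by
  have hcard : (TC_finite x).toFinset.card < 2 ^ (k + 1) := by
    rw [← Set.ncard_eq_toFinset_card _ (TC_finite x)]
    exact hk
  obtain ⟨B, hB, hcomm⟩ := comm_count (V := S) (Γ := Equiv.Perm K.At) (Y := HF K.At) K.gens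
    K.gens_comm y (TC_finite x).toFinset (fun γ hγ => by
      rw [Set.Finite.mem_toFinset]
      have h1 := smul_TC (π := γ) hy
      rw [hx γ (K.isAut_closure D.dd 0 γ hγ)] at h1
      exact h1) k hcard
  refine ⟨B, hB, fun l hl => ?_⟩
  obtain ⟨v, hv, hvB⟩ := Finset.not_subset.mp hl
  have h1 := hcomm v hvB (K.kap v l) (Or.inr ⟨l, hv, rfl⟩) (K.flip v) (Or.inl rfl)
  have hg : (D.gs).hact (K.z l) ((K.flip v * K.kap v l) • y) = (K.kap v l * K.flip v) • y := by
    rw [GS.hact, smul_def, smul_def, X8_map_map]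
    refine X8_map_congr (fun a => ?_) y
    exact (K.kapF_flipF hv a).symm
  have hc : (D.gs).hact (K.z l) ((K.flip v * K.kap v l) • y) =
      (K.flip v * K.kap v l) • (D.gs).hact (K.z l) y := by
    rw [GS.hact, GS.hact, smul_def, smul_def, X8_map_map, X8_map_map]
    refine X8_map_congr (fun a => ?_) y
    change K.act (K.z l) (K.flipF v (K.kapF v l a)) = K.flipF v (K.kapF v l (K.act (K.z l) a))
    rw [K.act_flipF, K.act_kapF]
  rw [h1, hc] at hg
  exact smul_left_cancel _ hg

theorem X9_zmod2 (c : ZMod 2) : c = 0 ∨ c = 1 := by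
  revert c
  decide

theorem X9_d1_single_zero (l : L) : K.d1 (Pi.single l (0 : ZMod 2)) = 0 := by
  funext f
  simp [Cx.d1]

theorem X9_d1_eq_sum (a : L → ZMod 2) : K.d1 a = ∑ l, K.d1 (Pi.single l (a l)) := by
  funext f
  simp only [Cx.d1, Finset.sum_apply]
  rw [Finset.sum_comm]
  refine Finset.sum_congr rfl fun m _ => ?_
  simp [Pi.single_apply]

/-- The coboundary of `a` is the sum of the `z l` with `a l ≠ 0`. -/
theorem hact_d1 {y : HF K.At} {B : Finset S}
    (hB : ∀ l, ¬ K.ends l ⊆ B → (D.gs).hact (K.z l) y = y) (a : L → ZMod 2)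
    (ha : ∀ l, K.ends l ⊆ B → a l = 0) : (D.gs).hact (K.d1 a) y = y := by
  have h1 : ∀ l, (D.gs).hact (K.d1 (Pi.single l (a l))) y = y := by
    intro l
    rcases X9_zmod2 (a l) with h0 | h0
    · rw [h0, X9_d1_single_zero, GS.hact_zero]
    · have hl : ¬ K.ends l ⊆ B := by
        intro h
        have := ha l h
        rw [h0] at this
        exact one_ne_zero this
      rw [h0]
      exact hB l hl
  have h2 : ∀ s : Finset L, (D.gs).hact (∑ l ∈ s, K.d1 (Pi.single l (a l))) y = y := by
    intro s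
    induction s using Finset.induction_on with
    | empty => rw [Finset.sum_empty, GS.hact_zero]
    | insert l s hl ih => rw [Finset.sum_insert hl, GS.hact_add, ih, h1]
  rw [X9_d1_eq_sum a]
  exact h2 Finset.univ

/-- Small supports. -/
theorem exists_supp {x y : HF K.At} {k : ℕ}
    (hx : ∀ π : Equiv.Perm K.At, IsAut (K.Rel 0) π → π • x = x)
    (hk : tcCard x < 2 ^ (k + 1)) (hW : 2 * k < D.W) (hy : TC x y) :
    ∃ T : Finset F, T.card ≤ 24 * k ^ 3 ∧ (D.gs).Supp T y := by
  obtain ⟨B, hB1, hB2⟩ := exists_B D hx hk hy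
  obtain ⟨T, hT1, hT2⟩ := D.loc1 B (lt_of_le_of_lt hB1 hW)
  refine ⟨T, ?_, ?_⟩
  · have h1 : B.card ^ 3 ≤ (2 * k) ^ 3 := Nat.pow_le_pow_left hB1 3
    have h2 : (2 * k) ^ 3 = 8 * k ^ 3 := by ring
    omega
  · intro h hh h0
    obtain ⟨a, rfl⟩ : ∃ a, h = K.d1 a := hh
    obtain ⟨a', ha1, ha2⟩ := hT2 a h0
    rw [← ha1]
    exact hact_d1 D hB2 a' ha2

/-- The action of an element of `M`, as a permutation. -/
def Y10_perm (h : F → ZMod 2) : Equiv.Perm K.At where
  toFun := K.act h
  invFun := K.act (-h)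
  left_inv a := by rw [← Cx.act_add', neg_add_cancel, Cx.act_zero']
  right_inv a := by rw [← Cx.act_add', add_neg_cancel, Cx.act_zero']

/-- SUPPORT LEMMA. -/
theorem HS_of_small {x : HF K.At} {k : ℕ}
    (hx : ∀ π : Equiv.Perm K.At, IsAut (K.Rel 0) π → π • x = x)
    (hk : tcCard x < 2 ^ (k + 1)) (hW : 2 * k < D.W) : (D.gs).HS (6 + 24 * k ^ 3) x := by
  have key : ∀ y : HF K.At, (y = x ∨ TC x y) → (D.gs).HS (6 + 24 * k ^ 3) y := by
    intro y
    induction y using HF.ind with
    | h1 a =>
      intro _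
      exact GS.HS.atom a (le_trans (Cx.ns_card' a) (by omega))
    | h2 s ih =>
      intro hy
      refine GS.HS.mk s ?_ ?_
      · rcases hy with hy | hy
        · have : (D.gs).Supp ∅ (mk s) := by
            intro h hM _
            rw [hy]
            exact hx (Y10_perm h) (fun a b c => D.R0_inv' hM a b c)
          have := (D.gs).sp_card_le this
          simp only [Finset.card_empty] at this
          omega
        · obtain ⟨T, hT, hS⟩ := exists_supp D hx hk hW hy
          have := (D.gs).sp_card_le hS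
          omega
      · intro z hz
        apply ih z hz
        right
        rcases hy with hy | hy
        · rw [← hy]
          exact TC.base (mem_mk.mpr hz)
        · exact TC.step hy (mem_mk.mpr hz)
  exact key x (Or.inl rfl)

end MP5e5.X
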