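import Pool.Agent.Lib.MP_5e5bb6_lc.X.EvA
import Pool.Agent.Lib.MP_5e5bb6_lc.X.EvB
import Pool.Agent.Lib.MP_5e5bb6_lc.X.SupX
import Pool.Agent.Lib.MP_5e5bb6_lc.X.SatX
import Pool.Agent.Lib.MP_5e5bb6_lc.X.LatEx
import Pool.Agent.Lib.MP_5e5bb6_lc.X.Dec

/-! # Main theorem -/

open Classical

namespace MP5e5.X

open HF

/-- Transport commutes with evaluation. -/
theorem GS.tr {p : ℕ} [Fact p.Prime] {E A : Type} [Fintype E] [DecidableEq E] [Fintype A]
    (G : GS p E A) : ∀ t : Tm, G.TrOK t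
  | .var i => G.tr_var i
  | .empty => G.tr_empty
  | .atoms => G.tr_atoms
  | .pair a b => G.tr_pair (GS.tr G a) (GS.tr G b)
  | .union a => G.tr_union (GS.tr G a)
  | .unique a => G.tr_unique (GS.tr G a)
  | .card a => G.tr_card (GS.tr G a)
  | .eq a b => G.tr_eq (GS.tr G a) (GS.tr G b)
  | .mem a b => G.tr_mem (GS.tr G a) (GS.tr G b)
  | .rel a b c => G.tr_rel (GS.tr G a) (GS.tr G b) (GS.tr G c)
  | .neg a => G.tr_neg (GS.tr G a)
  | .conj a b => G.tr_conj (GS.tr G a) (GS.tr G b)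
  | .comp s r φ => G.tr_comp (GS.tr G s) (GS.tr G r) (GS.tr G φ)

section M2

variable {p : ℕ} [Fact p.Prime] {E A : Type} [Fintype E] [DecidableEq E] [Fintype A]
  (G : GS p E A)

theorem M2_run_inv (P : Program) {h : E → ZMod p} (hM : h ∈ G.M) :
    ∀ j, G.hact h (run P G.R0 j) = run P G.R0 j
  | 0 => by simp [run, ff]
  | j + 1 => by
    rw [run, ← G.eval_hact P.step hM]
    congr 1
    funext _
    exact M2_run_inv P hM j

theorem M2_sp_run (P : Program) (j : ℕ) : G.sp (run P G.R0 j) = ∅ :=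
  G.sp_of_inv fun _ hM => M2_run_inv G P hM j

theorem M2_sp_eval (P : Program) (t : Tm) (j : ℕ) :
    G.sp (eval G.R0 t fun _ => run P G.R0 j) = ∅ := by
  apply G.sp_of_inv
  intro h hM
  rw [← G.eval_hact t hM]
  congr 1
  funext _
  exact M2_run_inv G P hM j

/-- A program whose small states on `R0` have hereditarily small supports behaves in the same way
on `R0` and on `R1`. -/
theorem GS.accepts (P : Program) (t : ℕ → ℕ∞) (N : ℕ → ℕ) {m : ℕ}
    (hHS : ∀ j, tcCard (run P G.R0 j) ≤ N (Fintype.card A) → G.HS m (run P G.R0 j))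
    (h1 : 20 * (big P.step m + 1) < G.W) (h2 : 20 * (big P.halt m + 1) < G.W)
    (h3 : 20 * (big P.out m + 1) < G.W) (h : Accepts P t N G.R0) : Accepts P t N G.R1 := by
  obtain ⟨i, hi0, hi1, hi2, hi3, hi4⟩ := h
  obtain ⟨g, hg⟩ := G.ne
  have hHS' : ∀ j ≤ i, G.HS m (run P G.R0 j) := fun j hj => hHS j (hi4 j hj)
  have hev : ∀ t, 20 * (big t m + 1) < G.W → ∀ j ≤ i,
      eval G.R1 t (fun _ => G.F (run P G.R0 j) g) = G.F (eval G.R0 t fun _ => run P G.R0 j) g := by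
    intro t ht j hj
    have := G.tr t m ht ∅ (by simp) (fun _ => run P G.R0 j) (fun _ => hHS' j hj)
      (fun _ => by rw [M2_sp_run]) g (by rw [M2_sp_eval]; simpa using hg)
    exact this
  have hrun : ∀ j ≤ i, run P G.R1 j = G.F (run P G.R0 j) g := by
    intro j
    induction j with
    | zero =>
      intro _
      have h0 := hev .empty (by
        have : big Tm.empty m ≤ big P.step m := by
          show m ≤ _
          exact le_big _ _
        omega) 0 (Nat.zero_le _)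
      exact h0
    | succ j ih =>
      intro hj
      have hj' : j ≤ i := by omega
      rw [run, ih hj', hev _ h1 j hj']
      rfl
  have hff : ∀ t, 20 * (big t m + 1) < G.W → ∀ j ≤ i,
      (eval G.R1 t (fun _ => run P G.R1 j) = ff ↔ eval G.R0 t (fun _ => run P G.R0 j) = ff) := by
    intro t ht j hj
    rw [hrun j hj]
    exact G.tr_truth (G.tr t) ht (T := ∅) (by simp) (fun _ => hHS' j hj)
      (fun _ => by rw [M2_sp_run]) hg
  refine ⟨i, hi0, ?_, ?_, ?_, ?_⟩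
  · intro j hj
    rw [hff _ h2 j hj.le]
    exact hi1 j hj
  · rw [Ne, hff _ h2 i le_rfl]
    exact hi2
  · rw [Ne, hff _ h3 i le_rfl]
    exact hi3
  · intro j hj
    have h4 : 4 * m < G.W := by
      have := le_big P.step m
      omega
    have hg' : G.Gd (G.sp (run P G.R0 j)) g := by
      rw [M2_sp_run]
      exact hg
    rw [hrun j hj]
    exact (G.F_tc h4 (hHS' j hj) hg').trans (hi4 j hj)

end M2

/-- The arithmetic of the parameters. -/
theorem exists_r (N : ℕ → ℕ) (n : ℕ → ℕ) (hn : ∀ r, 1 < r → r ≤ n r)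
    (hn' : ∀ r, 1 < r → n r ≤ 2 ^ 60 * r ^ 3) (C₀ : ℕ) (h : ∀ C : ℕ, ∀ᶠ n in Filter.atTop, (C * (1 + Nat.log 2 (N n))) ^ 9 ≤ n) :
    ∃ r k : ℕ, 1 < r ∧ N (n r) < 2 ^ (k + 1) ∧ C₀ * (k ^ 3 + 1) < r := by
  obtain ⟨n0, hn0⟩ := Filter.eventually_atTop.mp (h (2 ^ 7 * (C₀ + 1)))
  have hr : 1 < n0 + 2 := by omega
  refine ⟨n0 + 2, Nat.log 2 (N (n (n0 + 2))), hr, Nat.lt_pow_succ_log_self (by norm_num) _, ?_⟩
  have h1 := hn0 (n (n0 + 2)) (le_trans (by omega) (hn _ hr))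
  have h2 := hn' _ hr
  generalize hk : Nat.log 2 (N (n (n0 + 2))) = k at *
  generalize hr' : n0 + 2 = r at *
  have h3 : ((2 ^ 7 * (C₀ + 1) * (1 + k)) ^ 3) ^ 3 ≤ (2 ^ 20 * r) ^ 3 := by
    calc ((2 ^ 7 * (C₀ + 1) * (1 + k)) ^ 3) ^ 3 = (2 ^ 7 * (C₀ + 1) * (1 + k)) ^ 9 := by ring
      _ ≤ n r := h1
      _ ≤ 2 ^ 60 * r ^ 3 := h2
      _ = (2 ^ 20 * r) ^ 3 := by ring
  have h4 : (2 ^ 7 * (C₀ + 1) * (1 + k)) ^ 3 ≤ 2 ^ 20 * r := (Nat.pow_le_pow_iff_left (by norm_num)).mp h3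
  have h5 : 2 * (C₀ + 1) ^ 3 * (1 + k) ^ 3 ≤ r := by
    have : 2 ^ 20 * (2 * (C₀ + 1) ^ 3 * (1 + k) ^ 3) ≤ 2 ^ 20 * r := by
      calc 2 ^ 20 * (2 * (C₀ + 1) ^ 3 * (1 + k) ^ 3) = (2 ^ 7 * (C₀ + 1) * (1 + k)) ^ 3 := by ring
        _ ≤ _ := h4
    exact Nat.le_of_mul_le_mul_left this (by positivity)
  refine lt_of_lt_of_le ?_ h5
  have h6 : k ^ 3 + 1 ≤ (1 + k) ^ 3 := by nlinarith [Nat.zero_le k, Nat.zero_le (k ^ 2)]
  have h7 : C₀ < 2 * (C₀ + 1) ^ 3 := by nlinarith [Nat.zero_le C₀, Nat.zero_le (C₀ ^ 2), Nat.zero_le (C₀ ^ 3)]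
  calc C₀ * (k ^ 3 + 1) ≤ C₀ * (1 + k) ^ 3 := Nat.mul_le_mul_left _ h6
    _ < 2 * (C₀ + 1) ^ 3 * (1 + k) ^ 3 := Nat.mul_lt_mul_of_pos_right h7 (by positivity)

theorem mainX (P : Program) (t : ℕ → ℕ∞) (N : ℕ → ℕ)
    (h : ∀ C : ℕ, ∀ᶠ n in Filter.atTop, (C * (1 + Nat.log 2 (N n))) ^ 9 ≤ n) :
    ¬ Decides P t N := by
  intro hdec
  obtain ⟨C1, hC1⟩ := big_linear P.step
  obtain ⟨C2, hC2⟩ := big_linear P.halt
  obtain ⟨C3, hC3⟩ := big_linear P.out
  have hcard : ∀ r, (hr : 1 < r) → haveI : NeZero r := ⟨by omega⟩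
      Nat.card (lat r).At = Fintype.card (lat r).At := by
    intro r hr
    have : NeZero r := ⟨by omega⟩
    exact Nat.card_eq_fintype_card
  obtain ⟨r, k, hr, hN, hC⟩ := exists_r N (fun r => Nat.card (lat r).At)
    (fun r hr => by
      have : NeZero r := ⟨by omega⟩
      show r ≤ Nat.card (lat r).At
      rw [hcard r hr]
      exact card_At_ge)
    (fun r hr => by
      have : NeZero r := ⟨by omega⟩
      show Nat.card (lat r).At ≤ _
      rw [hcard r hr]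
      exact card_At_le) (20 * (24 * (C1 + C2 + C3) + 1) + 2) h
  have : NeZero r := ⟨by omega⟩
  have hN' : N (Fintype.card (lat r).At) < 2 ^ (k + 1) := by
    rw [← hcard r hr]
    exact hN
  have hb : ∀ c b : ℕ, c ≤ C1 + C2 + C3 → b ≤ c * (6 + 24 * k ^ 3 + 1) → 20 * (b + 1) < r := by
    intro c b hc hb
    refine lt_of_le_of_lt ?_ hC
    have h1 : c * (6 + 24 * k ^ 3 + 1) ≤ (C1 + C2 + C3) * (24 * (k ^ 3 + 1)) :=
      Nat.mul_le_mul hc (by omega)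
    have h2 : (20 * (24 * (C1 + C2 + C3) + 1) + 2) * (k ^ 3 + 1) =
        20 * ((C1 + C2 + C3) * (24 * (k ^ 3 + 1)) + (k ^ 3 + 1)) + 2 * (k ^ 3 + 1) := by ring
    rw [h2]
    have h3 : 0 ≤ k ^ 3 := Nat.zero_le _
    omega
  have hk : 2 * k < r := by
    refine lt_of_le_of_lt ?_ hC
    have h1 : k ≤ k ^ 3 := Nat.le_self_pow (by norm_num) k
    calc 2 * k ≤ 2 * (k ^ 3 + 1) := by omega
      _ ≤ (20 * (24 * (C1 + C2 + C3) + 1) + 2) * (k ^ 3 + 1) :=
        Nat.mul_le_mul_right _ (by omega)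
  have hW : 2 * k < (latGeo r hr).W := hk
  have hacc : Accepts P t N (latGeo r hr).gs.R1 := by
    refine GS.accepts (latGeo r hr).gs P t N (m := 6 + 24 * k ^ 3) ?_
      (hb C1 _ (by omega) (hC1 _)) (hb C2 _ (by omega) (hC2 _)) (hb C3 _ (by omega) (hC3 _)) ?_
    · intro j hj
      exact HS_of_small (latGeo r hr) (fun π hπ => smul_run hπ P j) (lt_of_le_of_lt hj hN') hW
    · exact (hdec (lat r).At ((lat r).Rel 0)).mpr (sat_zero (lat r))
  have hsat : Sat ((lat r).Rel (latGeo r hr).tau) :=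
    (hdec (lat r).At ((lat r).Rel (latGeo r hr).tau)).mp hacc
  obtain ⟨g, hg⟩ := sol_of_sat (lat r) hsat
  have h0 := lat_closed g
  have h1 : ∑ w, (lat r).d2 g w = ∑ w : Sit r, (if w = 0 then (1 : ZMod 2) else 0) :=
    Finset.sum_congr rfl fun w _ => hg w
  rw [h1, Finset.sum_ite_eq' Finset.univ (0 : Sit r)] at h0
  simp at h0

end MP5e5.X
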