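import Pool.Agent.Lib.MP_5e5bb6_lc.X.Cx

/-!
# Automorphisms of the instances of the labelled systems

For a site `v` the flip of the label of `v` and the maps `kap v l` (`l` a link with end `v`)
generate a group, groups of different sites commute, and `z l` is a commutator.
-/

open Classical

namespace MP5e5.X

open HF

namespace Cx

variable {S L F C : Type} [Fintype S] [DecidableEq S] [Fintype L] [DecidableEq L] [Fintype F]
  [DecidableEq F] [Fintype C] [DecidableEq C] (K : Cx S L F C)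

theorem X3_res {D : Finset S} {s : S → ZMod 2} (h : ∀ v, v ∉ D → s v = 0) : res D s = s := by
  funext v
  unfold res
  split_ifs with hv
  · rfl
  · exact (h v hv).symm

theorem X3_flip (D : Finset S) (v : S) (s : S → ZMod 2) :
    (fun u => res D s u + if u = v ∧ v ∈ D then (1 : ZMod 2) else 0) =
      res D (fun u => s u + if u = v then 1 else 0) := by
  funext u
  unfold res
  by_cases hu : u ∈ D
  · by_cases huv : u = v
    · subst huv
      simp [hu]
    · simp [hu, huv]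
  · by_cases huv : u = v
    · subst huv
      simp [hu]
    · simp [hu, huv]

theorem X3_two (x y : ZMod 2) : x + y + y = x := by
  rw [add_assoc, CharTwo.add_self_eq_zero, add_zero]

theorem X3_lit_ext {a b : K.Lit} (h1 : a.1.1 = b.1.1) (h2 : a.1.2.1 = b.1.2.1) (h3 : a.1.2.2 = b.1.2.2) :
    (Sum.inr (Sum.inl a) : K.At) = Sum.inr (Sum.inl b) := by
  rw [Subtype.ext (Prod.ext h1 (Prod.ext h2 h3))]

theorem X3_aux_ext {a b : K.Ax} (h1 : a.1.1 = b.1.1) (h2 : a.1.2.1 = b.1.2.1) (h3 : a.1.2.2.1 = b.1.2.2.1)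
    (h4 : a.1.2.2.2 = b.1.2.2.2) : (Sum.inr (Sum.inr a) : K.At) = Sum.inr (Sum.inr b) := by
  rw [Subtype.ext (Prod.ext h1 (Prod.ext h2 (Prod.ext h3 h4)))]

/-- Every atom is a constant, a literal or an auxiliary atom. -/
theorem At_cases (a : K.At) : (∃ b, a = K.cst b) ∨ (∃ f s x, a = K.lit f s x) ∨
    (∃ w s x j, a = K.aux w s x j) := by
  rcases a with b | ⟨⟨f, s, x⟩, h⟩ | ⟨⟨w, s, x, j⟩, h⟩
  · exact Or.inl ⟨b, rfl⟩
  · exact Or.inr (Or.inl ⟨f, s, x, K.X3_lit_ext rfl (X3_res h).symm rfl⟩)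
  · exact Or.inr (Or.inr ⟨w, s, x, j, K.X3_aux_ext rfl (X3_res h).symm rfl rfl⟩)

theorem act_cst (g : F → ZMod 2) (b : Bool) : K.act g (K.cst b) = K.cst b := rfl

theorem act_lit (g : F → ZMod 2) (f : F) (s : S → ZMod 2) (x : ZMod 2) :
    K.act g (K.lit f s x) = K.lit f s (x + g f) := rfl

theorem act_aux (g : F → ZMod 2) (w : C) (s : S → ZMod 2) (x : Fin 6 → ZMod 2)
    (j : Fin 5 × Fin 3) :
    K.act g (K.aux w s x j) = K.aux w s (fun k => x k + g (K.fc w k)) j := rfl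

theorem flipF_lit (v : S) (f : F) (s : S → ZMod 2) (x : ZMod 2) :
    K.flipF v (K.lit f s x) = K.lit f (fun u => s u + if u = v then 1 else 0) x := by
  exact K.X3_lit_ext rfl (X3_flip (K.cf f) v s) rfl

theorem flipF_aux (v : S) (w : C) (s : S → ZMod 2) (x : Fin 6 → ZMod 2) (j : Fin 5 × Fin 3) :
    K.flipF v (K.aux w s x j) = K.aux w (fun u => s u + if u = v then 1 else 0) x j := by
  exact K.X3_aux_ext rfl (X3_flip (K.cc w) v s) rfl rfl

theorem mem_cf_of_z {v : S} {l : L} (hv : v ∈ K.ends l) {f : F} (h : K.z l f ≠ 0) :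
    v ∈ K.cf f := by
  unfold z d1 at h
  obtain ⟨m, -, hm⟩ := Finset.exists_ne_zero_of_sum_ne_zero h
  have hl : K.lk f m = l := by
    by_contra hne
    exact hm (Pi.single_eq_of_ne hne _)
  unfold cf
  rw [Finset.mem_biUnion]
  exact ⟨m, Finset.mem_univ m, by rw [hl]; exact hv⟩

theorem kapF_lit {v : S} {l : L} (hv : v ∈ K.ends l) (f : F) (s : S → ZMod 2) (x : ZMod 2) :
    K.kapF v l (K.lit f s x) = K.lit f s (x + s v * K.z l f) := by
  refine K.X3_lit_ext rfl rfl ?_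
  show x + res (K.cf f) s v * K.z l f = x + s v * K.z l f
  by_cases h : K.z l f = 0
  · rw [h, mul_zero, mul_zero]
  · have hm := K.mem_cf_of_z hv h
    unfold res
    rw [if_pos hm]

theorem kapF_aux {v : S} {l : L} (hv : v ∈ K.ends l) (w : C) (s : S → ZMod 2)
    (x : Fin 6 → ZMod 2) (j : Fin 5 × Fin 3) :
    K.kapF v l (K.aux w s x j) = K.aux w s (fun k => x k + s v * K.z l (K.fc w k)) j := by
  refine K.X3_aux_ext rfl rfl ?_ rfl
  funext k
  show x k + res (K.cc w) s v * K.z l (K.fc w k) = x k + s v * K.z l (K.fc w k)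
  by_cases h : K.z l (K.fc w k) = 0
  · rw [h, mul_zero, mul_zero]
  · have hm := K.mem_cf_of_z hv h
    have hm' : v ∈ K.cc w := by
      unfold cc
      rw [Finset.mem_biUnion]
      exact ⟨k, Finset.mem_univ k, hm⟩
    unfold res
    rw [if_pos hm']

theorem flipF_flipF (v : S) (a : K.At) : K.flipF v (K.flipF v a) = a := by
  rcases a with b | ⟨⟨f, s, x⟩, h⟩ | ⟨⟨w, s, x, j⟩, h⟩
  · rfl
  · exact K.X3_lit_ext rfl (funext fun u => X3_two _ _) rfl
  · exact K.X3_aux_ext rfl (funext fun u => X3_two _ _) rfl rfl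

theorem kapF_kapF (v : S) (l : L) (a : K.At) : K.kapF v l (K.kapF v l a) = a := by
  rcases a with b | ⟨⟨f, s, x⟩, h⟩ | ⟨⟨w, s, x, j⟩, h⟩
  · rfl
  · exact K.X3_lit_ext rfl rfl (X3_two _ _)
  · exact K.X3_aux_ext rfl rfl (funext fun k => X3_two _ _) rfl

/-- Flip the label of the site `v`, as a permutation. -/
def flip (v : S) : Equiv.Perm K.At := ⟨K.flipF v, K.flipF v, K.flipF_flipF v, K.flipF_flipF v⟩

/-- `kapF v l` as a permutation. -/
def kap (v : S) (l : L) : Equiv.Perm K.At :=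
  ⟨K.kapF v l, K.kapF v l, K.kapF_kapF v l, K.kapF_kapF v l⟩

/-- Two literals with equal data are equal. -/
theorem X4_lit {a a' : K.Lit} (h1 : a.1.1 = a'.1.1) (h2 : a.1.2.1 = a'.1.2.1)
    (h3 : a.1.2.2 = a'.1.2.2) : (Sum.inr (Sum.inl a) : K.At) = Sum.inr (Sum.inl a') := by
  have : a = a' := Subtype.ext (Prod.ext h1 (Prod.ext h2 h3))
  rw [this]

/-- Two auxiliary atoms with equal data are equal. -/
theorem X4_aux {a a' : K.Ax} (h1 : a.1.1 = a'.1.1) (h2 : a.1.2.1 = a'.1.2.1)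
    (h3 : a.1.2.2.1 = a'.1.2.2.1) (h4 : a.1.2.2.2 = a'.1.2.2.2) :
    (Sum.inr (Sum.inr a) : K.At) = Sum.inr (Sum.inr a') := by
  have : a = a' := Subtype.ext (Prod.ext h1 (Prod.ext h2 (Prod.ext h3 h4)))
  rw [this]

theorem flip_flip (u v : S) : K.flip u * K.flip v = K.flip v * K.flip u := by
  ext a
  rw [Equiv.Perm.mul_apply, Equiv.Perm.mul_apply]
  change K.flipF u (K.flipF v a) = K.flipF v (K.flipF u a)
  rcases a with b | a | a
  · rfl
  · exact K.X4_lit rfl (funext fun w => add_right_comm _ _ _) rfl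
  · exact K.X4_aux rfl (funext fun w => add_right_comm _ _ _) rfl rfl

theorem kap_kap (u v : S) (l l' : L) : K.kap u l * K.kap v l' = K.kap v l' * K.kap u l := by
  ext a
  rw [Equiv.Perm.mul_apply, Equiv.Perm.mul_apply]
  change K.kapF u l (K.kapF v l' a) = K.kapF v l' (K.kapF u l a)
  rcases a with b | a | a
  · rfl
  · exact K.X4_lit rfl rfl (add_right_comm _ _ _)
  · exact K.X4_aux rfl rfl (funext fun w => add_right_comm _ _ _) rfl

theorem flip_kap {u v : S} (h : u ≠ v) (l : L) : K.flip u * K.kap v l = K.kap v l * K.flip u := by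
  ext a
  rw [Equiv.Perm.mul_apply, Equiv.Perm.mul_apply]
  change K.flipF u (K.kapF v l a) = K.kapF v l (K.flipF u a)
  rcases a with b | a | a
  · rfl
  · refine K.X4_lit rfl rfl ?_
    change a.1.2.2 + a.1.2.1 v * K.z l a.1.1 =
      a.1.2.2 + (a.1.2.1 v + if v = u ∧ u ∈ K.cf a.1.1 then 1 else 0) * K.z l a.1.1
    rw [if_neg (fun hh => h hh.1.symm), add_zero]
  · refine K.X4_aux rfl rfl (funext fun k => ?_) rfl
    change a.1.2.2.1 k + a.1.2.1 v * K.z l (K.fc a.1.1 k) =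
      a.1.2.2.1 k + (a.1.2.1 v + if v = u ∧ u ∈ K.cc a.1.1 then 1 else 0) * K.z l (K.fc a.1.1 k)
    rw [if_neg (fun hh => h hh.1.symm), add_zero]

/-- `z l` is a commutator. -/
theorem kapF_flipF {v : S} {l : L} (hv : v ∈ K.ends l) (a : K.At) :
    K.kapF v l (K.flipF v a) = K.act (K.z l) (K.flipF v (K.kapF v l a)) := by
  rcases a with b | a | a
  · rfl
  · refine K.X4_lit rfl rfl ?_
    change a.1.2.2 + (a.1.2.1 v + if v = v ∧ v ∈ K.cf a.1.1 then 1 else 0) * K.z l a.1.1 =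
      a.1.2.2 + a.1.2.1 v * K.z l a.1.1 + K.z l a.1.1
    by_cases hc : v ∈ K.cf a.1.1
    · rw [if_pos ⟨rfl, hc⟩]
      ring
    · have hz : K.z l a.1.1 = 0 := by
        by_contra h0
        exact hc (K.mem_cf_of_z hv h0)
      simp only [hz, mul_zero, add_zero]
  · refine K.X4_aux rfl rfl (funext fun k => ?_) rfl
    change a.1.2.2.1 k + (a.1.2.1 v + if v = v ∧ v ∈ K.cc a.1.1 then 1 else 0) *
        K.z l (K.fc a.1.1 k) =
      a.1.2.2.1 k + a.1.2.1 v * K.z l (K.fc a.1.1 k) + K.z l (K.fc a.1.1 k)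
    by_cases hc : v ∈ K.cc a.1.1
    · rw [if_pos ⟨rfl, hc⟩]
      ring
    · have hz : K.z l (K.fc a.1.1 k) = 0 := by
        by_contra h0
        exact hc (Finset.mem_biUnion.mpr ⟨k, Finset.mem_univ k, K.mem_cf_of_z hv h0⟩)
      simp only [hz, mul_zero, add_zero]

theorem act_flipF (g : F → ZMod 2) (v : S) (a : K.At) :
    K.act g (K.flipF v a) = K.flipF v (K.act g a) := by
  rcases a with b | a | a
  · rfl
  · exact K.X4_lit rfl rfl rfl
  · exact K.X4_aux rfl rfl rfl rfl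

theorem act_kapF (g : F → ZMod 2) (v : S) (l : L) (a : K.At) :
    K.act g (K.kapF v l a) = K.kapF v l (K.act g a) := by
  rcases a with b | a | a
  · rfl
  · exact K.X4_lit rfl rfl (add_right_comm _ _ _)
  · exact K.X4_aux rfl rfl (funext fun k => add_right_comm _ _ _) rfl

theorem X5_inp_flip (v : S) (w : C) (s : S → ZMod 2) (x : Fin 6 → ZMod 2) (j : Fin 4) :
    K.flipF v (K.inp w s x j) = K.inp w (fun u => s u + if u = v then 1 else 0) x j := by
  fin_cases j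
  · exact K.flipF_lit v _ _ _
  · exact K.flipF_aux v _ _ _ _
  · exact K.flipF_aux v _ _ _ _
  · exact K.flipF_aux v _ _ _ _

theorem X5_flip (b : C → ZMod 2) (v : S) (a₁ a₂ a₃ : K.At) (h : K.Rel b a₁ a₂ a₃) :
    K.Rel b (K.flipF v a₁) (K.flipF v a₂) (K.flipF v a₃) := by
  rcases h with ⟨rfl, rfl, rfl⟩ | ⟨f, s, x, rfl, rfl, rfl⟩ | ⟨w, s, x, hx, h⟩
  · exact Or.inl ⟨rfl, rfl, rfl⟩
  · exact Or.inr (Or.inl ⟨f, fun u => s u + if u = v then 1 else 0, x, K.flipF_lit v _ _ _,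
      K.flipF_lit v _ _ _, rfl⟩)
  · refine Or.inr (Or.inr ⟨w, fun u => s u + if u = v then 1 else 0, x, hx, ?_⟩)
    rcases h with ⟨j, rfl, rfl, rfl⟩ | ⟨j, rfl, rfl, rfl⟩ | ⟨rfl, rfl, rfl⟩
    · exact Or.inl ⟨j, K.X5_inp_flip v _ _ _ _, K.flipF_aux v _ _ _ _, K.flipF_aux v _ _ _ _⟩
    · exact Or.inr (Or.inl ⟨j, K.flipF_lit v _ _ _, K.flipF_aux v _ _ _ _,
        K.flipF_aux v _ _ _ _⟩)
    · exact Or.inr (Or.inr ⟨K.flipF_lit v _ _ _, K.flipF_aux v _ _ _ _, K.flipF_aux v _ _ _ _⟩)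

/-- an involution which preserves the relation is an automorphism -/
theorem X5_isAut {A : Type} {R : A → A → A → Prop} {π : Equiv.Perm A} {φ : A → A}
    (hφ : ∀ a, π a = φ a) (h2 : ∀ a, φ (φ a) = a)
    (h : ∀ a b c, R a b c → R (φ a) (φ b) (φ c)) : IsAut R π := by
  intro a b c
  rw [hφ, hφ, hφ]
  refine ⟨fun h' => ?_, h a b c⟩
  have h3 := h _ _ _ h'
  rwa [h2, h2, h2] at h3

theorem isAut_flip (b : C → ZMod 2) (v : S) : IsAut (K.Rel b) (K.flip v) :=
  X5_isAut (φ := K.flipF v) (fun _ => rfl) (K.flipF_flipF v) (K.X5_flip b v)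

theorem X5_inp_kap {v : S} {l : L} (hv : v ∈ K.ends l) (w : C) (s : S → ZMod 2)
    (x : Fin 6 → ZMod 2) (j : Fin 4) : K.kapF v l (K.inp w s x j) =
      K.inp w s (fun k => x k + s v * K.z l (K.fc w k)) j := by
  fin_cases j
  · exact K.kapF_lit hv _ _ _
  · exact K.kapF_aux hv _ _ _ _
  · exact K.kapF_aux hv _ _ _ _
  · exact K.kapF_aux hv _ _ _ _

theorem X5_kap (dd : ∀ a w, K.d2 (K.d1 a) w = 0) (b : C → ZMod 2) {v : S} {l : L}
    (hv : v ∈ K.ends l) (a₁ a₂ a₃ : K.At) (h : K.Rel b a₁ a₂ a₃) :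
    K.Rel b (K.kapF v l a₁) (K.kapF v l a₂) (K.kapF v l a₃) := by
  have hl1 : ∀ (f : F) (s : S → ZMod 2) (x : ZMod 2), K.kapF v l (K.lit f s (x + 1)) =
      K.lit f s (x + s v * K.z l f + 1) := by
    intro f s x
    rw [K.kapF_lit hv]
    congr 1
    ring
  rcases h with ⟨rfl, rfl, rfl⟩ | ⟨f, s, x, rfl, rfl, rfl⟩ | ⟨w, s, x, hx, h⟩
  · exact Or.inl ⟨rfl, rfl, rfl⟩
  · exact Or.inr (Or.inl ⟨f, s, x + s v * K.z l f, K.kapF_lit hv _ _ _, hl1 _ _ _, rfl⟩)
  · refine Or.inr (Or.inr ⟨w, s, fun k => x k + s v * K.z l (K.fc w k), ?_, ?_⟩)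
    · have h0 : ∑ k, K.z l (K.fc w k) = 0 := dd (Pi.single l 1) w
      rw [Finset.sum_add_distrib, ← Finset.mul_sum, h0, mul_zero, add_zero]
      exact hx
    · rcases h with ⟨j, rfl, rfl, rfl⟩ | ⟨j, rfl, rfl, rfl⟩ | ⟨rfl, rfl, rfl⟩
      · exact Or.inl ⟨j, K.X5_inp_kap hv _ _ _ _, K.kapF_aux hv _ _ _ _,
          K.kapF_aux hv _ _ _ _⟩
      · exact Or.inr (Or.inl ⟨j, hl1 _ _ _, K.kapF_aux hv _ _ _ _, K.kapF_aux hv _ _ _ _⟩)
      · exact Or.inr (Or.inr ⟨K.kapF_lit hv _ _ _, K.kapF_aux hv _ _ _ _,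
          K.kapF_aux hv _ _ _ _⟩)

theorem isAut_kap (dd : ∀ a w, K.d2 (K.d1 a) w = 0) (b : C → ZMod 2) {v : S} {l : L}
    (hv : v ∈ K.ends l) : IsAut (K.Rel b) (K.kap v l) :=
  X5_isAut (φ := K.kapF v l) (fun _ => rfl) (K.kapF_kapF v l) (K.X5_kap dd b hv)

/-- The generators which belong to the site `v`. -/
def gens (v : S) : Set (Equiv.Perm K.At) := {π | π = K.flip v ∨ ∃ l, v ∈ K.ends l ∧ π = K.kap v l}

theorem gens_comm (u v : S) (h : u ≠ v) (g : Equiv.Perm K.At) (hg : g ∈ K.gens u)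
    (g' : Equiv.Perm K.At) (hg' : g' ∈ K.gens v) : g * g' = g' * g := by
  rcases hg with rfl | ⟨l, _, rfl⟩ <;> rcases hg' with rfl | ⟨l', _, rfl⟩
  · exact K.flip_flip u v
  · exact K.flip_kap h l'
  · exact (K.flip_kap h.symm l).symm
  · exact K.kap_kap u v l l'

theorem isAut_closure (dd : ∀ a w, K.d2 (K.d1 a) w = 0) (b : C → ZMod 2) (π : Equiv.Perm K.At)
    (hπ : π ∈ Subgroup.closure (⋃ v, K.gens v)) : IsAut (K.Rel b) π := by
  induction hπ using Subgroup.closure_induction with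
  | mem π h =>
    obtain ⟨v, hv⟩ := Set.mem_iUnion.1 h
    rcases hv with rfl | ⟨l, hl, rfl⟩
    · exact K.isAut_flip b v
    · exact K.isAut_kap dd b hl
  | one => exact fun _ _ _ => Iff.rfl
  | mul π π' _ _ h h' => exact fun a c d => (h _ _ _).trans (h' a c d)
  | inv π _ h =>
    intro a c d
    have h1 := h (π⁻¹ a) (π⁻¹ c) (π⁻¹ d)
    have h2 : ∀ y, π (π⁻¹ y) = y := fun y => π.apply_symm_apply y
    rw [h2, h2, h2] at h1
    exact h1.symm

end Cx

end MP5e5.X
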