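import Pool.Agent.Lib.MP_5e5bb6_lc.X.Gauge

/-! # Transport of objects: basic properties -/

open Classical

namespace MP5e5.X

open HF

namespace GS

variable {p : ℕ} [Fact p.Prime] {E A : Type} [Fintype E] [DecidableEq E] [Fintype A]
  (G : GS p E A)

/-- The transport of `x` depends only on the values of `g` on the support of `x`. -/
theorem F_congr {x : HF A} {g g' : E → ZMod p} (h : ∀ e ∈ G.sp x, g e = g' e) :
    G.F x g = G.F x g' := by
  rcases eq_atom_or_mk x with ⟨a, rfl⟩ | ⟨s, rfl⟩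
  · rw [F_atom, F_atom]
    congr 1
    exact G.act_congr (by simpa using h)
  · apply HF.ext_set (G.F_isSet (by simp)) (G.F_isSet (by simp))
    intro z
    rw [mem_F, mem_F]
    constructor
    · rintro ⟨y, hy, g1, h1, h2, h3⟩
      exact ⟨y, hy, g1, h1, fun e he => (h2 e he).trans (h e he), h3⟩
    · rintro ⟨y, hy, g1, h1, h2, h3⟩
      exact ⟨y, hy, g1, h1, fun e he => (h2 e he).trans (h e he).symm, h3⟩

/-- Equivariance. -/
theorem F_hact {x : HF A} (g : E → ZMod p) {h : E → ZMod p} (hM : h ∈ G.M) :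
    G.F (G.hact h x) g = G.F x (g + h) := by
  induction x using HF.ind generalizing g with
  | h1 a =>
    rw [hact_atom, F_atom, F_atom, G.act_add]
  | h2 s ih =>
    have hset : ∀ a, G.hact h (mk s) ≠ atom a := by
      intro a
      rw [hact_mk]
      simp
    apply HF.ext_set (G.F_isSet hset) (G.F_isSet (by simp))
    intro z
    rw [mem_F, mem_F]
    constructor
    · rintro ⟨y', hy', g1, h1, h2, h3⟩
      rw [hact_mk, mem_mk] at hy'
      obtain ⟨y, hy, rfl⟩ := Finset.mem_image.mp hy'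
      rw [G.sp_hact, G.sp_hact] at h1
      rw [G.sp_hact] at h2
      refine ⟨y, mem_mk.mpr hy, g1 + h, G.addM hM h1, ?_, ?_⟩
      · intro e he
        simp [h2 e he]
      · rw [h3, ih y hy]
    · rintro ⟨y, hy, g1, h1, h2, h3⟩
      refine ⟨G.hact h y, G.mem_hact hy, g1 + -h, ?_, ?_, ?_⟩
      · rw [G.sp_hact, G.sp_hact]
        exact G.addM (G.M.neg_mem hM) h1
      · intro e he
        rw [G.sp_hact] at he
        simp [h2 e he]
      · rw [ih y (mem_mk.mp hy), h3]
        congr 1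
        abel

/-- The transport of `x` depends only on the values of `g` on any support `S` of `x`. -/
theorem F_same {x : HF A} {S : Finset E} {g g' : E → ZMod p} (hS : G.Supp S x)
    (hg : G.Gd (S ∪ G.sp x) g) (hg' : G.Gd (S ∪ G.sp x) g') (h : ∀ e ∈ S, g e = g' e) :
    G.F x g = G.F x g' := by
  obtain ⟨k, hk, hk'⟩ := G.diff hg hg'
  have hx : G.hact k x = x := by
    apply hS k hk
    intro e he
    have := hk' e (Finset.mem_union_left _ he)
    rw [h e he] at this
    simpa using this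
  have h1 : G.F x g = G.F x (g' + k) := G.F_congr fun e he =>
    hk' e (Finset.mem_union_right _ he)
  rw [h1, ← G.F_hact g' hk, hx]


/-- Key step: move a witness of membership to a common gauge transformation. -/
theorem t2_key {x y : HF A} (hy : y ∈ x) {U : Finset E} (hU : G.sp x ⊆ U)
    (hc : (U ∪ G.sp y).card < G.W) {g1 g2 : E → ZMod p} (h1 : G.Gd U g1)
    (h2 : G.Gd (G.sp x ∪ G.sp y) g2) (h12 : ∀ e ∈ G.sp x, g2 e = g1 e) :
    ∃ h ∈ G.M, ∃ g3, G.Gd (U ∪ G.sp y) g3 ∧ (∀ e ∈ U, g3 e = g1 e) ∧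
      G.F y g2 = G.F (G.hact h y) g3 ∧ G.hact h y ∈ x := by
  obtain ⟨g3, hg3, he3⟩ := G.ext h1 (Finset.subset_union_left (s₂ := G.sp y)) hc
  obtain ⟨g4, hg4, he4⟩ := G.ext h2 (Finset.union_subset_union_left hU) hc
  obtain ⟨h, hM, hh⟩ := G.diff hg4 hg3
  have h0 : ∀ e ∈ G.sp x, h e = 0 := by
    intro e he
    have a1 := hh e (Finset.mem_union_left _ (hU he))
    rw [he4 e (Finset.mem_union_left _ he), h12 e he, he3 e (hU he)] at a1
    exact left_eq_add.mp a1
  refine ⟨h, hM, g3, hg3, he3, ?_, ?_⟩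
  · rw [G.F_hact g3 hM]
    apply G.F_congr
    intro e he
    rw [← he4 e (Finset.mem_union_right _ he)]
    exact hh e (Finset.mem_union_right _ he)
  · have := G.mem_hact (g := h) hy
    rwa [G.supp_sp x h hM h0] at this

theorem t2_step {k : ℕ} (hk : 4 * k < G.W) {x x' y : HF A} (hx : G.HS k x) (hx' : G.HS k x')
    {g : E → ZMod p} (hg : G.Gd (G.sp x ∪ G.sp x') g) (h : G.F x g = G.F x' g) (hy : y ∈ x) :
    ∃ z, z ∈ x' ∧ G.HS k z ∧ ∃ g3, G.Gd (G.sp y ∪ G.sp z) g3 ∧ G.F y g3 = G.F z g3 := by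
  have c1 := G.sp_card hx
  have c2 := G.sp_card hx'
  have c3 := G.sp_card (G.HS_of_mem hx hy)
  have c4 := Finset.card_union_le (G.sp x) (G.sp x')
  have c5 := Finset.card_union_le (G.sp x ∪ G.sp x') (G.sp y)
  obtain ⟨g1, hg1, he1⟩ := G.ext hg (Finset.subset_union_left (s₂ := G.sp y)) (by omega)
  have b1 : G.F x g1 = G.F x g := G.F_congr fun e he => he1 e (Finset.mem_union_left _ he)
  have b2 : G.F x' g1 = G.F x' g := G.F_congr fun e he => he1 e (Finset.mem_union_right _ he)
  have b3 : G.F y g1 ∈ G.F x' g1 := by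
    rw [b2, ← h, ← b1, G.mem_F]
    refine ⟨y, hy, g1, G.anti ?_ hg1, fun _ _ => rfl, rfl⟩
    exact Finset.union_subset_union_left Finset.subset_union_left
  obtain ⟨y', hy', g2, hg2, he2, b4⟩ := G.mem_F.mp b3
  have c6 := G.sp_card (G.HS_of_mem hx' hy')
  have c7 := Finset.card_union_le (G.sp x ∪ G.sp x' ∪ G.sp y) (G.sp y')
  obtain ⟨t, -, g3, hg3, he3, b5, b6⟩ := G.t2_key hy'
    (U := G.sp x ∪ G.sp x' ∪ G.sp y)
    (Finset.subset_union_right.trans Finset.subset_union_left) (by omega) hg1 hg2 he2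
  refine ⟨G.hact t y', b6, G.HS_of_mem hx' b6, g3, G.anti ?_ hg3, ?_⟩
  · rw [G.sp_hact]
    exact Finset.union_subset_union_left Finset.subset_union_right
  · rw [← b5, ← b4]
    exact G.F_congr fun e he => he3 e (Finset.mem_union_right _ he)

theorem t2_inj {k : ℕ} (hk : 4 * k < G.W) (x : HF A) : ∀ x' : HF A, G.HS k x → G.HS k x' →
    ∀ g : E → ZMod p, G.Gd (G.sp x ∪ G.sp x') g → G.F x g = G.F x' g → x = x' := by
  induction x using HF.ind with
  | h1 a =>
    intro x' hx hx' g hg h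
    rcases eq_atom_or_mk x' with ⟨b, rfl⟩ | ⟨t, rfl⟩
    · rw [G.F_atom, G.F_atom, atom_inj] at h
      rw [← G.act_zero a, ← G.act_zero b, ← neg_add_cancel g, G.act_add, G.act_add, h]
    · rw [G.F_atom, G.F_mk] at h
      exact absurd h (by simp)
  | h2 s ih =>
    intro x' hx hx' g hg h
    rcases eq_atom_or_mk x' with ⟨b, rfl⟩ | ⟨t, rfl⟩
    · rw [G.F_atom, G.F_mk] at h
      exact absurd h (by simp)
    · apply HF.ext_set (by simp) (by simp)
      intro y
      constructor
      · intro hy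
        obtain ⟨z, hz, hz', g3, hg3, h3⟩ := G.t2_step hk hx hx' hg h hy
        rw [ih y (mem_mk.mp hy) z (G.HS_of_mem hx hy) hz' g3 hg3 h3]
        exact hz
      · intro hy
        rw [Finset.union_comm] at hg
        obtain ⟨z, hz, hz', g3, hg3, h3⟩ := G.t2_step hk hx' hx hg h.symm hy
        rw [Finset.union_comm] at hg3
        rw [← ih z (mem_mk.mp hz) y hz' (G.HS_of_mem hx' hy) g3 hg3 h3.symm]
        exact hz

/-- Transport is injective. -/
theorem F_inj {k : ℕ} (hk : 4 * k < G.W) {x x' : HF A} (hx : G.HS k x) (hx' : G.HS k x')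
    {g : E → ZMod p} (hg : G.Gd (G.sp x ∪ G.sp x') g) (h : G.F x g = G.F x' g) : x = x' :=
  G.t2_inj hk x x' hx hx' g hg h

/-- Transport respects membership. -/
theorem F_mem {k : ℕ} (hk : 4 * k < G.W) {x y : HF A} (hx : G.HS k x) (hy : G.HS k y)
    {g : E → ZMod p} (hg : G.Gd (G.sp x ∪ G.sp y) g) : G.F y g ∈ G.F x g ↔ y ∈ x := by
  constructor
  · intro h
    obtain ⟨y', hy', g2, hg2, he2, b4⟩ := G.mem_F.mp h
    have c1 := G.sp_card hx
    have c2 := G.sp_card hy
    have c3 := G.sp_card (G.HS_of_mem hx hy')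
    have c4 := Finset.card_union_le (G.sp x) (G.sp y)
    have c5 := Finset.card_union_le (G.sp x ∪ G.sp y) (G.sp y')
    obtain ⟨t, -, g3, hg3, he3, b5, b6⟩ := G.t2_key hy' (U := G.sp x ∪ G.sp y)
      Finset.subset_union_left (by omega) hg hg2 he2
    have b7 : G.F y g3 = G.F (G.hact t y') g3 := by
      rw [← b5, ← b4]
      exact G.F_congr fun e he => he3 e (Finset.mem_union_right _ he)
    rw [G.F_inj hk hy (G.HS_of_mem hx b6) (G.anti ?_ hg3) b7]
    · exact b6
    · rw [G.sp_hact]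
      exact Finset.union_subset_union_left Finset.subset_union_right
  · intro h
    rw [G.mem_F]
    exact ⟨y, h, g, hg, fun _ _ => rfl, rfl⟩

/-- The elements of the transport of `x`, described with any support `S` of `x`. -/
theorem mem_F_iff {k : ℕ} {x z : HF A} (hx : G.HS k x) {S : Finset E} (hS : G.Supp S x)
    (hk : S.card + 2 * k < G.W) {g : E → ZMod p} (hg : G.Gd (S ∪ G.sp x) g) :
    z ∈ G.F x g ↔ ∃ y, y ∈ x ∧ ∃ g', G.Gd (S ∪ G.sp y) g' ∧ (∀ e ∈ S, g' e = g e) ∧
      z = G.F y g' := by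
  have hcard : ∀ y, y ∈ x → (S ∪ G.sp x ∪ G.sp y).card < G.W := by
    intro y hy
    have h1 := Finset.card_union_le (S ∪ G.sp x) (G.sp y)
    have h2 := Finset.card_union_le S (G.sp x)
    have h3 := G.sp_card hx
    have h4 := G.sp_card (G.HS_of_mem hx hy)
    omega
  constructor
  · intro hz
    obtain ⟨y, hy, g', hg', hgg', rfl⟩ := G.mem_F.mp hz
    obtain ⟨g3, hg3, hg3'⟩ := G.ext hg'
      (Finset.union_subset_union_left (t := G.sp y) (Finset.subset_union_right (s₁ := S)))
      (hcard y hy)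
    obtain ⟨g4, hg4, hg4'⟩ := G.ext hg
      (Finset.subset_union_left (s₁ := S ∪ G.sp x) (s₂ := G.sp y)) (hcard y hy)
    obtain ⟨h, hM, hh⟩ := G.diff hg3 hg4
    have h0 : ∀ e ∈ G.sp x, h e = 0 := by
      intro e he
      have e1 := hg3' e (Finset.mem_union_left _ he)
      have e2 := hg4' e (Finset.mem_union_right _ he)
      have e3 := hh e (Finset.mem_union_left _ (Finset.mem_union_right _ he))
      rw [e1, e2, hgg' e he] at e3
      exact (add_eq_left.mp e3.symm)
    have hhx : G.hact h x = x := G.supp_sp x h hM h0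
    refine ⟨G.hact h y, ?_, g4, ?_, ?_, ?_⟩
    · have := G.mem_hact (g := h) hy
      rwa [hhx] at this
    · rw [G.sp_hact]
      exact G.anti (Finset.union_subset_union_left (t := G.sp y)
        (Finset.subset_union_left (s₁ := S) (s₂ := G.sp x))) hg4
    · intro e he
      exact hg4' e (Finset.mem_union_left _ he)
    · rw [G.F_hact g4 hM]
      refine G.F_congr fun e he => ?_
      have e1 := hg3' e (Finset.mem_union_right _ he)
      have e3 := hh e (Finset.mem_union_right _ he)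
      rw [← e1, e3]
      rfl
  · rintro ⟨y, hy, g', hg', hgg', rfl⟩
    obtain ⟨g3, hg3, hg3'⟩ := G.ext hg'
      (Finset.union_subset_union_left (t := G.sp y)
        (Finset.subset_union_left (s₁ := S) (s₂ := G.sp x))) (hcard y hy)
    have e1 : G.F y g' = G.F y g3 :=
      G.F_congr fun e he => (hg3' e (Finset.mem_union_right _ he)).symm
    have e2 : G.F x g3 = G.F x g := by
      refine G.F_same hS (G.anti (Finset.subset_union_left (s₁ := S ∪ G.sp x)) hg3) hg
        fun e he => ?_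
      rw [hg3' e (Finset.mem_union_left _ he), hgg' e he]
    rw [e1, ← e2]
    refine G.mem_F.mpr ⟨y, hy, g3, ?_, fun e _ => rfl, rfl⟩
    exact G.anti (Finset.union_subset_union_left (t := G.sp y)
      (Finset.subset_union_right (s₁ := S))) hg3

end GS

end MP5e5.X
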